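import Mathlib

/-!
# Compact complex surfaces, closed real (1,1)-forms, nef and big classes

A compact complex surface is a compact connected Hausdorff space with charts in `ℂ²` and holomorphic
coordinate changes. As everywhere in Mathlib, the tangent space at a point `x` is the model space
`ℂ²`, through the preferred chart at `x`. A real (1,1)-form `θ` is given by its values
`θ x v = θ_x(v, v̄)` on the tangent vectors, which determine it by polarisation; it is semipositive
if these values are nonnegative.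
-/

set_option autoImplicit false

open scoped Manifold ContDiff Topology
open Set MeasureTheory

namespace Pool.Agent.TH613.NB

/-- The model space `ℂ²`. -/
abbrev C2 : Type := ℂ × ℂ

/-- The Levi form of `φ` at `z` in the direction `v`: `D²φ(z)(v, v) + D²φ(z)(iv, iv)`, that is
`4 ∑ (∂²φ / ∂z_j ∂z̄_k) v_j v̄_k`. It gives the values of the (1,1)-form `i∂∂̄φ`, up to a constant
factor that is the same for all the forms considered here. -/
noncomputable def leviForm (φ : C2 → ℝ) (z v : C2) : ℝ :=
  fderiv ℝ (fun w => fderiv ℝ φ w v) z v +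
    fderiv ℝ (fun w => fderiv ℝ φ w (Complex.I • v)) z (Complex.I • v)

/-- The locally integrable function `u` on the open set `V` of `ℂ²` is plurisubharmonic in the sense
of distributions: `i∂∂̄u ≥ 0` as a current on `V`, that is, for every vector `v` the distribution
`∑ (∂²u / ∂z_j ∂z̄_k) v_j v̄_k` is nonnegative. -/
def IsWeaklyPsh (u : C2 → ℝ) (V : Set C2) : Prop :=
  LocallyIntegrableOn u V ∧ ∀ χ : C2 → ℝ, ContDiff ℝ ∞ χ → HasCompactSupport χ → tsupport χ ⊆ V →
    (∀ y, 0 ≤ χ y) → ∀ v : C2, 0 ≤ ∫ y, u y * leviForm χ y v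

/-- A compact connected complex surface. -/
structure CompactSurface where
  /-- the points -/
  pt : Type
  /-- the topology -/
  top : TopologicalSpace pt
  t2 : T2Space pt
  second : SecondCountableTopology pt
  compact : CompactSpace pt
  connected : ConnectedSpace pt
  /-- the charts, with values in `ℂ²` -/
  charts : ChartedSpace C2 pt
  /-- the coordinate changes are holomorphic -/
  holo : IsManifold 𝓘(ℂ, C2) ω pt

namespace CompactSurface

variable (X : CompactSurface)

instance : TopologicalSpace X.pt := X.top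

instance : ChartedSpace C2 X.pt := X.charts

/-- The function `φ` on `X`, read in the preferred chart at `x`. -/
noncomputable def read (φ : X.pt → ℝ) (x : X.pt) : C2 → ℝ := φ ∘ (chartAt C2 x).symm

/-- The function `φ` on `X` is smooth at `x`. -/
def SmoothAt (φ : X.pt → ℝ) (x : X.pt) : Prop := ContDiffAt ℝ ∞ (X.read φ x) (chartAt C2 x x)

/-- The (1,1)-form `i∂∂̄φ` at `x`. -/
noncomputable def ddc (φ : X.pt → ℝ) (x : X.pt) (v : C2) : ℝ :=
  leviForm (X.read φ x) (chartAt C2 x x) v

/-- The smooth function `φ` is a potential of the (1,1)-form `θ` on `U`: `θ = i∂∂̄φ` there. -/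
def IsPotential (φ : X.pt → ℝ) (θ : X.pt → C2 → ℝ) (U : Set X.pt) : Prop :=
  ∀ x ∈ U, X.SmoothAt φ x ∧ ∀ v, θ x v = X.ddc φ x v

/-- `θ` is a smooth closed real (1,1)-form: locally it is `i∂∂̄φ` for a smooth function `φ`. -/
def IsClosedForm (θ : X.pt → C2 → ℝ) : Prop :=
  ∀ x₀ : X.pt, ∃ U : Set X.pt, IsOpen U ∧ x₀ ∈ U ∧ ∃ φ : X.pt → ℝ, X.IsPotential φ θ U

/-- `om` is a Kähler form: a closed positive (1,1)-form. -/
def IsKahlerForm (om : X.pt → C2 → ℝ) : Prop :=
  X.IsClosedForm om ∧ ∀ x v, v ≠ 0 → 0 < om x v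

/-- The closed real (1,1)-forms `θ` and `θ'` define the same Bott-Chern class:
`θ' = θ + i∂∂̄f` for a smooth function `f` on `X`. -/
def SameClass (θ θ' : X.pt → C2 → ℝ) : Prop :=
  ∃ f : X.pt → ℝ, (∀ x, X.SmoothAt f x) ∧ ∀ x v, θ' x v = θ x v + X.ddc f x v

/-- The class of `θ` is nef with respect to the Kähler form `om`: for every `ε > 0` it contains a
smooth closed form `≥ -ε om`. -/
def IsNef (om θ : X.pt → C2 → ℝ) : Prop :=
  ∀ ε : ℝ, 0 < ε → ∃ θ', X.SameClass θ θ' ∧ ∀ x v, -ε * om x v ≤ θ' x v

/-- The class of `θ` is big: it contains a closed current `T = θ + i∂∂̄f`, where `f` is a locally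
integrable function, with `T ≥ δ om` for some `δ > 0`. The inequality means that near every point
`x₀` the function `φ - δ ψ + f` (where `φ` and `ψ` are smooth local potentials of `θ` and `om`), read
in the chart at `x₀`, is plurisubharmonic in the sense of distributions. -/
def IsBig (om θ : X.pt → C2 → ℝ) : Prop :=
  ∃ δ : ℝ, 0 < δ ∧ ∃ f : X.pt → ℝ, ∀ x₀ : X.pt, ∃ U : Set X.pt, IsOpen U ∧ x₀ ∈ U ∧
    U ⊆ (chartAt C2 x₀).source ∧ ∃ φ ψ : X.pt → ℝ, X.IsPotential φ θ U ∧ X.IsPotential ψ om U ∧
      IsWeaklyPsh (fun y => φ ((chartAt C2 x₀).symm y) - δ * ψ ((chartAt C2 x₀).symm y) +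
        f ((chartAt C2 x₀).symm y)) (chartAt C2 x₀ '' U)

end CompactSurface

end Pool.Agent.TH613.NB
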