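import Pool.Agent.TH613.NB.Levi
import Pool.Agent.W711.KC.Quot2

/-!
# Functions and forms on a quotient surface
-/

set_option autoImplicit false

open scoped Manifold ContDiff Topology
open Set Filter TopologicalSpace

namespace Pool.Agent.TH613.NB

open Pool.Agent.W711.KC (ex ex_apply ex_mem HolGroup QQ pr pr_surj continuous_pr pr_eq_iff pr_smul
  atlas_target atlas_symm chart_mem pr_chart chart_injOn deck deck_symm chart_self_mem
  pr_chart_self local_pr')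

variable {U : Opens C2} {Γ : Subgroup (Equiv.Perm U)} [hΓ : HolGroup Γ]

/-- the quotient surface -/
noncomputable def surf (Γ : Subgroup (Equiv.Perm U)) [HolGroup Γ] (hc : CompactSpace (QQ Γ))
    (hn : ConnectedSpace (QQ Γ)) : CompactSurface where
  pt := QQ Γ
  top := inferInstance
  t2 := inferInstance
  second := by
    have := hc
    exact ChartedSpace.secondCountable_of_sigmaCompact C2 (QQ Γ)
  compact := hc
  connected := hn
  charts := inferInstance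
  holo := inferInstance

variable (hc : CompactSpace (QQ Γ)) (hn : ConnectedSpace (QQ Γ))

/-- invariance of a function -/
def InvFun (Γ : Subgroup (Equiv.Perm U)) (F : C2 → ℝ) : Prop :=
  ∀ γ ∈ Γ, ∀ p ∈ U, F (ex γ p) = F p

/-- the function on the quotient -/
noncomputable def down (F : C2 → ℝ) (q : QQ Γ) : ℝ := F (chartAt C2 q q)

theorem down_read {F : C2 → ℝ} (hF : InvFun Γ F) (q : QQ Γ) :
    (surf Γ hc hn).read (down F) q =ᶠ[𝓝 (chartAt C2 q q)] F := by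
  have h1 : (chartAt C2 q).target ∈ 𝓝 (chartAt C2 q q) :=
    (chartAt C2 q).open_target.mem_nhds ((chartAt C2 q).map_source (mem_chart_source C2 q))
  filter_upwards [h1] with y hy
  change F (chartAt C2 ((chartAt C2 q).symm y) ((chartAt C2 q).symm y)) = F y
  obtain ⟨γ, hγ, h2, -⟩ := deck_symm (chart_mem_atlas C2 q)
    (chart_mem_atlas C2 ((chartAt C2 q).symm y)) hy (mem_chart_source C2 _)
  rw [← h2]
  exact hF γ hγ y (atlas_target (chart_mem_atlas C2 q) hy)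

theorem down_smooth {F : C2 → ℝ} (hF : InvFun Γ F) (hs : ∀ p ∈ U, ContDiffAt ℝ ∞ F p)
    (q : QQ Γ) : (surf Γ hc hn).SmoothAt (down F) q :=
  (hs _ (chart_self_mem q)).congr_of_eventuallyEq (down_read hc hn hF q)

theorem down_ddc {F : C2 → ℝ} (hF : InvFun Γ F) (q : QQ Γ) (v : C2) :
    (surf Γ hc hn).ddc (down F) q v = leviForm F (chartAt C2 q q) v :=
  leviForm_congr (down_read hc hn hF q) v

/-- an invariant form on `U` that has local potentials -/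
structure InvForm (Γ : Subgroup (Equiv.Perm U)) (θ : C2 → C2 → ℝ) : Prop where
  inv : ∀ γ ∈ Γ, ∀ p ∈ U, ∀ v, θ (ex γ p) (fderiv ℂ (ex γ) p v) = θ p v
  pot : ∀ p₀ ∈ U, ∃ φ : C2 → ℝ, ∀ᶠ p in 𝓝 p₀, ContDiffAt ℝ ∞ φ p ∧ ∀ v, θ p v = leviForm φ p v

/-- the form on the quotient -/
noncomputable def downForm (θ : C2 → C2 → ℝ) (q : QQ Γ) (v : C2) : ℝ := θ (chartAt C2 q q) v

/-- a potential near `p₀`, as a function on the quotient -/
theorem isPotential_chart {θ : C2 → C2 → ℝ}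
    (hinv : ∀ γ ∈ Γ, ∀ p ∈ U, ∀ v, θ (ex γ p) (fderiv ℂ (ex γ) p v) = θ p v) (q₀ : QQ Γ)
    {φ : C2 → ℝ} {V : Set C2}
    (hφ : ∀ p ∈ V, ContDiffAt ℝ ∞ φ p ∧ ∀ v, θ p v = leviForm φ p v) :
    (surf Γ hc hn).IsPotential (fun q : QQ Γ => φ (chartAt C2 q₀ q)) (downForm θ)
      ((chartAt C2 q₀).source ∩ chartAt C2 q₀ ⁻¹' V) := by
  intro q hq
  change QQ Γ at q
  obtain ⟨γ, hγ, h1, h2⟩ := deck_symm (chart_mem_atlas C2 q) (chart_mem_atlas C2 q₀)
    ((chartAt C2 q).map_source (mem_chart_source C2 q))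
    (by rw [(chartAt C2 q).left_inv (mem_chart_source C2 q)]; exact hq.1)
  rw [(chartAt C2 q).left_inv (mem_chart_source C2 q)] at h1
  have hqV : chartAt C2 q₀ q ∈ V := hq.2
  obtain ⟨hs, hl⟩ := hφ _ hqV
  have hread : (surf Γ hc hn).read (fun q : QQ Γ => φ (chartAt C2 q₀ q)) q
      =ᶠ[𝓝 (chartAt C2 q q)] φ ∘ ex γ := by
    filter_upwards [h2] with z hz
    change φ (chartAt C2 q₀ ((chartAt C2 q).symm z)) = φ (ex γ z)
    rw [hz]
  have hex : ContDiffAt ℂ ω (ex (γ : U → U)) (chartAt C2 q q) :=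
    (hΓ.hol γ hγ).contDiffAt (U.isOpen.mem_nhds (chart_self_mem q))
  rw [← h1] at hs hl
  constructor
  · refine ContDiffAt.congr_of_eventuallyEq ?_ hread
    exact hs.comp _ ((hex.restrict_scalars ℝ).of_le (by simp))
  · intro v
    have h3 : (surf Γ hc hn).ddc (fun q : QQ Γ => φ (chartAt C2 q₀ q)) q v =
        leviForm (φ ∘ ex γ) (chartAt C2 q q) v := leviForm_congr hread v
    rw [h3, leviForm_comp hex hs, ← hl]
    exact (hinv γ hγ _ (chart_self_mem q) v).symm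

theorem downForm_closed {θ : C2 → C2 → ℝ} (hθ : InvForm Γ θ) :
    (surf Γ hc hn).IsClosedForm (downForm θ) := by
  intro q₀
  change QQ Γ at q₀
  obtain ⟨φ, hφ⟩ := hθ.pot _ (chart_self_mem q₀)
  obtain ⟨V, hV, hVo, hqV⟩ := eventually_nhds_iff.1 hφ
  refine ⟨(chartAt C2 q₀).source ∩ chartAt C2 q₀ ⁻¹' V,
    (chartAt C2 q₀).isOpen_inter_preimage hVo, ⟨mem_chart_source C2 q₀, hqV⟩,
    fun q : QQ Γ => φ (chartAt C2 q₀ q), isPotential_chart hc hn hθ.inv q₀ hV⟩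

open Classical in
/-- the lift of a function on the quotient -/
noncomputable def up (f : QQ Γ → ℝ) (p : C2) : ℝ := if h : p ∈ U then f (pr Γ ⟨p, h⟩) else 0

omit hΓ in
theorem up_apply (f : QQ Γ → ℝ) {p : C2} (h : p ∈ U) : up f p = f (pr Γ ⟨p, h⟩) := dif_pos h

omit hΓ in
theorem up_inv (f : QQ Γ → ℝ) : InvFun Γ (up f) := by
  intro γ hγ p hp
  rw [up_apply f hp, up_apply f (ex_mem _ hp)]
  congr 1
  have h1 : (⟨ex γ p, ex_mem _ hp⟩ : U) = γ ⟨p, hp⟩ := Subtype.ext (ex_apply (γ : U → U) ⟨p, hp⟩)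
  rw [h1, pr_smul hγ]

theorem read_up (f : QQ Γ → ℝ) (q : QQ Γ) :
    (surf Γ hc hn).read f q =ᶠ[𝓝 (chartAt C2 q q)] up f := by
  have h1 : (chartAt C2 q).target ∈ 𝓝 (chartAt C2 q q) :=
    (chartAt C2 q).open_target.mem_nhds ((chartAt C2 q).map_source (mem_chart_source C2 q))
  filter_upwards [h1] with y hy
  rw [up_apply f (atlas_target (chart_mem_atlas C2 q) hy),
    ← atlas_symm (chart_mem_atlas C2 q) hy]
  rfl

omit hΓ in
/-- near a point of `U` the invariant function is the function in a chart, after a deck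
transformation -/
theorem inv_near {F : C2 → ℝ} (hF : InvFun Γ F) {γ : Equiv.Perm U} (hγ : γ ∈ Γ) {p : C2}
    (hp : p ∈ U) : F =ᶠ[𝓝 p] F ∘ ex γ := by
  filter_upwards [U.isOpen.mem_nhds hp] with z hz
  exact (hF γ hγ z hz).symm

theorem exists_deck {p : C2} (hp : p ∈ U) : ∃ γ ∈ Γ,
    ex γ p = chartAt C2 (pr Γ ⟨p, hp⟩) (pr Γ ⟨p, hp⟩) := by
  obtain ⟨γ, hγ, h1, -⟩ := local_pr' (chart_mem_atlas C2 (pr Γ ⟨p, hp⟩)) ⟨p, hp⟩
    (mem_chart_source C2 _)
  exact ⟨γ, hγ, h1⟩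

theorem up_smooth {f : QQ Γ → ℝ} (hf : ∀ q, (surf Γ hc hn).SmoothAt f q) {p : C2} (hp : p ∈ U) :
    ContDiffAt ℝ ∞ (up f) p := by
  obtain ⟨γ, hγ, h1⟩ := exists_deck (Γ := Γ) hp
  have h2 : ContDiffAt ℝ ∞ (up f) (ex γ p) := by
    rw [h1]
    exact (hf (pr Γ ⟨p, hp⟩)).congr_of_eventuallyEq (read_up hc hn f _).symm
  have hex : ContDiffAt ℂ ω (ex (γ : U → U)) p := (hΓ.hol γ hγ).contDiffAt (U.isOpen.mem_nhds hp)
  exact (h2.comp p ((hex.restrict_scalars ℝ).of_le (by simp))).congr_of_eventuallyEq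
    (inv_near (up_inv f) hγ hp)

/-- inequalities between forms lift -/
theorem lift_ineq {θ : C2 → C2 → ℝ}
    (hinv : ∀ γ ∈ Γ, ∀ p ∈ U, ∀ v, θ (ex γ p) (fderiv ℂ (ex γ) p v) = θ p v) {f : QQ Γ → ℝ}
    (hf : ∀ q, (surf Γ hc hn).SmoothAt f q)
    (h : ∀ q v, 0 ≤ downForm θ q v + (surf Γ hc hn).ddc f q v) {p : C2} (hp : p ∈ U) (v : C2) :
    0 ≤ θ p v + leviForm (up f) p v := by
  obtain ⟨γ, hγ, h1⟩ := exists_deck (Γ := Γ) hp
  have hex : ContDiffAt ℂ ω (ex (γ : U → U)) p := (hΓ.hol γ hγ).contDiffAt (U.isOpen.mem_nhds hp)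
  have h2 := h (pr Γ ⟨p, hp⟩) (fderiv ℂ (ex γ) p v)
  have h3 : (surf Γ hc hn).ddc f (pr Γ ⟨p, hp⟩) (fderiv ℂ (ex γ) p v) =
      leviForm (up f) (ex γ p) (fderiv ℂ (ex γ) p v) := by
    rw [h1]
    exact leviForm_congr (read_up hc hn f _) _
  have h4 : downForm θ (pr Γ ⟨p, hp⟩) (fderiv ℂ (ex γ) p v) = θ p v := by
    unfold downForm
    rw [← h1]
    exact hinv γ hγ p hp v
  rw [h3, h4, ← leviForm_comp hex (up_smooth hc hn hf (ex_mem _ hp)),
    ← leviForm_congr (inv_near (up_inv f) hγ hp)] at h2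
  exact h2

end Pool.Agent.TH613.NB
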