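import Mathlib

/-!
# The regularised logarithm
-/

set_option autoImplicit false

open scoped ContDiff Topology
open Set Filter MeasureTheory

namespace Pool.Agent.TH613.NB

/-- a smooth step: `0` for `t ≤ 1/2` and `1` for `t ≥ 1` -/
noncomputable def et (t : ℝ) : ℝ := Real.smoothTransition (2 * t - 1)

theorem et_zero {t : ℝ} (h : t ≤ 1 / 2) : et t = 0 :=
  Real.smoothTransition.zero_of_nonpos (by linarith)

theorem et_one {t : ℝ} (h : 1 ≤ t) : et t = 1 :=
  Real.smoothTransition.one_of_one_le (by linarith)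

theorem et_nonneg (t : ℝ) : 0 ≤ et t := Real.smoothTransition.nonneg _
theorem et_le_one (t : ℝ) : et t ≤ 1 := Real.smoothTransition.le_one _

theorem et_contDiff : ContDiff ℝ ∞ et :=
  Real.smoothTransition.contDiff.comp ((contDiff_const.mul contDiff_id).sub contDiff_const)

theorem et_mono : Monotone et := by
  intro a b hab
  exact Real.smoothTransition.monotone (by linarith)

/-- `k(t) = 1 + (1 - t) η(t) / t` -/
noncomputable def kk (t : ℝ) : ℝ := 1 + (1 - t) * et t / t

theorem kk_small {t : ℝ} (h : t ≤ 1 / 2) : kk t = 1 := by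
  unfold kk
  rw [et_zero h]
  simp

theorem kk_big {t : ℝ} (h : 1 ≤ t) : kk t = t⁻¹ := by
  unfold kk
  rw [et_one h]
  have : t ≠ 0 := by positivity
  field_simp
  ring

theorem kk_contDiffAt (t : ℝ) : ContDiffAt ℝ ∞ kk t := by
  rcases lt_or_ge t (1 / 2) with h | h
  · have : kk =ᶠ[𝓝 t] fun _ => 1 := by
      filter_upwards [gt_mem_nhds h] with s hs using kk_small hs.le
    exact contDiffAt_const.congr_of_eventuallyEq this
  · unfold kk
    refine contDiffAt_const.add (ContDiffAt.div ?_ contDiffAt_id ?_)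
    · exact (contDiffAt_const.sub contDiffAt_id).mul et_contDiff.contDiffAt
    · exact (show (0 : ℝ) < t by linarith).ne'

theorem kk_contDiff : ContDiff ℝ ∞ kk := contDiff_iff_contDiffAt.2 kk_contDiffAt

theorem kk_mul (t : ℝ) : t * kk t = t + (1 - t) * et t := by
  rcases eq_or_ne t 0 with rfl | h
  · rw [et_zero (by norm_num)]; simp
  · unfold kk
    field_simp

theorem kk_pos {t : ℝ} (h : 0 ≤ t) : 0 < kk t := by
  rcases h.eq_or_lt with rfl | h'
  · rw [kk_small (by norm_num)]; norm_num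
  · rcases le_or_gt 1 t with h1 | h1
    · rw [kk_big h1]; positivity
    · unfold kk
      have := et_nonneg t
      have : 0 ≤ (1 - t) * et t / t := by
        apply div_nonneg (mul_nonneg (by linarith) this) h
      linarith

/-- `k + t k' ≥ 0` -/
theorem kk_deriv_nonneg (t : ℝ) : 0 ≤ kk t + t * deriv kk t := by
  have hk : DifferentiableAt ℝ kk t := (kk_contDiffAt t).differentiableAt (by simp)
  have h1 : HasDerivAt (fun s => s * kk s) (1 * kk t + t * deriv kk t) t :=
    (hasDerivAt_id t).mul hk.hasDerivAt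
  rw [one_mul] at h1
  have he : (fun s => s * kk s) = fun s => s + (1 - s) * et s := funext kk_mul
  rcases le_or_gt t 1 with ht | ht
  · have hE : DifferentiableAt ℝ et t := (et_contDiff.differentiable (by simp)) t
    have h2 : HasDerivAt (fun s => s + (1 - s) * et s)
        (1 + ((-1) * et t + (1 - t) * deriv et t)) t :=
      (hasDerivAt_id t).add (((hasDerivAt_id t).const_sub 1).mul hE.hasDerivAt)
    rw [he] at h1
    rw [h1.unique h2]
    have h3 : 0 ≤ deriv et t := et_mono.deriv_nonneg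
    have h4 := et_le_one t
    have h5 : 0 ≤ (1 - t) * deriv et t := mul_nonneg (by linarith) h3
    linarith
  · have h2 : (fun s => s * kk s) =ᶠ[𝓝 t] fun _ => 1 := by
      filter_upwards [lt_mem_nhds ht] with s hs
      rw [kk_big hs.le]
      exact mul_inv_cancel₀ (by linarith)
    have h3 : HasDerivAt (fun s => s * kk s) 0 t := (hasDerivAt_const t (1 : ℝ)).congr_of_eventuallyEq h2
    rw [h1.unique h3]

theorem kk_small_deriv {t : ℝ} (h : t < 1 / 2) : deriv kk t = 0 := by
  have : kk =ᶠ[𝓝 t] fun _ => 1 := by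
    filter_upwards [gt_mem_nhds h] with s hs using kk_small hs.le
  rw [this.deriv_eq, deriv_const]

/-- the primitive -/
noncomputable def LL (t : ℝ) : ℝ := ∫ x in (1 : ℝ)..t, kk x

theorem hasDerivAt_LL (t : ℝ) : HasDerivAt LL (kk t) t :=
  intervalIntegral.integral_hasDerivAt_right (kk_contDiff.continuous.intervalIntegrable _ _)
    kk_contDiff.continuous.stronglyMeasurable.stronglyMeasurableAtFilter
    kk_contDiff.continuous.continuousAt

theorem deriv_LL : deriv LL = kk := funext fun t => (hasDerivAt_LL t).deriv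

theorem LL_contDiff : ContDiff ℝ ∞ LL := by
  rw [contDiff_infty_iff_deriv]
  refine ⟨fun t => (hasDerivAt_LL t).differentiableAt, ?_⟩
  rw [deriv_LL]
  exact kk_contDiff

theorem LL_big {t : ℝ} (h : 1 ≤ t) : LL t = Real.log t := by
  unfold LL
  have : ∫ x in (1 : ℝ)..t, kk x = ∫ x in (1 : ℝ)..t, x⁻¹ := by
    apply intervalIntegral.integral_congr
    intro x hx
    rw [uIcc_of_le h] at hx
    exact kk_big hx.1
  rw [this, integral_inv_of_pos one_pos (by linarith), div_one]

/-- the regularised logarithm, equal to `log` on `[δ, ∞)` -/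
noncomputable def SS (δ s : ℝ) : ℝ := LL (s / δ) + Real.log δ

theorem SS_contDiff (δ : ℝ) : ContDiff ℝ ∞ (SS δ) :=
  (LL_contDiff.comp (contDiff_id.div_const δ)).add contDiff_const

theorem SS_big {δ s : ℝ} (hδ : 0 < δ) (h : δ ≤ s) : SS δ s = Real.log s := by
  unfold SS
  have h1 : 1 ≤ s / δ := (one_le_div hδ).2 h
  rw [LL_big h1, Real.log_div (by linarith) hδ.ne']
  ring

theorem hasDerivAt_SS (δ s : ℝ) : HasDerivAt (SS δ) (kk (s / δ) / δ) s := by
  have h1 : HasDerivAt (fun s : ℝ => s / δ) (1 / δ) s := (hasDerivAt_id s).div_const δ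
  have h2 := (hasDerivAt_LL (s / δ)).comp s h1
  have h3 := h2.add_const (Real.log δ)
  have h4 : kk (s / δ) * (1 / δ) = kk (s / δ) / δ := by ring
  rw [h4] at h3
  exact h3

theorem deriv_SS (δ : ℝ) : deriv (SS δ) = fun s => kk (s / δ) / δ :=
  funext fun s => (hasDerivAt_SS δ s).deriv

theorem deriv2_SS (δ s : ℝ) : deriv (deriv (SS δ)) s = deriv kk (s / δ) / δ / δ := by
  rw [deriv_SS]
  have h1 : HasDerivAt (fun s : ℝ => s / δ) (1 / δ) s := (hasDerivAt_id s).div_const δ
  have hk : DifferentiableAt ℝ kk (s / δ) := (kk_contDiffAt _).differentiableAt (by simp)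
  have h2 := ((hk.hasDerivAt).comp s h1).div_const δ
  have h3 : deriv (fun s => kk (s / δ) / δ) s = deriv kk (s / δ) * (1 / δ) / δ := h2.deriv
  rw [h3]
  ring

/-- `u' = S' + σ S''` -/
theorem SS_u' {δ : ℝ} (hδ : 0 < δ) (s : ℝ) :
    deriv (SS δ) s + s * deriv (deriv (SS δ)) s =
      (kk (s / δ) + s / δ * deriv kk (s / δ)) / δ := by
  rw [deriv2_SS, deriv_SS]
  field_simp

theorem SS_u'_nonneg {δ : ℝ} (hδ : 0 < δ) (s : ℝ) :
    0 ≤ deriv (SS δ) s + s * deriv (deriv (SS δ)) s := by
  rw [SS_u' hδ]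
  exact div_nonneg (kk_deriv_nonneg _) hδ.le

theorem SS_u'_small {δ : ℝ} (hδ : 0 < δ) {s : ℝ} (h : s / δ < 1 / 2) :
    deriv (SS δ) s + s * deriv (deriv (SS δ)) s = 1 / δ := by
  rw [SS_u' hδ, kk_small h.le, kk_small_deriv h]
  ring

theorem SS_u {δ : ℝ} (s : ℝ) : s * deriv (SS δ) s = s / δ * kk (s / δ) := by
  rw [deriv_SS]
  ring

theorem SS_u_nonneg {δ : ℝ} (hδ : 0 < δ) {s : ℝ} (hs : 0 ≤ s) : 0 ≤ s * deriv (SS δ) s := by
  rw [SS_u]
  have h1 : 0 ≤ s / δ := by positivity
  exact mul_nonneg h1 (kk_pos h1).le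

/-- `u ≥ 1/2` for `s ≥ δ/2` -/
theorem SS_u_ge {δ : ℝ} (hδ : 0 < δ) {s : ℝ} (h : 1 / 2 ≤ s / δ) :
    1 / 2 ≤ s * deriv (SS δ) s := by
  rw [SS_u, kk_mul]
  set t := s / δ with ht
  rcases le_or_gt t 1 with h1 | h1
  · have := et_nonneg t
    have : 0 ≤ (1 - t) * et t := mul_nonneg (by linarith) this
    linarith
  · rw [et_one h1.le]
    linarith

end Pool.Agent.TH613.NB
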