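import Pool.Agent.TH613.NB.Sig2
import Pool.Agent.TH613.NB.Step

/-!
# The class of the diagonal: forms and local potentials
-/

set_option autoImplicit false

open scoped Manifold ContDiff Topology MatrixGroups UpperHalfPlane ComplexConjugate
open Set Filter TopologicalSpace

namespace Pool.Agent.TH613.NB

open Pool.Agent.W711.KC (ex ex_apply ex_mem HolGroup jj nn jj_ne im_mob jj_mul nn_mul det_eq CG
  CG_far NN_pos)
open Pool.Agent.H85R3

theorem mm_smoothR (a b : SL(2, ℝ)) {p : C2} (hp : p ∈ U2) : ContDiffAt ℝ ∞ (mm a b) p :=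
  ((contDiffAt_mm a b hp).restrict_scalars ℝ).of_le (by simp)

/-- the length of a vector, as a function -/
noncomputable def n1 (p v : C2) : ℝ := (v.1.re ^ 2 + v.1.im ^ 2) / p.1.im ^ 2
noncomputable def n2 (p v : C2) : ℝ := (v.2.re ^ 2 + v.2.im ^ 2) / p.2.im ^ 2

theorem NN_eq (p v : C2) : NN p v = n1 p v + n2 p v := rfl

theorem n1_nonneg (p v : C2) : 0 ≤ n1 p v := by unfold n1; positivity
theorem n2_nonneg (p v : C2) : 0 ≤ n2 p v := by unfold n2; positivity

theorem n1_mm (a b : SL(2, ℝ)) {p : C2} (hp : p ∈ U2) (v : C2) :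
    n1 (mm a b p) (fderiv ℂ (mm a b) p v) = n1 p v := by
  rw [fderiv_mm a b hp]
  have hj := jj_ne a hp.1
  have hn : Complex.normSq (jj a p.1) ≠ 0 := (Complex.normSq_pos.2 hj).ne'
  have hy : p.1.im ≠ 0 := hp.1.ne'
  unfold n1 mm
  have h1 : ∀ c : ℂ, c.re ^ 2 + c.im ^ 2 = Complex.normSq c := by
    intro c; rw [Complex.normSq_apply]; ring
  simp only [h1, im_mb a hp.1]
  rw [Complex.normSq_div, map_pow]
  field_simp

theorem n2_mm (a b : SL(2, ℝ)) {p : C2} (hp : p ∈ U2) (v : C2) :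
    n2 (mm a b p) (fderiv ℂ (mm a b) p v) = n2 p v := by
  rw [fderiv_mm a b hp]
  have hj := jj_ne b hp.2
  have hn : Complex.normSq (jj b p.2) ≠ 0 := (Complex.normSq_pos.2 hj).ne'
  have hy : p.2.im ≠ 0 := hp.2.ne'
  unfold n2 mm
  have h1 : ∀ c : ℂ, c.re ^ 2 + c.im ^ 2 = Complex.normSq c := by
    intro c; rw [Complex.normSq_apply]; ring
  simp only [h1, im_mb b hp.2]
  rw [Complex.normSq_div, map_pow]
  field_simp

theorem NN_mm (a b : SL(2, ℝ)) {p : C2} (hp : p ∈ U2) (v : C2) :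
    NN (mm a b p) (fderiv ℂ (mm a b) p v) = NN p v := by
  rw [NN_eq, NN_eq, n1_mm a b hp, n2_mm a b hp]

/-- the Levi form of `S(σ(z, γw))` -/
theorem leviForm_sgg {S : ℝ → ℝ} (g : SL(2, ℝ)) {p : C2} (hp : p ∈ U2)
    (hS : ContDiffAt ℝ ∞ S (sgg g p)) (v : C2) :
    leviForm (fun q => S (sgg g q)) p v =
      ((1 + sgg g p) * (deriv S (sgg g p) + sgg g p * deriv (deriv S) (sgg g p)) +
        sgg g p * deriv S (sgg g p)) * NN p v -
      (deriv S (sgg g p) + sgg g p * deriv (deriv S) (sgg g p)) *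
        EE (mm 1 g p) (fderiv ℂ (mm 1 g) p v) := by
  have hp' := mm_mem 1 g hp
  rw [sgg_eq] at hS ⊢
  have h1 : (fun q => S (sgg g q)) = (fun q => S (sg q)) ∘ mm 1 g := by
    funext q
    simp only [Function.comp, sgg_eq]
  have h2 : ContDiffAt ℝ ∞ (fun q => S (sg q)) (mm 1 g p) := hS.comp _ (contDiffAt_sg hp')
  rw [h1, leviForm_comp (contDiffAt_mm 1 g hp) h2,
    leviForm_comp_sg hp' hS rfl rfl, NN_mm 1 g hp]

theorem leviForm_log_sgg (g : SL(2, ℝ)) {p : C2} (hp : p ∈ U2) (h0 : 0 < sgg g p) (v : C2) :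
    leviForm (fun q => Real.log (sgg g q)) p v = NN p v := by
  rw [leviForm_sgg g hp (Real.contDiffAt_log.2 h0.ne') v, Real.deriv_log', deriv_inv']
  have h1 : (sgg g p)⁻¹ + sgg g p * -(sgg g p ^ 2)⁻¹ = 0 := by
    have := h0.ne'
    field_simp
    ring
  rw [h1, mul_zero, zero_mul, zero_add, mul_inv_cancel₀ h0.ne']
  ring

/-! ### the form attached to a regularised logarithm -/

open Classical in
/-- `i∂∂̄ S(σ(z, γw))` if `γ` is active, the product metric otherwise -/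
noncomputable def kap (S : ℝ → ℝ) (p v : C2) : ℝ :=
  if h : ∃ g ∈ CG, sgg g p < 1 / 16 then leviForm (fun q => S (sgg h.choose q)) p v else NN p v

open Classical in
/-- `T(σ(z, γw))` if `γ` is active, zero otherwise -/
noncomputable def ff (T : ℝ → ℝ) (p : C2) : ℝ :=
  if h : ∃ g ∈ CG, sgg g p < 1 / 16 then T (sgg h.choose p) else 0

theorem kap_active (S : ℝ → ℝ) {g : SL(2, ℝ)} (hg : g ∈ CG) {p : C2} (hp : p ∈ U2)
    (h : sgg g p < 1 / 16) (v : C2) : kap S p v = leviForm (fun q => S (sgg g q)) p v := by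
  have hex : ∃ g ∈ CG, sgg g p < 1 / 16 := ⟨g, hg, h⟩
  have h1 : hex.choose = g := active_unique hex.choose_spec.1 hg hp hex.choose_spec.2 h
  unfold kap
  rw [dif_pos hex, h1]

theorem ff_active (T : ℝ → ℝ) {g : SL(2, ℝ)} (hg : g ∈ CG) {p : C2} (hp : p ∈ U2)
    (h : sgg g p < 1 / 16) : ff T p = T (sgg g p) := by
  have hex : ∃ g ∈ CG, sgg g p < 1 / 16 := ⟨g, hg, h⟩
  have h1 : hex.choose = g := active_unique hex.choose_spec.1 hg hp hex.choose_spec.2 h
  unfold ff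
  rw [dif_pos hex, h1]

theorem kap_far {S : ℝ → ℝ} (hS : ∀ s, 1 / 64 ≤ s → S s = Real.log s) {p : C2} (hp : p ∈ U2)
    (h : ∀ g ∈ CG, 1 / 64 < sgg g p) (v : C2) : kap S p v = NN p v := by
  by_cases hex : ∃ g ∈ CG, sgg g p < 1 / 16
  · obtain ⟨g, hg, hlt⟩ := hex
    rw [kap_active S hg hp hlt, ← leviForm_log_sgg g hp (by linarith [h g hg]) v]
    apply leviForm_congr
    filter_upwards [(contDiffAt_sgg g hp).continuousAt.eventually (lt_mem_nhds (h g hg))] with q hq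
    exact hS _ hq.le
  · unfold kap
    rw [dif_neg hex]

theorem ff_far {T : ℝ → ℝ} (hT : ∀ s, 1 / 64 ≤ s → T s = 0) {p : C2} (hp : p ∈ U2)
    (h : ∀ g ∈ CG, 1 / 64 < sgg g p) : ff T p = 0 := by
  by_cases hex : ∃ g ∈ CG, sgg g p < 1 / 16
  · obtain ⟨g, hg, hlt⟩ := hex
    rw [ff_active T hg hp hlt]
    exact hT _ (h g hg).le
  · unfold ff
    rw [dif_neg hex]

theorem ff_active_near (T : ℝ → ℝ) {g : SL(2, ℝ)} (hg : g ∈ CG) {p : C2} (hp : p ∈ U2)
    (h : sgg g p < 1 / 16) : ff T =ᶠ[𝓝 p] fun q => T (sgg g q) := by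
  filter_upwards [(contDiffAt_sgg g hp).continuousAt.eventually (gt_mem_nhds h),
    U2.isOpen.mem_nhds hp] with q hq hqU
  exact ff_active T hg hqU hq

theorem ff_far_near {T : ℝ → ℝ} (hT : ∀ s, 1 / 64 ≤ s → T s = 0) {p : C2} (hp : p ∈ U2)
    (h : ∀ᶠ q in 𝓝 p, ∀ g ∈ CG, 1 / 64 < sgg g q) : ff T =ᶠ[𝓝 p] fun _ => 0 := by
  filter_upwards [h, U2.isOpen.mem_nhds hp] with q hq hqU
  exact ff_far hT hqU hq

theorem ff_inv {T : ℝ → ℝ} : InvFun G2 (ff T) := by
  rintro _ ⟨a, ha, b, hb, rfl⟩ p hp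
  rw [ex_mmP a b hp]
  by_cases hex : ∃ g ∈ CG, sgg g p < 1 / 16
  · obtain ⟨g, hg, hlt⟩ := hex
    have hg' : a * g * b⁻¹ ∈ CG := mul_mem (mul_mem ha hg) (inv_mem hb)
    have h1 : sgg (a * g * b⁻¹) (mm a b p) = sgg g p := by
      rw [sgg_mm _ a b hp]
      congr 1
      group
    rw [ff_active T hg hp hlt, ff_active T hg' (mm_mem a b hp) (by rw [h1]; exact hlt), h1]
  · have hex' : ¬ ∃ g ∈ CG, sgg g (mm a b p) < 1 / 16 := by
      rintro ⟨g, hg, hlt⟩
      rw [sgg_mm g a b hp] at hlt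
      exact hex ⟨_, mul_mem (mul_mem (inv_mem ha) hg) hb, hlt⟩
    unfold ff
    rw [dif_neg hex, dif_neg hex']

theorem ff_smooth {T : ℝ → ℝ} (hTs : ContDiff ℝ ∞ T) (hT : ∀ s, 1 / 64 ≤ s → T s = 0) :
    ∀ p ∈ U2, ContDiffAt ℝ ∞ (ff T) p := by
  intro p hp
  rcases active_or hp with ⟨g, hg, hlt⟩ | h
  · exact (hTs.contDiffAt.comp p (contDiffAt_sgg g hp)).congr_of_eventuallyEq
      (ff_active_near T hg hp hlt)
  · exact contDiffAt_const.congr_of_eventuallyEq (ff_far_near hT hp h)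

theorem ex_fderiv (a b : SL(2, ℝ)) {p : C2} (hp : p ∈ U2) (v : C2) :
    fderiv ℂ (ex (mmP a b : U2 → U2)) p v = fderiv ℂ (mm a b) p v := by
  rw [(ex_mmP_eventually a b hp).fderiv_eq]

theorem kap_inv {S : ℝ → ℝ} (hSs : ContDiff ℝ ∞ S) :
    ∀ γ ∈ G2, ∀ p ∈ U2, ∀ v, kap S (ex γ p) (fderiv ℂ (ex γ) p v) = kap S p v := by
  rintro _ ⟨a, ha, b, hb, rfl⟩ p hp v
  rw [ex_mmP a b hp, ex_fderiv a b hp]
  by_cases hex : ∃ g ∈ CG, sgg g p < 1 / 16
  · obtain ⟨g, hg, hlt⟩ := hex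
    have hg' : a * g * b⁻¹ ∈ CG := mul_mem (mul_mem ha hg) (inv_mem hb)
    have h1 : ∀ q ∈ U2, sgg (a * g * b⁻¹) (mm a b q) = sgg g q := by
      intro q hq
      rw [sgg_mm _ a b hq]
      congr 1
      group
    have h2 : ContDiffAt ℝ ∞ (fun q => S (sgg (a * g * b⁻¹) q)) (mm a b p) :=
      hSs.contDiffAt.comp _ (contDiffAt_sgg _ (mm_mem a b hp))
    rw [kap_active S hg hp hlt, kap_active S hg' (mm_mem a b hp) (by rw [h1 p hp]; exact hlt),
      ← leviForm_comp (contDiffAt_mm a b hp) h2]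
    apply leviForm_congr
    filter_upwards [U2.isOpen.mem_nhds hp] with q hq
    simp only [Function.comp, h1 q hq]
  · have hex' : ¬ ∃ g ∈ CG, sgg g (mm a b p) < 1 / 16 := by
      rintro ⟨g, hg, hlt⟩
      rw [sgg_mm g a b hp] at hlt
      exact hex ⟨_, mul_mem (mul_mem (inv_mem ha) hg) hb, hlt⟩
    unfold kap
    rw [dif_neg hex, dif_neg hex', NN_mm a b hp]

/-- the form of the class `[Δ] + (3/2) F₁ + (1/2) F₂` attached to `S` -/
noncomputable def tht (S : ℝ → ℝ) (p v : C2) : ℝ := 1 / 2 * n1 p v - 1 / 2 * n2 p v + kap S p v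

/-- the condition on the regularised logarithm -/
structure Reg (S : ℝ → ℝ) : Prop where
  smooth : ContDiff ℝ ∞ S
  far : ∀ s, 1 / 64 ≤ s → S s = Real.log s

theorem reg_SS {δ : ℝ} (h0 : 0 < δ) (h1 : δ ≤ 1 / 64) : Reg (SS δ) :=
  ⟨SS_contDiff δ, fun _ hs => SS_big h0 (h1.trans hs)⟩

/-- the potential near an active point -/
noncomputable def potA (S : ℝ → ℝ) (g : SL(2, ℝ)) (p : C2) : ℝ := lg (-1 / 2) (1 / 2) p + S (sgg g p)

theorem potA_pot {S : ℝ → ℝ} (hS : Reg S) {g : SL(2, ℝ)} (hg : g ∈ CG) :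
    ∀ p ∈ {p | p ∈ U2 ∧ sgg g p < 1 / 16},
      ContDiffAt ℝ ∞ (potA S g) p ∧ ∀ v, tht S p v = leviForm (potA S g) p v := by
  rintro p ⟨hp, hlt⟩
  have h1 : ContDiffAt ℝ ∞ (fun q => S (sgg g q)) p :=
    hS.smooth.contDiffAt.comp p (contDiffAt_sgg g hp)
  refine ⟨(contDiffAt_lg _ _ hp).add h1, fun v => ?_⟩
  unfold potA
  rw [leviForm_add (contDiffAt_lg _ _ hp) h1, leviForm_lg _ _ hp, ← kap_active S hg hp hlt]
  unfold tht n1 n2
  ring

theorem potF_pot {S : ℝ → ℝ} (hS : Reg S) :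
    ∀ p ∈ {p | p ∈ U2 ∧ ∀ g ∈ CG, 1 / 64 < sgg g p},
      ContDiffAt ℝ ∞ (lg (-3 / 2) (-1 / 2)) p ∧
        ∀ v, tht S p v = leviForm (lg (-3 / 2) (-1 / 2)) p v := by
  rintro p ⟨hp, hlt⟩
  refine ⟨contDiffAt_lg _ _ hp, fun v => ?_⟩
  rw [leviForm_lg _ _ hp]
  unfold tht
  rw [kap_far hS.far hp hlt, NN_eq]
  unfold n1 n2
  ring

theorem tht_inv {S : ℝ → ℝ} (hS : Reg S) :
    ∀ γ ∈ G2, ∀ p ∈ U2, ∀ v, tht S (ex γ p) (fderiv ℂ (ex γ) p v) = tht S p v := by
  intro γ hγ p hp v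
  have h1 := kap_inv hS.smooth γ hγ p hp v
  obtain ⟨a, ha, b, hb, rfl⟩ := hγ
  unfold tht
  rw [h1, ex_mmP a b hp, ex_fderiv a b hp, n1_mm a b hp, n2_mm a b hp]

theorem tht_form {S : ℝ → ℝ} (hS : Reg S) : InvForm G2 (tht S) where
  inv := tht_inv hS
  pot := by
    intro p hp
    rcases active_or hp with ⟨g, hg, hlt⟩ | h
    · refine ⟨potA S g, ?_⟩
      filter_upwards [(contDiffAt_sgg g hp).continuousAt.eventually (gt_mem_nhds hlt),
        U2.isOpen.mem_nhds hp] with q hq hqU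
      exact potA_pot hS hg q ⟨hqU, hq⟩
    · refine ⟨lg (-3 / 2) (-1 / 2), ?_⟩
      filter_upwards [h, U2.isOpen.mem_nhds hp] with q hq hqU
      exact potF_pot hS q ⟨hqU, hq⟩

theorem NN_inv : ∀ γ ∈ G2, ∀ p ∈ U2, ∀ v, NN (ex γ p) (fderiv ℂ (ex γ) p v) = NN p v := by
  rintro _ ⟨a, ha, b, hb, rfl⟩ p hp v
  rw [ex_mmP a b hp, ex_fderiv a b hp, NN_mm a b hp]

theorem NN_pot : ∀ p ∈ (U2 : Set C2), ContDiffAt ℝ ∞ (lg (-1) (-1)) p ∧
    ∀ v, NN p v = leviForm (lg (-1) (-1)) p v := by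
  intro p hp
  refine ⟨contDiffAt_lg _ _ hp, fun v => ?_⟩
  rw [leviForm_lg _ _ hp]
  unfold NN
  ring

theorem NN_form : InvForm G2 NN where
  inv := NN_inv
  pot := by
    intro p hp
    refine ⟨lg (-1) (-1), ?_⟩
    filter_upwards [U2.isOpen.mem_nhds hp] with q hq using NN_pot q hq

theorem NN_pos' {p : C2} (hp : p ∈ U2) {v : C2} (hv : v ≠ 0) : 0 < NN p v := by
  have h1 := hp.1
  have h2 := hp.2
  have hz : ∀ c : ℂ, c ≠ 0 → 0 < c.re ^ 2 + c.im ^ 2 := by
    intro c hc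
    have := Complex.normSq_pos.2 hc
    rw [Complex.normSq_apply] at this
    nlinarith
  rw [NN_eq]
  by_cases hv1 : v.1 = 0
  · have hv2 : v.2 ≠ 0 := fun h => hv (Prod.ext hv1 h)
    have h3 : 0 < n2 p v := by
      unfold n2
      have := hz _ hv2
      positivity
    have := n1_nonneg p v
    linarith
  · have h3 : 0 < n1 p v := by
      unfold n1
      have := hz _ hv1
      positivity
    have := n2_nonneg p v
    linarith

/-- adding `i∂∂̄` of the difference of two regularised logarithms -/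
theorem tht_add {S S' : ℝ → ℝ} (hS : Reg S) (hS' : Reg S') {p : C2} (hp : p ∈ U2) (v : C2) :
    tht S p v + leviForm (ff fun s => S' s - S s) p v = tht S' p v := by
  unfold tht
  have key : kap S p v + leviForm (ff fun s => S' s - S s) p v = kap S' p v := by
    rcases active_or hp with ⟨g, hg, hlt⟩ | h
    · have h1 : ContDiffAt ℝ ∞ (fun q => S (sgg g q)) p :=
        hS.smooth.contDiffAt.comp p (contDiffAt_sgg g hp)
      have h2 : ContDiffAt ℝ ∞ (fun q => S' (sgg g q) - S (sgg g q)) p :=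
        (hS'.smooth.sub hS.smooth).contDiffAt.comp p (contDiffAt_sgg g hp)
      rw [kap_active S hg hp hlt, kap_active S' hg hp hlt,
        leviForm_congr (ff_active_near _ hg hp hlt), ← leviForm_add h1 h2]
      congr 1
      funext q
      ring
    · have h1 : ∀ s, 1 / 64 ≤ s → (fun s => S' s - S s) s = 0 := by
        intro s hs
        simp only [hS.far s hs, hS'.far s hs, sub_self]
      rw [kap_far hS.far hp h.self_of_nhds, kap_far hS'.far hp h.self_of_nhds,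
        leviForm_congr (ff_far_near h1 hp h)]
      have h0 : leviForm (fun _ : C2 => (0 : ℝ)) p v = 0 := by
        unfold leviForm
        simp
      rw [h0, add_zero]
  linarith

/-- the lower bound -/
theorem tht_lower {δ ε : ℝ} (h0 : 0 < δ) (h1 : δ ≤ 1 / 64) (he : 0 < ε) (h2 : δ ≤ 8 * ε) {p : C2}
    (hp : p ∈ U2) (v : C2) : -ε * NN p v ≤ tht (SS δ) p v := by
  have hn1 := n1_nonneg p v
  have hn2 := n2_nonneg p v
  rcases active_or hp with ⟨g, hg, hlt⟩ | h
  · have hSr := reg_SS h0 h1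
    set p' := mm 1 g p with hp'
    set v' := fderiv ℂ (mm 1 g) p v with hv'
    set a := Real.sqrt (n1 p v) with ha
    set b := Real.sqrt (n2 p v) with hb
    have ha2 : a ^ 2 = n1 p v := Real.sq_sqrt hn1
    have hb2 : b ^ 2 = n2 p v := Real.sq_sqrt hn2
    have hE : |EE p' v'| ≤ 2 * (1 + sg p') * (a * b) := by
      apply EE_abs_le (mm_mem 1 g hp) v' (Real.sqrt_nonneg _) (Real.sqrt_nonneg _)
      · rw [ha2, ← n1_mm 1 g hp]; rfl
      · rw [hb2, ← n2_mm 1 g hp]; rfl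
    have hE2 := (abs_le.1 hE).2
    rw [← sgg_eq] at hE2
    have hs0 := sgg_nonneg g hp
    have hu' := SS_u'_nonneg h0 (sgg g p)
    have hu0 := SS_u_nonneg h0 hs0
    have hsm := SS_u'_small h0 (s := sgg g p)
    have hge := SS_u_ge h0 (s := sgg g p)
    have ha0 : 0 ≤ a := Real.sqrt_nonneg _
    have hb0 : 0 ≤ b := Real.sqrt_nonneg _
    unfold tht
    rw [kap_active _ hg hp hlt, leviForm_sgg g hp hSr.smooth.contDiffAt, NN_eq, ← ha2, ← hb2]
    rw [← hp', ← hv']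
    set s := sgg g p with hs
    set u' := deriv (SS δ) s + s * deriv (deriv (SS δ)) s with hu'd
    set u := s * deriv (SS δ) s with hud
    set m := (1 + s) * u' with hm
    have hm0 : 0 ≤ m := mul_nonneg (by linarith) hu'
    have hE3 : u' * EE p' v' ≤ 2 * m * (a * b) := by
      calc u' * EE p' v' ≤ u' * (2 * (1 + s) * (a * b)) := mul_le_mul_of_nonneg_left hE2 hu'
        _ = 2 * m * (a * b) := by rw [hm]; ring
    have goal2 : 0 ≤ (m + u + ε + 1 / 2) * a ^ 2 + (m + u + ε - 1 / 2) * b ^ 2 -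
        2 * m * (a * b) := by
      rcases le_or_gt (1 / 2) (s / δ) with hc | hc
      · have hu12 : 1 / 2 ≤ u := hge hc
        have e : (m + u + ε + 1 / 2) * a ^ 2 + (m + u + ε - 1 / 2) * b ^ 2 - 2 * m * (a * b) =
          m * (a - b) ^ 2 + (u + ε + 1 / 2) * a ^ 2 + (u + ε - 1 / 2) * b ^ 2 := by ring
        rw [e]
        have t1 : 0 ≤ m * (a - b) ^ 2 := mul_nonneg hm0 (sq_nonneg _)
        have t2 : 0 ≤ (u + ε + 1 / 2) * a ^ 2 := mul_nonneg (by linarith) (sq_nonneg _)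
        have t3 : 0 ≤ (u + ε - 1 / 2) * b ^ 2 := mul_nonneg (by linarith) (sq_nonneg _)
        linarith
      · have hu1 : u' = 1 / δ := hsm hc
        have hm1 : 1 / δ ≤ m := by
          rw [hm, hu1]
          have : 0 ≤ s * (1 / δ) := by positivity
          linarith
        have hδ64 : 64 ≤ 1 / δ := by
          rw [le_div_iff₀ h0]
          linarith
        have hmε : 1 / 8 ≤ m * ε := by
          have : 1 / 8 ≤ 1 / δ * ε := by
            rw [div_mul_eq_mul_div, one_mul, le_div_iff₀ h0]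
            linarith
          exact this.trans (mul_le_mul_of_nonneg_right hm1 he.le)
        set c := u + ε with hcd
        have hc0 : 0 < c := by linarith
        have hcε : ε ≤ c := by linarith
        have hA : 0 < m + c + 1 / 2 := by linarith
        have hB : 0 < m + c - 1 / 2 := by linarith
        have hdet : m ^ 2 ≤ (m + c + 1 / 2) * (m + c - 1 / 2) := by
          have : m * ε ≤ m * c := mul_le_mul_of_nonneg_left hcε hm0
          nlinarith
        have e : (m + c + 1 / 2) * ((m + c + 1 / 2) * a ^ 2 + (m + c - 1 / 2) * b ^ 2 -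
            2 * m * (a * b)) =
          ((m + c + 1 / 2) * a - m * b) ^ 2 +
            ((m + c + 1 / 2) * (m + c - 1 / 2) - m ^ 2) * b ^ 2 := by ring
        have hpos : 0 ≤ (m + c + 1 / 2) * ((m + c + 1 / 2) * a ^ 2 + (m + c - 1 / 2) * b ^ 2 -
            2 * m * (a * b)) := by
          rw [e]
          have : 0 ≤ ((m + c + 1 / 2) * (m + c - 1 / 2) - m ^ 2) * b ^ 2 :=
            mul_nonneg (by linarith) (sq_nonneg _)
          have := sq_nonneg ((m + c + 1 / 2) * a - m * b)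
          linarith
        have := nonneg_of_mul_nonneg_right hpos hA
        have e2 : m + u + ε + 1 / 2 = m + c + 1 / 2 := by rw [hcd]; ring
        have e3 : m + u + ε - 1 / 2 = m + c - 1 / 2 := by rw [hcd]; ring
        rw [e2, e3]
        exact this
    nlinarith [goal2, hE3]
  · unfold tht
    rw [kap_far (reg_SS h0 h1).far hp h.self_of_nhds, NN_eq]
    nlinarith

end Pool.Agent.TH613.NB
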