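import Pool.Agent.TH613.NB.Desc
import Pool.Agent.W711.KC.Grp

/-!
# The product of two copies of a closed hyperbolic surface
-/

set_option autoImplicit false

open scoped Manifold ContDiff Topology MatrixGroups UpperHalfPlane
open Set Filter TopologicalSpace

namespace Pool.Agent.TH613.NB

open Pool.Agent.W711.KC (ex ex_apply ex_mem HolGroup QQ pr pr_surj continuous_pr pr_eq_iff pr_smul
  compact_of_cover jj nn jj_ne im_mob jj_mul nn_mul det_eq CG CG_far NN_pos)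
open Pool.Agent.H85R3

/-- The product of two upper half planes. -/
def U2 : Opens C2 :=
  ⟨{p | 0 < p.1.im ∧ 0 < p.2.im},
    (isOpen_lt continuous_const (Complex.continuous_im.comp continuous_fst)).inter
      (isOpen_lt continuous_const (Complex.continuous_im.comp continuous_snd))⟩

theorem mem_U2 {p : C2} : p ∈ U2 ↔ 0 < p.1.im ∧ 0 < p.2.im := Iff.rfl

/-- the Möbius transformation -/
noncomputable def mb (g : SL(2, ℝ)) (t : ℂ) : ℂ := nn g t / jj g t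

theorem im_mb (g : SL(2, ℝ)) {t : ℂ} (ht : 0 < t.im) :
    (mb g t).im = t.im / Complex.normSq (jj g t) := im_mob g ht

theorem mb_im_pos (g : SL(2, ℝ)) {t : ℂ} (ht : 0 < t.im) : 0 < (mb g t).im := by
  rw [im_mb g ht]
  have : 0 < Complex.normSq (jj g t) := Complex.normSq_pos.2 (jj_ne g ht)
  positivity

theorem mb_mul (g g' : SL(2, ℝ)) {t : ℂ} (ht : 0 < t.im) :
    mb (g * g') t = mb g (mb g' t) := by
  have h1 := jj_ne g' ht
  have h2 := jj_ne g (mb_im_pos g' ht)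
  unfold mb at h2 ⊢
  rw [jj_mul g g' ht, nn_mul g g' ht]
  field_simp

theorem mb_one (t : ℂ) : mb 1 t = t := by
  unfold mb nn jj
  simp

theorem mb_inv_mb (g : SL(2, ℝ)) {t : ℂ} (ht : 0 < t.im) : mb g⁻¹ (mb g t) = t := by
  rw [← mb_mul _ _ ht, inv_mul_cancel, mb_one]

theorem mb_mb_inv (g : SL(2, ℝ)) {t : ℂ} (ht : 0 < t.im) : mb g (mb g⁻¹ t) = t := by
  rw [← mb_mul _ _ ht, mul_inv_cancel, mb_one]

/-- the coercion of the action on the upper half plane -/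
theorem coe_smul (g : SL(2, ℝ)) (z : ℍ) : ((g • z : ℍ) : ℂ) = mb g z := by
  rw [UpperHalfPlane.coe_specialLinearGroup_apply]
  rfl

theorem hasDerivAt_mb (g : SL(2, ℝ)) {t : ℂ} (ht : 0 < t.im) :
    HasDerivAt (mb g) (1 / jj g t ^ 2) t := by
  have hj := jj_ne g ht
  have h1 : HasDerivAt (nn g) (g 0 0 : ℂ) t := by
    have := ((hasDerivAt_id t).const_mul (g 0 0 : ℂ)).add_const (g 0 1 : ℂ)
    rw [mul_one] at this
    exact this
  have h2 : HasDerivAt (jj g) (g 1 0 : ℂ) t := by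
    have := ((hasDerivAt_id t).const_mul (g 1 0 : ℂ)).add_const (g 1 1 : ℂ)
    rw [mul_one] at this
    exact this
  have h3 := h1.div h2 hj
  have hd : (g 0 0 : ℂ) * g 1 1 - (g 0 1 : ℂ) * g 1 0 = 1 := by exact_mod_cast det_eq g
  have h4 : ((g 0 0 : ℂ) * jj g t - nn g t * (g 1 0 : ℂ)) / jj g t ^ 2 = 1 / jj g t ^ 2 := by
    congr 1
    unfold jj nn
    linear_combination hd
  rw [h4] at h3
  exact h3

theorem contDiffAt_mb (g : SL(2, ℝ)) {t : ℂ} (ht : 0 < t.im) : ContDiffAt ℂ ω (mb g) t := by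
  have hj := jj_ne g ht
  have hlin : ∀ a b : ℂ, ContDiffAt ℂ ω (fun p : ℂ => a * p + b) t := fun a b =>
    (contDiffAt_const.mul contDiffAt_id).add contDiffAt_const
  exact (hlin _ _).div (hlin _ _) hj

/-- the product map -/
noncomputable def mm (g g' : SL(2, ℝ)) (p : C2) : C2 := (mb g p.1, mb g' p.2)

theorem mm_mem (g g' : SL(2, ℝ)) {p : C2} (hp : p ∈ U2) : mm g g' p ∈ U2 :=
  ⟨mb_im_pos g hp.1, mb_im_pos g' hp.2⟩

/-- as a permutation -/
noncomputable def mmP (g g' : SL(2, ℝ)) : Equiv.Perm U2 where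
  toFun p := ⟨mm g g' p, mm_mem g g' p.2⟩
  invFun p := ⟨mm g⁻¹ g'⁻¹ p, mm_mem _ _ p.2⟩
  left_inv p := Subtype.ext (Prod.ext (mb_inv_mb g p.2.1) (mb_inv_mb g' p.2.2))
  right_inv p := Subtype.ext (Prod.ext (mb_mb_inv g p.2.1) (mb_mb_inv g' p.2.2))

theorem mmP_mul (g g' h h' : SL(2, ℝ)) : mmP g g' * mmP h h' = mmP (g * h) (g' * h') := by
  ext1 p
  exact Subtype.ext (Prod.ext (mb_mul g h p.2.1).symm (mb_mul g' h' p.2.2).symm)

theorem mmP_one : mmP 1 1 = 1 := by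
  ext1 p
  exact Subtype.ext (Prod.ext (mb_one _) (mb_one _))

theorem mmP_inv (g g' : SL(2, ℝ)) : (mmP g g')⁻¹ = mmP g⁻¹ g'⁻¹ := by
  rw [inv_eq_iff_mul_eq_one, mmP_mul, mul_inv_cancel, mul_inv_cancel, mmP_one]

/-- the product group -/
noncomputable def G2 : Subgroup (Equiv.Perm U2) where
  carrier := {σ | ∃ g ∈ CG, ∃ g' ∈ CG, σ = mmP g g'}
  one_mem' := ⟨1, one_mem _, 1, one_mem _, mmP_one.symm⟩
  mul_mem' := by
    rintro _ _ ⟨g, hg, g', hg', rfl⟩ ⟨h, hh, h', hh', rfl⟩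
    exact ⟨g * h, mul_mem hg hh, _, mul_mem hg' hh', mmP_mul _ _ _ _⟩
  inv_mem' := by
    rintro _ ⟨g, hg, g', hg', rfl⟩
    exact ⟨g⁻¹, inv_mem hg, g'⁻¹, inv_mem hg', mmP_inv _ _⟩

theorem mem_G2 {σ : Equiv.Perm U2} : σ ∈ G2 ↔ ∃ g ∈ CG, ∃ g' ∈ CG, σ = mmP g g' := Iff.rfl

theorem ex_mmP (g g' : SL(2, ℝ)) {p : C2} (hp : p ∈ U2) :
    ex (mmP g g' : U2 → U2) p = mm g g' p := ex_apply _ ⟨p, hp⟩

theorem ex_mmP_eventually (g g' : SL(2, ℝ)) {p : C2} (hp : p ∈ U2) :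
    ex (mmP g g' : U2 → U2) =ᶠ[𝓝 p] mm g g' := by
  filter_upwards [U2.isOpen.mem_nhds hp] with q hq using ex_mmP g g' hq

theorem contDiffAt_mm (g g' : SL(2, ℝ)) {p : C2} (hp : p ∈ U2) :
    ContDiffAt ℂ ω (mm g g') p :=
  ((contDiffAt_mb g hp.1).comp p contDiffAt_fst).prodMk
    ((contDiffAt_mb g' hp.2).comp p contDiffAt_snd)

theorem fderiv_mm (g g' : SL(2, ℝ)) {p : C2} (hp : p ∈ U2) (v : C2) :
    fderiv ℂ (mm g g') p v = (v.1 / jj g p.1 ^ 2, v.2 / jj g' p.2 ^ 2) := by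
  have h1 : HasFDerivAt (fun p : C2 => mb g p.1) _ p :=
    (hasDerivAt_mb g hp.1).hasFDerivAt.comp p hasFDerivAt_fst
  have h2 : HasFDerivAt (fun p : C2 => mb g' p.2) _ p :=
    (hasDerivAt_mb g' hp.2).hasFDerivAt.comp p hasFDerivAt_snd
  have h3 : fderiv ℂ (mm g g') p = _ := (h1.prodMk h2).fderiv
  rw [h3]
  refine Prod.ext ?_ ?_
  · simp [div_eq_mul_inv]
  · simp [div_eq_mul_inv]

theorem fderiv_ex_mmP (g g' : SL(2, ℝ)) {p : C2} (hp : p ∈ U2) (v : C2) :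
    fderiv ℂ (ex (mmP g g' : U2 → U2)) p v = (v.1 / jj g p.1 ^ 2, v.2 / jj g' p.2 ^ 2) := by
  rw [(ex_mmP_eventually g g' hp).fderiv_eq, fderiv_mm g g' hp]

/-- the two coordinates, in the upper half plane -/
def toH1 (p : U2) : ℍ := ⟨p.1.1, p.2.1⟩
def toH2 (p : U2) : ℍ := ⟨p.1.2, p.2.2⟩

theorem toH1_mmP (g g' : SL(2, ℝ)) (p : U2) : toH1 (mmP g g' p) = g • toH1 p := by
  apply UpperHalfPlane.ext
  rw [coe_smul]
  rfl

theorem toH2_mmP (g g' : SL(2, ℝ)) (p : U2) : toH2 (mmP g g' p) = g' • toH2 p := by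
  apply UpperHalfPlane.ext
  rw [coe_smul]
  rfl

theorem continuous_toH1 : Continuous toH1 := by
  rw [UpperHalfPlane.isEmbedding_coe.continuous_iff]
  exact continuous_fst.comp continuous_subtype_val

theorem continuous_toH2 : Continuous toH2 := by
  rw [UpperHalfPlane.isEmbedding_coe.continuous_iff]
  exact continuous_snd.comp continuous_subtype_val

theorem free_G2 : ∀ σ ∈ G2, ∀ p, σ p = p → σ = 1 := by
  rintro _ ⟨g, hg, g', hg', rfl⟩ p hp
  have h1 : g • toH1 p = toH1 p := by rw [← toH1_mmP g g', hp]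
  have h2 : g' • toH2 p = toH2 p := by rw [← toH2_mmP g g', hp]
  have h3 : g = 1 := CG_far.free one_pos g hg _ h1
  have h4 : g' = 1 := CG_far.free one_pos g' hg' _ h2
  rw [h3, h4, mmP_one]

theorem pd_G2 (K L : Set U2) (hK : IsCompact K) (hL : IsCompact L) :
    Set.Finite {γ : G2 | ((fun x => (γ : Equiv.Perm U2) x) '' K ∩ L).Nonempty} := by
  have := CG_far.properlyDiscontinuous one_pos
  have hfin1 := ProperlyDiscontinuousSMul.finite_disjoint_inter_image (Γ := CG)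
    (hK.image continuous_toH1) (hL.image continuous_toH1)
  have hfin2 := ProperlyDiscontinuousSMul.finite_disjoint_inter_image (Γ := CG)
    (hK.image continuous_toH2) (hL.image continuous_toH2)
  refine Set.Finite.of_finite_image (f := fun γ : G2 => (γ : Equiv.Perm U2)) ?_
    (Subtype.val_injective.injOn)
  refine ((hfin1.prod hfin2).image (fun q => mmP q.1 q.2)).subset ?_
  rintro _ ⟨⟨σ, g, hg, g', hg', rfl⟩, ⟨_, ⟨p, hp, rfl⟩, hpL⟩, rfl⟩
  refine ⟨(⟨g, hg⟩, ⟨g', hg'⟩), ⟨?_, ?_⟩, rfl⟩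
  · refine ⟨toH1 (mmP g g' p), ⟨toH1 p, ⟨p, hp, rfl⟩, ?_⟩, ⟨_, hpL, rfl⟩⟩
    exact (toH1_mmP g g' p).symm
  · refine ⟨toH2 (mmP g g' p), ⟨toH2 p, ⟨p, hp, rfl⟩, ?_⟩, ⟨_, hpL, rfl⟩⟩
    exact (toH2_mmP g g' p).symm

instance : HolGroup G2 where
  hol := by
    rintro _ ⟨g, hg, g', hg', rfl⟩ p hp
    exact ((contDiffAt_mm g g' hp).congr_of_eventuallyEq
      (ex_mmP_eventually g g' hp)).contDiffWithinAt
  free := free_G2
  pd := pd_G2

theorem compact_G2 : CompactSpace (QQ G2) := by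
  obtain ⟨K, hK, hKc⟩ := HS.cocompact NN_pos
  set Ψ : ℍ × ℍ → U2 := fun q => ⟨((q.1 : ℂ), (q.2 : ℂ)), ⟨q.1.im_pos, q.2.im_pos⟩⟩ with hΨ
  have hΨc : Continuous Ψ := by
    refine Continuous.subtype_mk ?_ _
    exact (UpperHalfPlane.continuous_coe.comp continuous_fst).prodMk
      (UpperHalfPlane.continuous_coe.comp continuous_snd)
  refine compact_of_cover G2 ((hK.prod hK).image hΨc) fun p => ?_
  obtain ⟨g, hg, hgK⟩ := hKc (toH1 p)
  obtain ⟨g', hg', hgK'⟩ := hKc (toH2 p)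
  refine ⟨mmP g g', ⟨g, hg, g', hg', rfl⟩, (g • toH1 p, g' • toH2 p), ⟨hgK, hgK'⟩, ?_⟩
  apply Subtype.ext
  refine Prod.ext ?_ ?_
  · exact coe_smul g (toH1 p)
  · exact coe_smul g' (toH2 p)

theorem connected_U2 : ConnectedSpace U2 := by
  have h1 : IsConnected (U2 : Set C2) := by
    refine ⟨⟨(Complex.I, Complex.I), mem_U2.2 ⟨by simp, by simp⟩⟩, ?_⟩
    apply Convex.isPreconnected
    have e1 : {p : C2 | 0 < p.1.im} = (Complex.imCLM.comp (ContinuousLinearMap.fst ℝ ℂ ℂ)) ⁻¹'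
      (Set.Ioi 0) := rfl
    have e2 : {p : C2 | 0 < p.2.im} = (Complex.imCLM.comp (ContinuousLinearMap.snd ℝ ℂ ℂ)) ⁻¹'
      (Set.Ioi 0) := rfl
    have : (U2 : Set C2) = {p : C2 | 0 < p.1.im} ∩ {p : C2 | 0 < p.2.im} := rfl
    rw [this, e1, e2]
    exact ((convex_Ioi 0).linear_preimage _).inter ((convex_Ioi 0).linear_preimage _)
  exact isConnected_iff_connectedSpace.1 h1

theorem connected_G2 : ConnectedSpace (QQ G2) := by
  have := connected_U2
  exact (pr_surj G2).connectedSpace (continuous_pr G2)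

end Pool.Agent.TH613.NB
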