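import Pool.Agent.TH613.NB.Defs

/-!
# The Levi form: elementary properties and change of variables
-/

set_option autoImplicit false

open scoped Manifold ContDiff Topology
open Set Filter

namespace Pool.Agent.TH613.NB

/-- second derivative in two directions, from the derivative of the derivative. -/
theorem fderiv_fderiv_apply {φ : C2 → ℝ} {z : C2} (hφ : ContDiffAt ℝ ∞ φ z) (u v : C2) :
    fderiv ℝ (fun w => fderiv ℝ φ w u) z v = fderiv ℝ (fderiv ℝ φ) z v u := by
  have h1 : DifferentiableAt ℝ (fderiv ℝ φ) z :=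
    (hφ.fderiv_right (m := 1) (by norm_cast)).differentiableAt (by simp)
  have h2 := h1.hasFDerivAt.clm_apply (hasFDerivAt_const u z)
  rw [h2.fderiv]
  simp

theorem leviForm_eq {φ : C2 → ℝ} {z : C2} (hφ : ContDiffAt ℝ ∞ φ z) (v : C2) :
    leviForm φ z v = fderiv ℝ (fderiv ℝ φ) z v v +
      fderiv ℝ (fderiv ℝ φ) z (Complex.I • v) (Complex.I • v) := by
  unfold leviForm
  rw [fderiv_fderiv_apply hφ, fderiv_fderiv_apply hφ]

theorem leviForm_congr {φ ψ : C2 → ℝ} {z : C2} (h : φ =ᶠ[𝓝 z] ψ) (v : C2) :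
    leviForm φ z v = leviForm ψ z v := by
  unfold leviForm
  have h1 : ∀ u : C2, (fun w => fderiv ℝ φ w u) =ᶠ[𝓝 z] fun w => fderiv ℝ ψ w u := by
    intro u
    filter_upwards [h.fderiv (𝕜 := ℝ)] with w hw
    rw [hw]
  rw [(h1 v).fderiv_eq, (h1 _).fderiv_eq]

/-- **Change of variables** for the Levi form. -/
theorem leviForm_comp {φ : C2 → ℝ} {h : C2 → C2} {z : C2} (hh : ContDiffAt ℂ ω h z)
    (hφ : ContDiffAt ℝ ∞ φ (h z)) (v : C2) :
    leviForm (φ ∘ h) z v = leviForm φ (h z) (fderiv ℂ h z v) := by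
  have hhR : ContDiffAt ℝ ω h z := hh.restrict_scalars ℝ
  have hcomp : ContDiffAt ℝ ∞ (φ ∘ h) z := hφ.comp z (hhR.of_le (by simp))
  rw [leviForm_eq hφ]
  unfold leviForm
  -- first derivative near `z`
  have e1 : ∀ᶠ w in 𝓝 z, ∀ u, fderiv ℝ (φ ∘ h) w u = fderiv ℝ φ (h w) (fderiv ℂ h w u) := by
    have c1 : ∀ᶠ w in 𝓝 z, ContDiffAt ℂ 1 h w := (hh.of_le (by simp)).eventually (by simp)
    have c2 : ∀ᶠ w in 𝓝 z, ContDiffAt ℝ 1 φ (h w) :=
      hh.continuousAt.eventually ((hφ.of_le (by norm_cast)).eventually (by simp))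
    filter_upwards [c1, c2] with w hw1 hw2 u
    have d1 : HasFDerivAt h ((fderiv ℂ h w).restrictScalars ℝ) w :=
      (hw1.differentiableAt (by simp)).hasFDerivAt.restrictScalars ℝ
    have d2 : HasFDerivAt φ (fderiv ℝ φ (h w)) (h w) :=
      (hw2.differentiableAt (by simp)).hasFDerivAt
    rw [(d2.comp w d1).fderiv]
    rfl
  -- second derivative
  have hD : DifferentiableAt ℂ (fderiv ℂ h) z :=
    (hh.fderiv_right (m := 1) (by simp)).differentiableAt (by simp)
  have hφ1 : DifferentiableAt ℝ (fderiv ℝ φ) (h z) :=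
    (hφ.fderiv_right (m := 1) (by norm_cast)).differentiableAt (by simp)
  have d1 : HasFDerivAt h ((fderiv ℂ h z).restrictScalars ℝ) z :=
    (hh.differentiableAt (by simp)).hasFDerivAt.restrictScalars ℝ
  have key : ∀ u u' : C2, fderiv ℝ (fun w => fderiv ℝ (φ ∘ h) w u) z u' =
      fderiv ℝ (fderiv ℝ φ) (h z) (fderiv ℂ h z u') (fderiv ℂ h z u) +
        fderiv ℝ φ (h z) (fderiv ℂ (fderiv ℂ h) z u' u) := by
    intro u u'
    have e2 : (fun w => fderiv ℝ (φ ∘ h) w u) =ᶠ[𝓝 z]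
        fun w => fderiv ℝ φ (h w) (fderiv ℂ h w u) := by
      filter_upwards [e1] with w hw using hw u
    rw [e2.fderiv_eq]
    have a1 : HasFDerivAt (fun w => fderiv ℝ φ (h w))
        ((fderiv ℝ (fderiv ℝ φ) (h z)).comp ((fderiv ℂ h z).restrictScalars ℝ)) z :=
      hφ1.hasFDerivAt.comp z d1
    have a2 : HasFDerivAt (fun w => fderiv ℂ h w u)
        (((fderiv ℂ (fderiv ℂ h) z).flip u).restrictScalars ℝ) z := by
      have := (hD.hasFDerivAt.clm_apply (hasFDerivAt_const u z)).restrictScalars ℝ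
      have h0 : (fderiv ℂ h z).comp (0 : C2 →L[ℂ] C2) + (fderiv ℂ (fderiv ℂ h) z).flip u =
          (fderiv ℂ (fderiv ℂ h) z).flip u := by
        rw [ContinuousLinearMap.comp_zero, zero_add]
      rw [h0] at this
      exact this
    rw [(a1.clm_apply a2).fderiv]
    simp [add_comm]
  rw [key, key]
  have l1 : fderiv ℂ h z (Complex.I • v) = Complex.I • fderiv ℂ h z v := map_smul _ _ _
  have l2 : fderiv ℂ (fderiv ℂ h) z (Complex.I • v) (Complex.I • v) =
      - fderiv ℂ (fderiv ℂ h) z v v := by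
    rw [map_smul (fderiv ℂ (fderiv ℂ h) z), smul_apply, map_smul, smul_smul,
      Complex.I_mul_I, neg_one_smul]
  rw [l1, l2, map_neg]
  ring

theorem leviForm_add {φ ψ : C2 → ℝ} {z : C2} (hφ : ContDiffAt ℝ ∞ φ z) (hψ : ContDiffAt ℝ ∞ ψ z)
    (v : C2) : leviForm (fun p => φ p + ψ p) z v = leviForm φ z v + leviForm ψ z v := by
  have h1 : DifferentiableAt ℝ (fderiv ℝ φ) z :=
    (hφ.fderiv_right (m := 1) (by norm_cast)).differentiableAt (by simp)
  have h2 : DifferentiableAt ℝ (fderiv ℝ ψ) z :=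
    (hψ.fderiv_right (m := 1) (by norm_cast)).differentiableAt (by simp)
  rw [leviForm_eq (hφ.add hψ), leviForm_eq hφ, leviForm_eq hψ]
  have h3 : fderiv ℝ (fun p => φ p + ψ p) =ᶠ[𝓝 z] fun p => fderiv ℝ φ p + fderiv ℝ ψ p := by
    have c1 : ∀ᶠ w in 𝓝 z, ContDiffAt ℝ 1 φ w := (hφ.of_le (by norm_cast)).eventually (by simp)
    have c2 : ∀ᶠ w in 𝓝 z, ContDiffAt ℝ 1 ψ w := (hψ.of_le (by norm_cast)).eventually (by simp)
    filter_upwards [c1, c2] with w hw1 hw2
    exact fderiv_fun_add (hw1.differentiableAt (by simp)) (hw2.differentiableAt (by simp))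
  rw [h3.fderiv_eq, fderiv_fun_add h1 h2]
  simp only [add_apply]
  ring

theorem leviForm_const_mul {φ : C2 → ℝ} {z : C2} (hφ : ContDiffAt ℝ ∞ φ z) (c : ℝ)
    (v : C2) : leviForm (fun p => c * φ p) z v = c * leviForm φ z v := by
  have h1 : DifferentiableAt ℝ (fderiv ℝ φ) z :=
    (hφ.fderiv_right (m := 1) (by norm_cast)).differentiableAt (by simp)
  rw [leviForm_eq (contDiffAt_const.mul hφ), leviForm_eq hφ]
  have h3 : fderiv ℝ (fun p => c * φ p) =ᶠ[𝓝 z] fun p => c • fderiv ℝ φ p := by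
    have c1 : ∀ᶠ w in 𝓝 z, ContDiffAt ℝ 1 φ w := (hφ.of_le (by norm_cast)).eventually (by simp)
    filter_upwards [c1] with w hw1
    exact fderiv_const_mul (hw1.differentiableAt (by simp)) c
  rw [h3.fderiv_eq, fderiv_fun_const_smul h1 c]
  simp only [smul_apply, smul_eq_mul]
  ring

/-- the Levi form of a function of a real function -/
theorem leviForm_real_comp {S : ℝ → ℝ} {φ : C2 → ℝ} {z : C2} {S1 S2 : ℝ}
    (hφ : ContDiffAt ℝ ∞ φ z) (hS : ContDiffAt ℝ ∞ S (φ z)) (h1 : deriv S (φ z) = S1)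
    (h2 : deriv (deriv S) (φ z) = S2) (v : C2) :
    leviForm (fun p => S (φ p)) z v =
      S2 * (fderiv ℝ φ z v ^ 2 + fderiv ℝ φ z (Complex.I • v) ^ 2) + S1 * leviForm φ z v := by
  have hd : DifferentiableAt ℝ (fderiv ℝ φ) z :=
    (hφ.fderiv_right (m := 1) (by norm_cast)).differentiableAt (by simp)
  have hφd : HasFDerivAt φ (fderiv ℝ φ z) z :=
    (hφ.differentiableAt (by simp)).hasFDerivAt
  have hS' : DifferentiableAt ℝ (deriv S) (φ z) := by
    have : ContDiffAt ℝ 1 (deriv S) (φ z) := by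
      have h := hS.fderiv_right (m := 1) (by norm_cast)
      have h' := h.clm_apply (contDiffAt_const (c := (1 : ℝ)))
      exact h'
    exact this.differentiableAt (by simp)
  have hcomp : ContDiffAt ℝ ∞ (fun p => S (φ p)) z := hS.comp z hφ
  rw [leviForm_eq hcomp, leviForm_eq hφ]
  have h3 : fderiv ℝ (fun p => S (φ p)) =ᶠ[𝓝 z] fun p => deriv S (φ p) • fderiv ℝ φ p := by
    have c1 : ∀ᶠ w in 𝓝 z, ContDiffAt ℝ 1 φ w := (hφ.of_le (by norm_cast)).eventually (by simp)
    have c2 : ∀ᶠ w in 𝓝 z, ContDiffAt ℝ 1 S (φ w) :=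
      hφ.continuousAt.eventually ((hS.of_le (by norm_cast)).eventually (by simp))
    filter_upwards [c1, c2] with w hw1 hw2
    have d1 := (hw1.differentiableAt (by simp)).hasFDerivAt
    have d2 := (hw2.differentiableAt (by simp)).hasDerivAt
    exact (d2.comp_hasFDerivAt w d1).fderiv
  rw [h3.fderiv_eq]
  have h4 : HasFDerivAt (fun p => deriv S (φ p)) (deriv (deriv S) (φ z) • fderiv ℝ φ z) z :=
    hS'.hasDerivAt.comp_hasFDerivAt z hφd
  have h5 : HasFDerivAt (fun p => deriv S (φ p) • fderiv ℝ φ p) _ z := h4.smul hd.hasFDerivAt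
  rw [h5.fderiv, h1, h2]
  simp only [add_apply, smul_apply, ContinuousLinearMap.smulRight_apply, smul_eq_mul]
  ring

end Pool.Agent.TH613.NB
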