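import Pool.Agent.TH613.NB.Grp2

/-!
# Stokes' theorem on the closed hyperbolic surface, for invariant 1-forms
-/

set_option autoImplicit false

open scoped Manifold ContDiff Topology MatrixGroups UpperHalfPlane ComplexConjugate
open Set Filter TopologicalSpace MeasureTheory

namespace Pool.Agent.TH613.NB

open Pool.Agent.W711.KC (jj nn jj_ne im_mob jj_mul nn_mul det_eq CG CG_far NN_pos)
open Pool.Agent.H85R3

/-- the upper half plane, as a subset of `ℂ` -/
def HH : Set ℂ := {z | 0 < z.im}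

theorem isOpen_HH : IsOpen HH := isOpen_lt continuous_const Complex.continuous_im

theorem int_mulC {u ψ : ℂ → ℝ} (hu : ∀ z ∈ HH, ContinuousAt u z) (hψ : Continuous ψ)
    (hc : HasCompactSupport ψ) (hs : tsupport ψ ⊆ HH) : Integrable (fun y => u y * ψ y) := by
  have hl : LocallyIntegrableOn u HH :=
    ContinuousOn.locallyIntegrableOn (fun p hp => (hu p hp).continuousWithinAt)
      isOpen_HH.measurableSet
  have h1 : IntegrableOn u (tsupport ψ) := hl.integrableOn_compact_subset hs hc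
  have h2 : IntegrableOn (fun y => u y * ψ y) (tsupport ψ) :=
    h1.mul_continuousOn hψ.continuousOn hc
  rwa [integrableOn_iff_integrable_of_support_subset] at h2
  intro y hy
  apply subset_tsupport ψ
  intro h0
  apply hy
  simp [h0]

theorem dirC_contDiff {χ : ℂ → ℝ} (hχ : ContDiff ℝ ∞ χ) (a : ℂ) :
    ContDiff ℝ ∞ (fun w => fderiv ℝ χ w a) :=
  (hχ.fderiv_right (m := ∞) (by norm_cast)).clm_apply contDiff_const

theorem dirC_tsupport (χ : ℂ → ℝ) (a : ℂ) :
    tsupport (fun w => fderiv ℝ χ w a) ⊆ tsupport χ := by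
  refine closure_minimal ?_ (isClosed_tsupport χ)
  intro w hw
  by_contra h
  apply hw
  have : fderiv ℝ χ w = 0 := by
    have h1 : χ =ᶠ[𝓝 w] fun _ => 0 := notMem_tsupport_iff_eventuallyEq.1 h
    rw [h1.fderiv_eq]
    simp
  simp [this]

/-- the scalar product of two linear forms -/
noncomputable def ip (b d : ℂ →L[ℝ] ℝ) : ℝ := b 1 * d 1 + b Complex.I * d Complex.I

/-- the divergence -/
noncomputable def dv (b : ℂ → ℂ →L[ℝ] ℝ) (z : ℂ) : ℝ :=
  fderiv ℝ (fun w => b w 1) z 1 + fderiv ℝ (fun w => b w Complex.I) z Complex.I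

theorem clm_ri (b : ℂ →L[ℝ] ℝ) (c : ℂ) : b c = c.re * b 1 + c.im * b Complex.I := by
  have hx : c = c.re • (1 : ℂ) + c.im • Complex.I := by
    simp
  conv_lhs => rw [hx, map_add, map_smul, map_smul]
  rfl

theorem ip_conf {b d b' d' : ℂ →L[ℝ] ℝ} {c : ℂ} (hb : ∀ h, b' h = b (c * h))
    (hd : ∀ h, d' h = d (c * h)) : ip b' d' = Complex.normSq c * ip b d := by
  unfold ip
  rw [hb, hb, hd, hd, clm_ri b (c * 1), clm_ri b (c * Complex.I), clm_ri d (c * 1),
    clm_ri d (c * Complex.I), Complex.normSq_apply]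
  simp only [mul_one, Complex.mul_re, Complex.mul_im, Complex.I_re, Complex.I_im]
  ring

/-! ### the partition function -/

theorem finite_meet {T : Set ℂ} (hT : IsCompact T) (hTH : T ⊆ HH) :
    {g : SL(2, ℝ) | g ∈ CG ∧ ∃ z ∈ T, mb g z ∈ T}.Finite := by
  have := CG_far.properlyDiscontinuous one_pos
  have hT' : IsCompact ((fun z : ℍ => (z : ℂ)) ⁻¹' T) := by
    rw [UpperHalfPlane.isEmbedding_coe.isInducing.isCompact_preimage_iff]
    · exact hT
    · intro z hz
      exact ⟨⟨z, hTH hz⟩, rfl⟩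
  have hfin := ProperlyDiscontinuousSMul.finite_disjoint_inter_image (Γ := CG) hT' hT'
  refine (hfin.image (fun g : CG => (g : SL(2, ℝ)))).subset ?_
  rintro g ⟨hg, z, hz, hgz⟩
  refine ⟨⟨g, hg⟩, ?_, rfl⟩
  refine ⟨g • (⟨z, hTH hz⟩ : ℍ), ⟨⟨z, hTH hz⟩, hz, rfl⟩, ?_⟩
  change ((g • (⟨z, hTH hz⟩ : ℍ) : ℍ) : ℂ) ∈ T
  rw [coe_smul]
  exact hgz

/-- **A smooth partition function**, positive at a given point. -/
theorem exists_part {z₀ : ℂ} (hz₀ : z₀ ∈ HH) : ∃ (χ : ℂ → ℝ) (F : Finset SL(2, ℝ)),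
    ContDiff ℝ ∞ χ ∧ HasCompactSupport χ ∧ tsupport χ ⊆ HH ∧ (∀ z, 0 ≤ χ z) ∧ 0 < χ z₀ ∧
      (∀ g ∈ F, g ∈ CG) ∧ (∀ g ∈ F, g⁻¹ ∈ F) ∧ ∀ z ∈ tsupport χ, ∑ g ∈ F, χ (mb g z) = 1 := by
  classical
  obtain ⟨K, hK, hKc⟩ := HS.cocompact NN_pos
  set K' : Set ℂ := (fun z : ℍ => (z : ℂ)) '' K ∪ {z₀} with hK'
  have hK'c : IsCompact K' := (hK.image UpperHalfPlane.continuous_coe).union isCompact_singleton
  have hK'H : K' ⊆ HH := by
    rintro z (⟨w, -, rfl⟩ | rfl)
    · exact w.im_pos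
    · exact hz₀
  obtain ⟨s, hso, hKs, hsH, hsc⟩ := exists_open_between_and_isCompact_closure hK'c isOpen_HH hK'H
  obtain ⟨s', hso', hss', hsH', hsc'⟩ := exists_open_between_and_isCompact_closure hsc isOpen_HH hsH
  obtain ⟨χ₀, hsupp, hsm, hrange⟩ := hso.exists_contDiff_support_eq (n := ⊤)
  have h0nn : ∀ z, 0 ≤ χ₀ z := fun z => (hrange ⟨z, rfl⟩).1
  have hfin := finite_meet hsc' hsH'
  set F : Finset SL(2, ℝ) := hfin.toFinset with hF
  have hmemF : ∀ g, g ∈ F ↔ g ∈ CG ∧ ∃ z ∈ closure s', mb g z ∈ closure s' := by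
    intro g
    rw [hF, Set.Finite.mem_toFinset]
    rfl
  have hsT' : s ⊆ closure s' := subset_closure.trans (hss'.trans subset_closure)
  set D : ℂ → ℝ := fun z => ∑ g ∈ F, χ₀ (mb g z) with hD
  have hD0 : ∀ z, 0 ≤ D z := fun z => Finset.sum_nonneg fun g _ => h0nn _
  -- the full sum
  set φ : ℂ → SL(2, ℝ) → ℝ := fun z g => if g ∈ CG then χ₀ (mb g z) else 0 with hφ
  have hΦ : ∀ z ∈ closure s', ∑ᶠ g, φ z g = D z := by
    intro z hz
    rw [finsum_eq_sum_of_support_subset (s := F)]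
    · apply Finset.sum_congr rfl
      intro g hg
      rw [hφ]
      simp only
      rw [if_pos ((hmemF g).1 hg).1]
    · intro g hg
      have hg1 : φ z g ≠ 0 := hg
      rw [hφ] at hg1
      simp only at hg1
      split_ifs at hg1 with hgC
      · have h2 : mb g z ∈ s := by rw [← hsupp]; exact hg1
        exact (hmemF g).2 ⟨hgC, z, hz, hsT' h2⟩
      · exact absurd rfl hg1
  have hinv : ∀ z ∈ HH, ∀ h ∈ CG, ∑ᶠ g, φ (mb h z) g = ∑ᶠ g, φ z g := by
    intro z hz h hh
    rw [← finsum_comp_equiv (Equiv.mulRight h) (f := φ z)]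
    congr 1
    funext g
    simp only [hφ, Equiv.coe_mulRight]
    by_cases hg : g ∈ CG
    · rw [if_pos hg, if_pos (mul_mem hg hh), mb_mul g h hz]
    · rw [if_neg hg, if_neg]
      intro h2
      exact hg ((Subgroup.mul_mem_cancel_right CG hh).1 h2)
  have hDpos : ∀ z ∈ closure s', 0 < D z := by
    intro z hz
    have hzH : z ∈ HH := hsH' hz
    obtain ⟨g, hg, hgK⟩ := hKc ⟨z, hzH⟩
    have h1 : mb g z ∈ s := by
      apply hKs
      left
      exact ⟨_, hgK, coe_smul g ⟨z, hzH⟩⟩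
    have h2 : g ∈ F := (hmemF g).2 ⟨hg, z, hz, hsT' h1⟩
    have h3 : χ₀ (mb g z) ≠ 0 := by
      have : mb g z ∈ Function.support χ₀ := by rw [hsupp]; exact h1
      exact this
    exact Finset.sum_pos' (fun g _ => h0nn _) ⟨g, h2, lt_of_le_of_ne (h0nn _) h3.symm⟩
  have hDs : ∀ z ∈ HH, ContDiffAt ℝ ∞ D z := by
    intro z hz
    apply ContDiffAt.sum
    intro g _
    exact hsm.contDiffAt.comp z (((contDiffAt_mb g hz).restrict_scalars ℝ).of_le (by simp))
  set χ : ℂ → ℝ := fun z => χ₀ z / D z with hχ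
  have hχsupp : Function.support χ ⊆ s := by
    intro z hz
    rw [← hsupp]
    intro h
    apply hz
    change χ₀ z / D z = 0
    rw [h, zero_div]
  have hχts : tsupport χ ⊆ closure s := closure_mono hχsupp
  have hχs : ContDiff ℝ ∞ χ := by
    rw [contDiff_iff_contDiffAt]
    intro z
    by_cases hz : z ∈ closure s
    · have h1 : z ∈ closure s' := subset_closure (hss' hz)
      exact hsm.contDiffAt.div (hDs z (hsH' h1)) (hDpos z h1).ne'
    · have h1 : χ =ᶠ[𝓝 z] fun _ => 0 := by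
        filter_upwards [isClosed_closure.isOpen_compl.mem_nhds hz] with w hw
        by_contra h
        exact hw (subset_closure (hχsupp h))
      exact contDiffAt_const.congr_of_eventuallyEq h1
  refine ⟨χ, F, hχs, hsc.of_isClosed_subset (isClosed_tsupport _) hχts, hχts.trans hsH,
    fun z => div_nonneg (h0nn z) (hD0 z), ?_, fun g hg => ((hmemF g).1 hg).1, ?_, ?_⟩
  · have h1 : z₀ ∈ s := hKs (Or.inr rfl)
    have h3 : χ₀ z₀ ≠ 0 := by
      have : z₀ ∈ Function.support χ₀ := by rw [hsupp]; exact h1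
      exact this
    exact div_pos (lt_of_le_of_ne (h0nn _) h3.symm) (hDpos z₀ (hsT' h1))
  · intro g hg
    obtain ⟨hgC, z, hz, hgz⟩ := (hmemF g).1 hg
    refine (hmemF _).2 ⟨inv_mem hgC, mb g z, hgz, ?_⟩
    rw [mb_inv_mb g (hsH' hz)]
    exact hz
  · intro z hz
    have hz1 : z ∈ closure s' := subset_closure (hss' (hχts hz))
    have h1 : ∀ g ∈ F, χ (mb g z) = χ₀ (mb g z) / D z := by
      intro g hg
      change χ₀ (mb g z) / D (mb g z) = χ₀ (mb g z) / D z
      by_cases h : mb g z ∈ s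
      · have h2 : D (mb g z) = D z := by
          rw [← hΦ _ (hsT' h), ← hΦ z hz1, hinv z (hsH' hz1) g ((hmemF g).1 hg).1]
        rw [h2]
      · have h2 : χ₀ (mb g z) = 0 := by
          by_contra h3
          apply h
          rw [← hsupp]
          exact h3
        rw [h2, zero_div, zero_div]
    rw [Finset.sum_congr rfl h1, ← Finset.sum_div]
    exact div_self (hDpos z hz1).ne'

/-! ### unfolding -/

theorem image_HH (g : SL(2, ℝ)) : mb g '' HH = HH := by
  ext w
  constructor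
  · rintro ⟨z, hz, rfl⟩
    exact mb_im_pos g hz
  · intro hw
    exact ⟨mb g⁻¹ w, mb_im_pos g⁻¹ hw, mb_mb_inv g hw⟩

theorem injOn_mb (g : SL(2, ℝ)) : InjOn (mb g) HH := by
  intro z hz w hw h
  rw [← mb_inv_mb g hz, h, mb_inv_mb g hw]

/-- change of variables -/
theorem change_var (g : SL(2, ℝ)) (f : ℂ → ℝ) :
    ∫ z in HH, f z = ∫ z in HH, Complex.normSq (1 / jj g z ^ 2) * f (mb g z) := by
  have h := integral_image_eq_integral_abs_det_fderiv_smul (volume : Measure ℂ)
    isOpen_HH.measurableSet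
    (f' := fun z => (ContinuousLinearMap.toSpanSingleton ℂ (1 / jj g z ^ 2)).restrictScalars ℝ)
    (fun z hz => (((hasDerivAt_mb g hz).hasFDerivAt).restrictScalars ℝ).hasFDerivWithinAt)
    (injOn_mb g) f
  rw [image_HH] at h
  rw [h]
  apply setIntegral_congr_fun isOpen_HH.measurableSet
  intro z _
  simp only [smul_eq_mul]
  congr 1
  simp [ContinuousLinearMap.det, LinearMap.det_restrictScalars, Algebra.norm_complex_eq]

/-- invariance of a 1-form -/
def InvOne (b : ℂ → ℂ →L[ℝ] ℝ) : Prop :=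
  ∀ g ∈ CG, ∀ z ∈ HH, ∀ h : ℂ, b (mb g z) (1 / jj g z ^ 2 * h) = b z h

theorem fderiv_comp_mb {χ : ℂ → ℝ} (hχ : ContDiff ℝ ∞ χ) (g : SL(2, ℝ)) {z : ℂ} (hz : z ∈ HH)
    (h : ℂ) : fderiv ℝ (fun w => χ (mb g w)) z h = fderiv ℝ χ (mb g z) (1 / jj g z ^ 2 * h) := by
  have h1 : HasFDerivAt (mb g)
      ((ContinuousLinearMap.toSpanSingleton ℂ (1 / jj g z ^ 2)).restrictScalars ℝ) z :=
    ((hasDerivAt_mb g hz).hasFDerivAt).restrictScalars ℝ
  have h2 : HasFDerivAt χ (fderiv ℝ χ (mb g z)) (mb g z) :=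
    (hχ.differentiable (by simp) _).hasFDerivAt
  have h3 := (h2.comp z h1).fderiv
  have h4 : fderiv ℝ (fun w => χ (mb g w)) z = fderiv ℝ (χ ∘ mb g) z := rfl
  rw [h4, h3]
  simp [mul_comm]

/-- the unfolding step -/
theorem unfold_step {b : ℂ → ℂ →L[ℝ] ℝ} (hinv : InvOne b) {χ : ℂ → ℝ} (hχ : ContDiff ℝ ∞ χ)
    {g : SL(2, ℝ)} (hg : g ∈ CG) :
    ∫ z in HH, χ (mb g⁻¹ z) * ip (b z) (fderiv ℝ χ z) =
      ∫ z in HH, χ z * ip (b z) (fderiv ℝ (fun w => χ (mb g w)) z) := by
  rw [change_var g]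
  apply setIntegral_congr_fun isOpen_HH.measurableSet
  intro z hz
  simp only
  rw [mb_inv_mb g hz, ip_conf (b := b (mb g z)) (d := fderiv ℝ χ (mb g z)) (b' := b z)
    (d' := fderiv ℝ (fun w => χ (mb g w)) z) (c := 1 / jj g z ^ 2)
    (fun h => (hinv g hg z hz h).symm) (fun h => fderiv_comp_mb hχ g hz h)]
  ring

theorem ip_sum (b : ℂ →L[ℝ] ℝ) {ι : Type} (F : Finset ι) (d : ι → ℂ →L[ℝ] ℝ) :
    ip b (∑ i ∈ F, d i) = ∑ i ∈ F, ip b (d i) := by
  unfold ip
  rw [sum_apply, sum_apply, Finset.mul_sum,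
    Finset.mul_sum, Finset.sum_add_distrib]

/-- **Stokes**: the integral of `⟨b, dχ⟩` vanishes -/
theorem stokes_aux {b : ℂ → ℂ →L[ℝ] ℝ} (hb : ∀ z ∈ HH, ContDiffAt ℝ ∞ b z) (hinv : InvOne b)
    {χ : ℂ → ℝ} {F : Finset SL(2, ℝ)} (hχ : ContDiff ℝ ∞ χ) (hc : HasCompactSupport χ)
    (hs : tsupport χ ⊆ HH) (hF : ∀ g ∈ F, g ∈ CG) (hF' : ∀ g ∈ F, g⁻¹ ∈ F)
    (hsum : ∀ z ∈ tsupport χ, ∑ g ∈ F, χ (mb g z) = 1) :
    ∫ z in HH, ip (b z) (fderiv ℝ χ z) = 0 := by
  have hb1 : ∀ a : ℂ, ∀ z ∈ HH, ContinuousAt (fun w => b w a) z := fun a z hz =>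
    (((hb z hz).clm_apply contDiffAt_const).continuousAt :
      ContinuousAt (fun w => b w a) z)
  have hmbc : ∀ (g : SL(2, ℝ)), ∀ z ∈ HH, ContinuousAt (fun w => χ (mb g w)) z := fun g z hz =>
    hχ.continuous.continuousAt.comp (contDiffAt_mb g hz).continuousAt
  have hmbs : ∀ (g : SL(2, ℝ)), ∀ z ∈ HH, ContDiffAt ℝ ∞ (fun w => χ (mb g w)) z := fun g z hz =>
    hχ.contDiffAt.comp z (((contDiffAt_mb g hz).restrict_scalars ℝ).of_le (by simp))
  -- integrability
  have hI1 : ∀ g : SL(2, ℝ), Integrable (fun z => χ (mb g z) * ip (b z) (fderiv ℝ χ z))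
      (volume.restrict HH) := by
    intro g
    have h1 : ∀ a : ℂ, Integrable (fun z => (χ (mb g z) * b z a) * fderiv ℝ χ z a) := fun a =>
      int_mulC (fun z hz => (hmbc g z hz).mul (hb1 a z hz)) (dirC_contDiff hχ a).continuous
        (hc.of_isClosed_subset (isClosed_tsupport _) (dirC_tsupport χ a))
        ((dirC_tsupport χ a).trans hs)
    refine (((h1 1).add (h1 Complex.I)).congr (Eventually.of_forall fun z => ?_)).restrict
    simp only [Pi.add_apply]
    unfold ip
    ring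
  have hdc : ∀ (g : SL(2, ℝ)) (a : ℂ), ∀ z ∈ HH,
      ContinuousAt (fun z => fderiv ℝ (fun w => χ (mb g w)) z a) z := fun g a z hz =>
    ((((hmbs g z hz).fderiv_right (m := ∞) (by norm_cast)).clm_apply
      contDiffAt_const).continuousAt)
  have hI2 : ∀ g : SL(2, ℝ), Integrable (fun z => χ z * ip (b z)
      (fderiv ℝ (fun w => χ (mb g w)) z)) (volume.restrict HH) := by
    intro g
    have h1 : ∀ a : ℂ, Integrable (fun z => (b z a * fderiv ℝ (fun w => χ (mb g w)) z a) * χ z) :=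
      fun a => int_mulC (fun z hz => (hb1 a z hz).mul (hdc g a z hz)) hχ.continuous hc hs
    refine (((h1 1).add (h1 Complex.I)).congr (Eventually.of_forall fun z => ?_)).restrict
    simp only [Pi.add_apply]
    unfold ip
    ring
  calc ∫ z in HH, ip (b z) (fderiv ℝ χ z)
      = ∫ z in HH, ∑ g ∈ F, χ (mb g z) * ip (b z) (fderiv ℝ χ z) := by
        apply setIntegral_congr_fun isOpen_HH.measurableSet
        intro z _
        simp only
        rw [← Finset.sum_mul]
        by_cases hz : z ∈ tsupport χ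
        · rw [hsum z hz, one_mul]
        · have h1 : fderiv ℝ χ z = 0 := by
            have h1 : χ =ᶠ[𝓝 z] fun _ => 0 := notMem_tsupport_iff_eventuallyEq.1 hz
            rw [h1.fderiv_eq]
            simp
          rw [h1]
          unfold ip
          simp
    _ = ∑ g ∈ F, ∫ z in HH, χ (mb g z) * ip (b z) (fderiv ℝ χ z) :=
        integral_finsetSum F fun g _ => hI1 g
    _ = ∑ g ∈ F, ∫ z in HH, χ (mb g⁻¹ z) * ip (b z) (fderiv ℝ χ z) := by
        apply Finset.sum_nbij' (fun g => g⁻¹) (fun g => g⁻¹) hF' hF'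
        · intro g _
          exact inv_inv g
        · intro g _
          exact inv_inv g
        · intro g _
          rw [inv_inv]
    _ = ∑ g ∈ F, ∫ z in HH, χ z * ip (b z) (fderiv ℝ (fun w => χ (mb g w)) z) :=
        Finset.sum_congr rfl fun g hg => unfold_step hinv hχ (hF g hg)
    _ = ∫ z in HH, ∑ g ∈ F, χ z * ip (b z) (fderiv ℝ (fun w => χ (mb g w)) z) :=
        (integral_finsetSum F fun g _ => hI2 g).symm
    _ = ∫ z in HH, (0 : ℝ) := by
        apply setIntegral_congr_fun isOpen_HH.measurableSet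
        intro z hz
        simp only
        rw [← Finset.mul_sum, ← ip_sum]
        by_cases h0 : χ z = 0
        · rw [h0, zero_mul]
        · have h1 : (fun w => ∑ g ∈ F, χ (mb g w)) =ᶠ[𝓝 z] fun _ => 1 := by
            have h2 : {w | χ w ≠ 0} ∈ 𝓝 z :=
              (isOpen_ne_fun hχ.continuous continuous_const).mem_nhds h0
            filter_upwards [h2] with w hw
            exact hsum w (subset_tsupport χ hw)
          have h3 : fderiv ℝ (fun w => ∑ g ∈ F, χ (mb g w)) z =
              ∑ g ∈ F, fderiv ℝ (fun w => χ (mb g w)) z :=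
            fderiv_fun_sum fun g _ => (hmbs g z hz).differentiableAt (by simp)
          rw [← h3, h1.fderiv_eq]
          unfold ip
          simp
    _ = 0 := by simp

/-- **No invariant 1-form has a nonnegative divergence that is not zero.** -/
theorem stokes {b : ℂ → ℂ →L[ℝ] ℝ} (hb : ∀ z ∈ HH, ContDiffAt ℝ ∞ b z) (hinv : InvOne b)
    (hpos : ∀ z ∈ HH, 0 ≤ dv b z) : ∀ z ∈ HH, dv b z = 0 := by
  intro z₀ hz₀
  obtain ⟨χ, F, hχ, hc, hs, hnn, hχ0, hF, hF', hsum⟩ := exists_part hz₀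
  have h1 := stokes_aux hb hinv hχ hc hs hF hF' hsum
  have hbs : ∀ a : ℂ, ∀ z ∈ HH, ContDiffAt ℝ ∞ (fun w => b w a) z := fun a z hz =>
    (hb z hz).clm_apply contDiffAt_const
  have hbd : ∀ a : ℂ, ∀ z ∈ HH, ContinuousAt (fun z => fderiv ℝ (fun w => b w a) z a) z :=
    fun a z hz => (((hbs a z hz).fderiv_right (m := ∞) (by norm_cast)).clm_apply
      contDiffAt_const).continuousAt
  have hparts : ∀ a : ℂ, ∫ z, χ z * fderiv ℝ (fun w => b w a) z a =
      -∫ z, fderiv ℝ χ z a * b z a := by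
    intro a
    apply integral_mul_fderiv_eq_neg_fderiv_mul_of_integrable
    · have := int_mulC (fun z hz => (hbs a z hz).continuousAt) (dirC_contDiff hχ a).continuous
        (hc.of_isClosed_subset (isClosed_tsupport _) (dirC_tsupport χ a))
        ((dirC_tsupport χ a).trans hs)
      simpa only [mul_comm] using this
    · have := int_mulC (hbd a) hχ.continuous hc hs
      simpa only [mul_comm] using this
    · have := int_mulC (fun z hz => (hbs a z hz).continuousAt) hχ.continuous hc hs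
      simpa only [mul_comm] using this
    · intro x _
      exact hχ.differentiable (by simp) x
    · intro x hx
      exact (hbs a x (hs hx)).differentiableAt (by simp)
  have hsupp : ∀ (ψ : ℂ → ℝ), (∀ z, z ∉ tsupport χ → ψ z = 0) → ∫ z in HH, ψ z = ∫ z, ψ z := by
    intro ψ hψ
    apply setIntegral_eq_integral_of_forall_compl_eq_zero
    intro z hz
    exact hψ z fun h => hz (hs h)
  have hi : ∀ a : ℂ, Integrable (fun z => χ z * fderiv ℝ (fun w => b w a) z a) := by
    intro a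
    have := int_mulC (hbd a) hχ.continuous hc hs
    simpa only [mul_comm] using this
  have hi' : ∀ a : ℂ, Integrable (fun z => fderiv ℝ χ z a * b z a) := by
    intro a
    have := int_mulC (fun z hz => (hbs a z hz).continuousAt) (dirC_contDiff hχ a).continuous
      (hc.of_isClosed_subset (isClosed_tsupport _) (dirC_tsupport χ a))
      ((dirC_tsupport χ a).trans hs)
    simpa only [mul_comm] using this
  have hz' : ∀ z, z ∉ tsupport χ → χ z = 0 := fun z hz => image_eq_zero_of_notMem_tsupport hz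
  have h2 : ∫ z, χ z * dv b z = 0 := by
    have e1 : (fun z => χ z * dv b z) = fun z => χ z * fderiv ℝ (fun w => b w 1) z 1 +
        χ z * fderiv ℝ (fun w => b w Complex.I) z Complex.I := by
      funext z
      unfold dv
      ring
    rw [e1, integral_add (hi 1) (hi Complex.I), hparts 1, hparts Complex.I, ← neg_add,
      ← integral_add (hi' 1) (hi' Complex.I)]
    have e2 : (fun z => fderiv ℝ χ z 1 * b z 1 + fderiv ℝ χ z Complex.I * b z Complex.I) =
        fun z => ip (b z) (fderiv ℝ χ z) := by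
      funext z
      unfold ip
      ring
    rw [e2, ← hsupp, h1, neg_zero]
    intro z hz
    have h1 : fderiv ℝ χ z = 0 := by
      have h1 : χ =ᶠ[𝓝 z] fun _ => 0 := notMem_tsupport_iff_eventuallyEq.1 hz
      rw [h1.fderiv_eq]
      simp
    rw [h1]
    unfold ip
    simp
  -- the integrand vanishes
  have hcont : ∀ z ∈ HH, ContinuousAt (fun z => χ z * dv b z) z := by
    intro z hz
    exact hχ.continuous.continuousAt.mul ((hbd 1 z hz).add (hbd Complex.I z hz))
  have hcont' : Continuous (fun z => χ z * dv b z) := by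
    rw [continuous_iff_continuousAt]
    intro z
    by_cases hz : z ∈ tsupport χ
    · exact hcont z (hs hz)
    · have h1 : (fun z => χ z * dv b z) =ᶠ[𝓝 z] fun _ => 0 := by
        filter_upwards [notMem_tsupport_iff_eventuallyEq.1 hz] with w hw
        rw [hw]
        simp
      exact continuousAt_const.congr h1.symm
  have hnn' : 0 ≤ fun z => χ z * dv b z := by
    intro z
    by_cases hz : z ∈ HH
    · exact mul_nonneg (hnn z) (hpos z hz)
    · change 0 ≤ χ z * dv b z
      rw [hz' z fun h => hz (hs h), zero_mul]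
  have hint : Integrable (fun z => χ z * dv b z) := by
    refine ((hi 1).add (hi Complex.I)).congr (Eventually.of_forall fun z => ?_)
    simp only [Pi.add_apply]
    unfold dv
    ring
  have h3 : (fun z => χ z * dv b z) =ᵐ[volume] 0 := (integral_eq_zero_iff_of_nonneg hnn' hint).1 h2
  have h4 : (fun z => χ z * dv b z) = 0 :=
    Continuous.ae_eq_iff_eq (μ := volume) hcont' continuous_zero |>.1 h3
  have h5 : χ z₀ * dv b z₀ = 0 := congrFun h4 z₀
  exact (mul_eq_zero.1 h5).resolve_left hχ0.ne'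

end Pool.Agent.TH613.NB
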