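import Pool.Agent.TH613.NB.Surf
import Pool.Agent.TH613.NB.Stokes

/-!
# The class has no smooth semipositive representative
-/

set_option autoImplicit false

open scoped Manifold ContDiff Topology MatrixGroups UpperHalfPlane ComplexConjugate
open Set Filter TopologicalSpace MeasureTheory

namespace Pool.Agent.TH613.NB

open Pool.Agent.W711.KC (ex ex_apply ex_mem HolGroup QQ jj nn jj_ne im_mob jj_mul nn_mul det_eq CG
  CG_far NN_pos chart_self_mem)
open Pool.Agent.H85R3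

theorem inv_fderiv {F : C2 → ℝ} (hF : InvFun G2 F) (hs : ∀ p ∈ U2, ContDiffAt ℝ ∞ F p)
    {g g' : SL(2, ℝ)} (hg : g ∈ CG) (hg' : g' ∈ CG) {p : C2} (hp : p ∈ U2) (v : C2) :
    fderiv ℝ F (mm g g' p) (fderiv ℂ (mm g g') p v) = fderiv ℝ F p v := by
  have h1 : F =ᶠ[𝓝 p] F ∘ mm g g' := by
    filter_upwards [U2.isOpen.mem_nhds hp] with q hq
    have := hF (mmP g g') ⟨g, hg, g', hg', rfl⟩ q hq
    rw [ex_mmP g g' hq] at this
    exact this.symm
  have d1 : HasFDerivAt (mm g g') ((fderiv ℂ (mm g g') p).restrictScalars ℝ) p :=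
    ((contDiffAt_mm g g' hp).differentiableAt (by simp)).hasFDerivAt.restrictScalars ℝ
  have d2 : HasFDerivAt F (fderiv ℝ F (mm g g' p)) (mm g g' p) :=
    ((hs _ (mm_mem g g' hp)).differentiableAt (by simp)).hasFDerivAt
  rw [h1.fderiv_eq, (d2.comp p d1).fderiv]
  rfl

/-- the form on the diagonal -/
theorem tht_diag {z : ℂ} (hz : 0 < z.im) (v : C2) :
    tht (SS (1 / 64)) (z, z) v =
      (1 / 2 * ((v.1.re ^ 2 + v.1.im ^ 2) - (v.2.re ^ 2 + v.2.im ^ 2)) +
        64 * ((v.1.re - v.2.re) ^ 2 + (v.1.im - v.2.im) ^ 2)) / z.im ^ 2 := by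
  have hp : ((z, z) : C2) ∈ U2 := ⟨hz, hz⟩
  have h0 : sgg 1 (z, z) = 0 := by
    unfold sgg sg
    rw [mb_one]
    simp
  have hact : sgg 1 (z, z) < 1 / 16 := by rw [h0]; norm_num
  have hd : deriv (SS (1 / 64)) 0 = 64 := by
    rw [deriv_SS]
    simp only [zero_div]
    rw [kk_small (by norm_num)]
    norm_num
  have hmm : mm 1 1 (z, z) = (z, z) := by
    unfold mm
    rw [mb_one]
  have hjj : jj (1 : SL(2, ℝ)) z = 1 := by
    unfold jj
    simp
  unfold tht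
  rw [kap_active _ (one_mem _) hp hact, leviForm_sgg 1 hp reg0.smooth.contDiffAt, h0, hd, hmm,
    fderiv_mm 1 1 hp]
  simp only [hjj]
  unfold NN EE n1 n2
  have hy : z.im ≠ 0 := hz.ne'
  simp only [one_pow, div_one]
  field_simp
  ring

theorem second_fderiv {F : C2 → ℝ} {z : ℂ} (hF : ContDiffAt ℝ ∞ F (z, z)) (u : C2) (a : ℂ) :
    fderiv ℝ (fun w : ℂ => fderiv ℝ F (w, w) u) z a =
      fderiv ℝ (fderiv ℝ F) (z, z) (a, a) u := by
  have h1 : DifferentiableAt ℝ (fderiv ℝ F) (z, z) :=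
    (hF.fderiv_right (m := 1) (by norm_cast)).differentiableAt (by simp)
  have h2 : HasFDerivAt (fun w : ℂ => (w, w)) ((ContinuousLinearMap.id ℝ ℂ).prod
      (ContinuousLinearMap.id ℝ ℂ)) z := (hasFDerivAt_id z).prodMk (hasFDerivAt_id z)
  have h3 : HasFDerivAt (fun w : ℂ => fderiv ℝ F (w, w)) _ z :=
    HasFDerivAt.comp (f := fun w : ℂ => ((w, w) : C2)) (g := fderiv ℝ F) z h1.hasFDerivAt h2
  have h4 := h3.clm_apply (hasFDerivAt_const u z)
  rw [h4.fderiv]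
  simp

/-- the second derivative of a smooth function is symmetric -/
theorem symm2 {F : C2 → ℝ} {p : C2} (hF : ContDiffAt ℝ ∞ F p) (u v : C2) :
    fderiv ℝ (fderiv ℝ F) p u v = fderiv ℝ (fderiv ℝ F) p v u := by
  have h := hF.isSymmSndFDerivAt (n := ∞) (by
    rw [minSmoothness_of_isRCLikeNormedField]
    norm_cast)
  exact h u v

theorem no_semipositive {F : C2 → ℝ} (hF : InvFun G2 F) (hs : ∀ p ∈ U2, ContDiffAt ℝ ∞ F p)
    (h : ∀ p ∈ U2, ∀ v, 0 ≤ tht (SS (1 / 64)) p v + leviForm F p v) : False := by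
  have hd : ∀ z ∈ HH, ((z, z) : C2) ∈ U2 := fun z hz => ⟨hz, hz⟩
  set D2 : ℂ → C2 → C2 → ℝ := fun z u v => fderiv ℝ (fderiv ℝ F) (z, z) u v with hD2
  have hsm : ∀ z ∈ HH, ContDiffAt ℝ ∞ (fun w : ℂ => fderiv ℝ F (w, w)) z := fun z hz =>
    ContDiffAt.comp (f := fun w : ℂ => ((w, w) : C2)) (g := fderiv ℝ F) z
      ((hs _ (hd z hz)).fderiv_right (m := ∞) (by norm_cast))
      (contDiffAt_id.prodMk contDiffAt_id)
  have hjj : ∀ (g : SL(2, ℝ)) (z : ℂ) (c : ℂ), c / jj g z ^ 2 = 1 / jj g z ^ 2 * c := by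
    intro g z c
    ring
  -- first form
  set b1 : ℂ → ℂ →L[ℝ] ℝ := fun z => (fderiv ℝ F (z, z)).comp
    ((ContinuousLinearMap.id ℝ ℂ).prod (ContinuousLinearMap.id ℝ ℂ)) with hb1
  set b2 : ℂ → ℂ →L[ℝ] ℝ := fun z => (fderiv ℝ F (z, z)).comp
    (ContinuousLinearMap.inr ℝ ℂ ℂ) with hb2
  have hb1s : ∀ z ∈ HH, ContDiffAt ℝ ∞ b1 z := fun z hz =>
    (hsm z hz).clm_comp contDiffAt_const
  have hb2s : ∀ z ∈ HH, ContDiffAt ℝ ∞ b2 z := fun z hz =>
    (hsm z hz).clm_comp contDiffAt_const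
  have hinv1 : InvOne b1 := by
    intro g hg z hz k
    have h1 := inv_fderiv hF hs hg hg (hd z hz) (k, k)
    rw [fderiv_mm g g (hd z hz)] at h1
    simp only at h1
    rw [hjj g z k] at h1
    exact h1
  have hinv2 : InvOne b2 := by
    intro g hg z hz k
    have h1 := inv_fderiv hF hs hg hg (hd z hz) (0, k)
    rw [fderiv_mm g g (hd z hz)] at h1
    simp only [zero_div] at h1
    rw [hjj g z k] at h1
    exact h1
  have hdv1 : ∀ z ∈ HH, dv b1 z = D2 z (1, 1) (1, 1) + D2 z (Complex.I, Complex.I)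
      (Complex.I, Complex.I) := by
    intro z hz
    unfold dv
    have e1 : ∀ a : ℂ, (fun w => b1 w a) = fun w : ℂ => fderiv ℝ F (w, w) (a, a) := fun a => rfl
    rw [e1, e1, second_fderiv (hs _ (hd z hz)), second_fderiv (hs _ (hd z hz))]
  have hdv2 : ∀ z ∈ HH, dv b2 z = D2 z (1, 1) (0, 1) + D2 z (Complex.I, Complex.I)
      (0, Complex.I) := by
    intro z hz
    unfold dv
    have e1 : ∀ a : ℂ, (fun w => b2 w a) = fun w : ℂ => fderiv ℝ F (w, w) (0, a) := fun a => rfl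
    rw [e1, e1, second_fderiv (hs _ (hd z hz)), second_fderiv (hs _ (hd z hz))]
  -- the inequality on the diagonal, in the direction (1, 1 + s)
  have hineq : ∀ z ∈ HH, ∀ s : ℝ, 0 ≤ (-s + (64 - 1 / 2) * s ^ 2) / z.im ^ 2 +
      (dv b1 z + 2 * s * dv b2 z + s ^ 2 * (D2 z (0, 1) (0, 1) +
        D2 z (0, Complex.I) (0, Complex.I))) := by
    intro z hz s
    have h1 := h (z, z) (hd z hz) (1, 1 + (s : ℂ))
    rw [tht_diag hz, leviForm_eq (hs _ (hd z hz))] at h1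
    have hv : ((1, 1 + (s : ℂ)) : C2) = (1, 1) + s • ((0, 1) : C2) := by
      ext <;> simp
    have hv' : (Complex.I • ((1, 1 + (s : ℂ)) : C2)) = (Complex.I, Complex.I) +
        s • ((0, Complex.I) : C2) := by
      refine Prod.ext (by simp) ?_
      simp
      ring
    rw [hv'] at h1
    rw [hv] at h1
    simp only [map_add, map_smul, add_apply, smul_apply, smul_eq_mul] at h1
    have s1 := symm2 (hs _ (hd z hz)) (0, 1) (1, 1)
    have s2 := symm2 (hs _ (hd z hz)) (0, Complex.I) (Complex.I, Complex.I)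
    rw [s1, s2] at h1
    rw [hdv1 z hz, hdv2 z hz]
    have e1 : (1 / 2 * ((((1 : ℂ), (1 : ℂ)) + s • ((0 : ℂ), (1 : ℂ))).1.re ^ 2 +
        (((1 : ℂ), (1 : ℂ)) + s • ((0 : ℂ), (1 : ℂ))).1.im ^ 2 -
        ((((1 : ℂ), (1 : ℂ)) + s • ((0 : ℂ), (1 : ℂ))).2.re ^ 2 +
        (((1 : ℂ), (1 : ℂ)) + s • ((0 : ℂ), (1 : ℂ))).2.im ^ 2)) +
        64 * (((((1 : ℂ), (1 : ℂ)) + s • ((0 : ℂ), (1 : ℂ))).1.re -
        (((1 : ℂ), (1 : ℂ)) + s • ((0 : ℂ), (1 : ℂ))).2.re) ^ 2 +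
        ((((1 : ℂ), (1 : ℂ)) + s • ((0 : ℂ), (1 : ℂ))).1.im -
        (((1 : ℂ), (1 : ℂ)) + s • ((0 : ℂ), (1 : ℂ))).2.im) ^ 2)) =
        -s + (64 - 1 / 2) * s ^ 2 := by
      simp
      ring
    rw [e1] at h1
    rw [hD2]
    simp only
    linarith
  have h1z : ∀ z ∈ HH, 0 ≤ dv b1 z := by
    intro z hz
    have := hineq z hz 0
    simpa using this
  have h1 := stokes hb1s hinv1 h1z
  have hB : ∀ z ∈ HH, dv b2 z = 1 / (2 * z.im ^ 2) := by
    intro z hz
    have hy : 0 < z.im := hz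
    have h2 : ∀ s : ℝ, 0 ≤ (2 * dv b2 z - 1 / z.im ^ 2) * s + ((64 - 1 / 2) / z.im ^ 2 +
        (D2 z (0, 1) (0, 1) + D2 z (0, Complex.I) (0, Complex.I))) * s ^ 2 := by
      intro s
      have h3 := hineq z hz s
      rw [h1 z hz] at h3
      have e : (-s + (64 - 1 / 2) * s ^ 2) / z.im ^ 2 +
          (0 + 2 * s * dv b2 z + s ^ 2 * (D2 z (0, 1) (0, 1) +
          D2 z (0, Complex.I) (0, Complex.I))) =
          (2 * dv b2 z - 1 / z.im ^ 2) * s + ((64 - 1 / 2) / z.im ^ 2 +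
          (D2 z (0, 1) (0, 1) + D2 z (0, Complex.I) (0, Complex.I))) * s ^ 2 := by
        field_simp
        ring
      rw [e] at h3
      exact h3
    set A := 2 * dv b2 z - 1 / z.im ^ 2 with hA
    set C := (64 - 1 / 2) / z.im ^ 2 + (D2 z (0, 1) (0, 1) +
      D2 z (0, Complex.I) (0, Complex.I)) with hC
    have hA0 : A = 0 := by
      by_contra hne
      have hK : 0 < |C| + 1 := by positivity
      have h3 := h2 (-A / (2 * (|C| + 1)))
      have h4 : C * (-A / (2 * (|C| + 1))) ^ 2 ≤ (|C| + 1) * (-A / (2 * (|C| + 1))) ^ 2 := by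
        apply mul_le_mul_of_nonneg_right _ (sq_nonneg _)
        have := le_abs_self C
        linarith
      have h5 : A * (-A / (2 * (|C| + 1))) + (|C| + 1) * (-A / (2 * (|C| + 1))) ^ 2 =
          -(A ^ 2 / (4 * (|C| + 1))) := by
        field_simp
        ring
      have h6 : 0 < A ^ 2 / (4 * (|C| + 1)) := by positivity
      linarith
    have h3 : 2 * dv b2 z = 1 / z.im ^ 2 := by linarith
    have h4 : dv b2 z = 1 / z.im ^ 2 / 2 := by linarith
    rw [h4]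
    field_simp
  have h2z : ∀ z ∈ HH, 0 ≤ dv b2 z := by
    intro z hz
    rw [hB z hz]
    positivity
  have h2 := stokes hb2s hinv2 h2z
  have hI : Complex.I ∈ HH := by
    change 0 < Complex.I.im
    simp
  have h3 := h2 _ hI
  rw [hB _ hI] at h3
  simp at h3

/-- the class of `thX` has no smooth semipositive representative -/
theorem thX_not_semipositive : ¬ ∃ θ', XX.SameClass thX θ' ∧ ∀ x v, 0 ≤ θ' x v := by
  rintro ⟨θ', ⟨f, hf, hθ⟩, hpos⟩
  refine no_semipositive (F := up f) (up_inv f) ?_ ?_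
  · intro p hp
    exact up_smooth compact_G2 connected_G2 hf hp
  · intro p hp v
    refine lift_ineq compact_G2 connected_G2 (tht_inv reg0) hf ?_ hp v
    intro q v
    have h1 := hpos q v
    rw [hθ q v] at h1
    exact h1

end Pool.Agent.TH613.NB
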