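import Pool.Agent.TH613.NB.Levi

/-!
# Weakly plurisubharmonic functions
-/

set_option autoImplicit false

open scoped Manifold ContDiff Topology
open Set Filter MeasureTheory

namespace Pool.Agent.TH613.NB

theorem int_mul {u ψ : C2 → ℝ} {V : Set C2} (hu : LocallyIntegrableOn u V) (hψ : Continuous ψ)
    (hc : HasCompactSupport ψ) (hs : tsupport ψ ⊆ V) : Integrable (fun y => u y * ψ y) := by
  have h1 : IntegrableOn u (tsupport ψ) := hu.integrableOn_compact_subset hs hc
  have h2 : IntegrableOn (fun y => u y * ψ y) (tsupport ψ) :=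
    h1.mul_continuousOn hψ.continuousOn hc
  rwa [integrableOn_iff_integrable_of_support_subset] at h2
  intro y hy
  apply subset_tsupport ψ
  intro h0
  apply hy
  simp [h0]

/-- continuity of the directional derivatives -/
theorem dir_contDiff {χ : C2 → ℝ} (hχ : ContDiff ℝ ∞ χ) (a : C2) :
    ContDiff ℝ ∞ (fun w => fderiv ℝ χ w a) :=
  (hχ.fderiv_right (m := ∞) (by norm_cast)).clm_apply contDiff_const

theorem dir_tsupport (χ : C2 → ℝ) (a : C2) :
    tsupport (fun w => fderiv ℝ χ w a) ⊆ tsupport χ := by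
  refine closure_minimal ?_ (isClosed_tsupport χ)
  intro w hw
  by_contra h
  apply hw
  have : fderiv ℝ χ w = 0 := by
    have h1 : χ =ᶠ[𝓝 w] fun _ => 0 := notMem_tsupport_iff_eventuallyEq.1 h
    rw [h1.fderiv_eq]
    simp
  simp [this]

theorem dir_compact {χ : C2 → ℝ} (hχ : HasCompactSupport χ) (a : C2) :
    HasCompactSupport (fun w => fderiv ℝ χ w a) :=
  hχ.of_isClosed_subset (isClosed_tsupport _) (dir_tsupport χ a)

theorem locInt_of_cont {u : C2 → ℝ} {V : Set C2} (hV : IsOpen V)
    (hu : ∀ p ∈ V, ContinuousAt u p) : LocallyIntegrableOn u V :=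
  ContinuousOn.locallyIntegrableOn (fun p hp => (hu p hp).continuousWithinAt) hV.measurableSet

instance haarC2 : (volume : Measure C2).IsAddHaarMeasure :=
  Measure.prod.instIsAddHaarMeasure (volume : Measure ℂ) (volume : Measure ℂ)

/-- integration by parts twice in the direction `a` -/
theorem by_parts {u χ : C2 → ℝ} {V : Set C2} (hV : IsOpen V)
    (hu : ∀ p ∈ V, ContDiffAt ℝ ∞ u p) (hχ : ContDiff ℝ ∞ χ) (hc : HasCompactSupport χ)
    (hs : tsupport χ ⊆ V) (a : C2) :
    ∫ y, u y * fderiv ℝ (fun w => fderiv ℝ χ w a) y a =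
      ∫ y, fderiv ℝ (fun w => fderiv ℝ u w a) y a * χ y := by
  have hu1 : ∀ p ∈ V, ContDiffAt ℝ ∞ (fun w => fderiv ℝ u w a) p := fun p hp =>
    ((hu p hp).fderiv_right (m := ∞) (by norm_cast)).clm_apply contDiffAt_const
  have hu2 : ∀ p ∈ V, ContDiffAt ℝ ∞ (fun w => fderiv ℝ (fun w => fderiv ℝ u w a) w a) p :=
    fun p hp => ((hu1 p hp).fderiv_right (m := ∞) (by norm_cast)).clm_apply contDiffAt_const
  have l0 := locInt_of_cont hV fun p hp => (hu p hp).continuousAt
  have l1 := locInt_of_cont hV fun p hp => (hu1 p hp).continuousAt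
  have l2 := locInt_of_cont hV fun p hp => (hu2 p hp).continuousAt
  have hχ1 := dir_contDiff hχ a
  have hχ2 := dir_contDiff hχ1 a
  have s1 := (dir_tsupport χ a).trans hs
  have s2 := (dir_tsupport (fun w => fderiv ℝ χ w a) a).trans s1
  have c1 := dir_compact hc a
  have c2 := dir_compact c1 a
  have e1 := integral_mul_fderiv_eq_neg_fderiv_mul_of_integrable (μ := volume) (f := u)
    (g := fun w => fderiv ℝ χ w a) (v := a) (int_mul l1 hχ1.continuous c1 s1)
    (int_mul l0 hχ2.continuous c2 s2) (int_mul l0 hχ1.continuous c1 s1)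
    (fun x hx => (hu x (s1 hx)).differentiableAt (by simp))
    (fun x _ => (hχ1.differentiable (by simp)) x)
  have e2 := integral_mul_fderiv_eq_neg_fderiv_mul_of_integrable (μ := volume)
    (f := fun w => fderiv ℝ u w a) (g := χ) (v := a) (int_mul l2 hχ.continuous hc hs)
    (int_mul l1 hχ1.continuous c1 s1) (int_mul l1 hχ.continuous hc hs)
    (fun x hx => (hu1 x (hs hx)).differentiableAt (by simp))
    (fun x _ => (hχ.differentiable (by simp)) x)
  rw [e1, e2, neg_neg]

theorem leviForm_test_cont {χ : C2 → ℝ} (hχ : ContDiff ℝ ∞ χ) (v : C2) :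
    Continuous (fun y => leviForm χ y v) := by
  unfold leviForm
  exact ((dir_contDiff (dir_contDiff hχ v) v).continuous).add
    ((dir_contDiff (dir_contDiff hχ _) _).continuous)

theorem leviForm_test_supp (χ : C2 → ℝ) (v : C2) :
    tsupport (fun y => leviForm χ y v) ⊆ tsupport χ := by
  refine closure_minimal ?_ (isClosed_tsupport χ)
  intro w hw
  by_contra h
  apply hw
  have h1 : χ =ᶠ[𝓝 w] fun _ => 0 := notMem_tsupport_iff_eventuallyEq.1 h
  change leviForm χ w v = 0
  rw [leviForm_congr h1]
  unfold leviForm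
  simp

/-- smooth functions with nonnegative Levi form are weakly plurisubharmonic -/
theorem weaklyPsh_of_smooth {u : C2 → ℝ} {V : Set C2} (hV : IsOpen V)
    (hu : ∀ p ∈ V, ContDiffAt ℝ ∞ u p) (hl : ∀ p ∈ V, ∀ v, 0 ≤ leviForm u p v) :
    IsWeaklyPsh u V := by
  have l0 := locInt_of_cont hV fun p hp => (hu p hp).continuousAt
  refine ⟨l0, fun χ hχ hc hs h0 v => ?_⟩
  have hχ1 : ∀ a, _ := fun a => dir_contDiff hχ a
  have s1 : ∀ a, tsupport (fun w => fderiv ℝ χ w a) ⊆ V := fun a => (dir_tsupport χ a).trans hs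
  have hint : ∀ a, Integrable (fun y => u y * fderiv ℝ (fun w => fderiv ℝ χ w a) y a) :=
    fun a => int_mul l0 (dir_contDiff (hχ1 a) a).continuous (dir_compact (dir_compact hc a) a)
      ((dir_tsupport _ a).trans (s1 a))
  have e1 : ∫ y, u y * leviForm χ y v =
      ∫ y, fderiv ℝ (fun w => fderiv ℝ u w v) y v * χ y +
        fderiv ℝ (fun w => fderiv ℝ u w (Complex.I • v)) y (Complex.I • v) * χ y := by
    unfold leviForm
    simp only [mul_add]
    rw [integral_add (hint v) (hint _), by_parts hV hu hχ hc hs v,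
      by_parts hV hu hχ hc hs (Complex.I • v), integral_add]
    · have hu1 : ∀ a, ∀ p ∈ V, ContDiffAt ℝ ∞ (fun w => fderiv ℝ u w a) p := fun a p hp =>
        ((hu p hp).fderiv_right (m := ∞) (by norm_cast)).clm_apply contDiffAt_const
      have hu2 : ∀ a, ∀ p ∈ V,
          ContDiffAt ℝ ∞ (fun w => fderiv ℝ (fun w => fderiv ℝ u w a) w a) p :=
        fun a p hp =>
          ((hu1 a p hp).fderiv_right (m := ∞) (by norm_cast)).clm_apply contDiffAt_const
      exact int_mul (locInt_of_cont hV fun p hp => (hu2 v p hp).continuousAt) hχ.continuous hc hs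
    · have hu1 : ∀ a, ∀ p ∈ V, ContDiffAt ℝ ∞ (fun w => fderiv ℝ u w a) p := fun a p hp =>
        ((hu p hp).fderiv_right (m := ∞) (by norm_cast)).clm_apply contDiffAt_const
      have hu2 : ∀ a, ∀ p ∈ V,
          ContDiffAt ℝ ∞ (fun w => fderiv ℝ (fun w => fderiv ℝ u w a) w a) p :=
        fun a p hp =>
          ((hu1 a p hp).fderiv_right (m := ∞) (by norm_cast)).clm_apply contDiffAt_const
      exact int_mul (locInt_of_cont hV fun p hp => (hu2 (Complex.I • v) p hp).continuousAt)
        hχ.continuous hc hs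
  rw [e1]
  apply integral_nonneg
  intro y
  change 0 ≤ fderiv ℝ (fun w => fderiv ℝ u w v) y v * χ y +
    fderiv ℝ (fun w => fderiv ℝ u w (Complex.I • v)) y (Complex.I • v) * χ y
  rw [← add_mul]
  by_cases hy : y ∈ V
  · exact mul_nonneg (hl y hy v) (h0 y)
  · have : χ y = 0 := by
      by_contra h
      exact hy (hs (subset_tsupport χ h))
    rw [this, mul_zero]

/-- limits of weakly plurisubharmonic functions, dominated by a locally integrable function -/
theorem weaklyPsh_lim {u : ℕ → C2 → ℝ} {U g : C2 → ℝ} {V : Set C2} (hV : IsOpen V)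
    (hu : ∀ n, IsWeaklyPsh (u n) V) (hg : LocallyIntegrableOn g V)
    (hb : ∀ n, ∀ᵐ p ∂(volume.restrict V), |u n p| ≤ g p)
    (hlim : ∀ᵐ p ∂(volume.restrict V), Tendsto (fun n => u n p) atTop (𝓝 (U p))) :
    IsWeaklyPsh U V := by
  have hm : ∀ n, AEStronglyMeasurable (u n) (volume.restrict V) := fun n =>
    (hu n).1.aestronglyMeasurable
  have hUm : AEStronglyMeasurable U (volume.restrict V) :=
    aestronglyMeasurable_of_tendsto_ae atTop hm hlim
  have hUb : ∀ᵐ p ∂(volume.restrict V), |U p| ≤ g p := by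
    filter_upwards [ae_all_iff.2 hb, hlim] with p h1 h2
    exact le_of_tendsto (h2.abs) (Eventually.of_forall h1)
  refine ⟨?_, fun χ hχ hc hs h0 v => ?_⟩
  · rw [locallyIntegrableOn_iff hV.isLocallyClosed]
    intro K hK hKc
    have h1 : IntegrableOn g K := hg.integrableOn_compact_subset hK hKc
    refine Integrable.mono h1 (hUm.mono_measure (Measure.restrict_mono hK le_rfl)) ?_
    filter_upwards [ae_mono (Measure.restrict_mono hK le_rfl) hUb] with p hp
    rw [Real.norm_eq_abs, Real.norm_eq_abs]
    exact hp.trans (le_abs_self _)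
  · set ψ : C2 → ℝ := fun y => leviForm χ y v with hψ
    have hψc : Continuous ψ := leviForm_test_cont hχ v
    have hψs : tsupport ψ ⊆ V := (leviForm_test_supp χ v).trans hs
    have hψk : HasCompactSupport ψ :=
      hc.of_isClosed_subset (isClosed_tsupport _) (leviForm_test_supp χ v)
    have hz : ∀ y, y ∉ V → ψ y = 0 := by
      intro y hy
      by_contra h
      exact hy (hψs (subset_tsupport ψ h))
    have e : ∀ w : C2 → ℝ, ∫ y, w y * ψ y = ∫ y in V, w y * ψ y := by
      intro w
      rw [setIntegral_eq_integral_of_forall_compl_eq_zero]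
      intro y hy
      rw [hz y hy, mul_zero]
    have hgi : Integrable (fun y => g y * |ψ y|) (volume.restrict V) := by
      refine (int_mul hg hψc.abs ?_ ?_).restrict
      · exact hψk.comp_left (g := fun x : ℝ => |x|) abs_zero
      · refine (closure_mono ?_).trans hψs
        intro y hy hy'
        apply hy
        change |ψ y| = 0
        rw [hy', abs_zero]
    have hT : Tendsto (fun n => ∫ y in V, u n y * ψ y) atTop (𝓝 (∫ y in V, U y * ψ y)) := by
      refine tendsto_integral_of_dominated_convergence (fun y => g y * |ψ y|) ?_ hgi ?_ ?_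
      · intro n
        exact (hm n).mul hψc.aestronglyMeasurable
      · intro n
        filter_upwards [hb n] with y hy
        rw [norm_mul, Real.norm_eq_abs, Real.norm_eq_abs]
        exact mul_le_mul_of_nonneg_right hy (abs_nonneg _)
      · filter_upwards [hlim] with y hy
        exact hy.mul_const _
    change 0 ≤ ∫ y, U y * ψ y
    rw [e U]
    refine ge_of_tendsto' hT fun n => ?_
    rw [← e (u n)]
    exact (hu n).2 χ hχ hc hs h0 v

/-- local integrability of the logarithm in the plane -/
theorem locInt_log : LocallyIntegrable (fun z : ℂ => Real.log ‖z‖) := by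
  rw [locallyIntegrable_iff]
  intro K hK
  obtain ⟨R, hR⟩ := hK.isBounded.subset_ball 0
  refine IntegrableOn.mono_set ?_ hR
  rw [integrableOn_fun_norm_addHaar (volume : Measure ℂ) (f := Real.log)]
  have : ContinuousOn (fun y : ℝ => y * Real.log y) (Icc 0 R) :=
    Real.continuous_mul_log.continuousOn
  have h := this.integrableOn_Icc (μ := volume)
  refine (h.mono_set Ioo_subset_Icc_self).congr_fun ?_ measurableSet_Ioo
  intro y _
  simp [Complex.finrank_real_complex]

/-- the shear `(z, w) ↦ (z, w - h z)` preserves the measure -/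
theorem shear_mp {h : ℂ → ℂ} (hh : Measurable h) :
    MeasurePreserving (fun p : C2 => (p.1, p.2 - h p.1)) volume volume := by
  have h0 : Measurable (Function.uncurry fun a c : ℂ => c - h a) :=
    measurable_snd.sub (hh.comp measurable_fst)
  exact MeasurePreserving.skew_product (μa := (volume : Measure ℂ)) (μb := (volume : Measure ℂ))
    (μc := (volume : Measure ℂ)) (μd := (volume : Measure ℂ)) (f := id)
    (g := fun a c : ℂ => c - h a) (MeasurePreserving.id _) h0
    (Eventually.of_forall fun a => (measurePreserving_sub_right volume (h a)).map_eq)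

/-- local integrability of `log |w - h(z)|` -/
theorem locInt_log_graph {h : ℂ → ℂ} (hh : Measurable h) {V : Set C2} (hV : IsOpen V)
    (hc : ContinuousOn (fun p : C2 => h p.1) V) :
    LocallyIntegrableOn (fun p : C2 => Real.log ‖p.2 - h p.1‖) V := by
  rw [locallyIntegrableOn_iff hV.isLocallyClosed]
  intro K hK hKc
  set Φ : C2 → C2 := fun p => (p.1, p.2 - h p.1) with hΦ
  have hΦc : ContinuousOn Φ K :=
    continuousOn_fst.prodMk (continuousOn_snd.sub (hc.mono hK))
  have hK2 : IsCompact (Φ '' K) := hKc.image_of_continuousOn hΦc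
  obtain ⟨R, hR⟩ := hK2.isBounded.subset_closedBall 0
  have hR' : Φ '' K ⊆ Metric.closedBall (0 : ℂ) R ×ˢ Metric.closedBall (0 : ℂ) R := by
    refine hR.trans ?_
    intro p hp
    rw [Metric.mem_closedBall, dist_zero_right] at hp
    exact ⟨by simpa using (norm_fst_le p).trans hp, by simpa using (norm_snd_le p).trans hp⟩
  have hint : IntegrableOn (fun p : C2 => Real.log ‖p.2‖)
      (Metric.closedBall (0 : ℂ) R ×ˢ Metric.closedBall (0 : ℂ) R) := by
    have h1 : IntegrableOn (fun _ : ℂ => (1 : ℝ)) (Metric.closedBall (0 : ℂ) R) :=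
      integrableOn_const (measure_closedBall_lt_top.ne)
    have h2 : IntegrableOn (fun z : ℂ => Real.log ‖z‖) (Metric.closedBall (0 : ℂ) R) :=
      (locallyIntegrable_iff.1 locInt_log) _ (isCompact_closedBall _ _)
    have h3 := Integrable.mul_prod h1 h2
    rw [Measure.prod_restrict] at h3
    simp only [one_mul] at h3
    exact h3
  have hind : Integrable (indicator (Metric.closedBall (0 : ℂ) R ×ˢ Metric.closedBall (0 : ℂ) R)
      (fun p : C2 => Real.log ‖p.2‖)) :=
    (integrable_indicator_iff (measurableSet_closedBall.prod measurableSet_closedBall)).2 hint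
  have hcomp := (shear_mp hh).integrable_comp_of_integrable hind
  refine (hcomp.integrableOn (s := K)).congr_fun ?_ hKc.measurableSet
  intro p hp
  change indicator _ _ (Φ p) = _
  rw [indicator_of_mem (hR' ⟨p, hp, rfl⟩)]

theorem ae_ne_graph {h : ℂ → ℂ} (hh : Measurable h) : ∀ᵐ p : C2, p.2 - h p.1 ≠ 0 := by
  have h1 : ∀ᵐ p : C2, p.2 ≠ 0 := by
    have h2 : (volume : Measure C2) {p : C2 | p.2 = 0} = 0 := by
      have h3 : {p : C2 | p.2 = 0} = (univ : Set ℂ) ×ˢ ({0} : Set ℂ) := by
        ext p
        simp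
      rw [h3, Measure.volume_eq_prod, Measure.prod_prod]
      simp
    rw [ae_iff]
    simpa using h2
  exact (shear_mp hh).quasiMeasurePreserving.ae h1

end Pool.Agent.TH613.NB
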