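import Pool.Agent.TH613.NB.Grp2

/-!
# The function `σ = sinh² (d/2)` and its Levi form
-/

set_option autoImplicit false

open scoped Manifold ContDiff Topology MatrixGroups UpperHalfPlane ComplexConjugate
open Set Filter TopologicalSpace

namespace Pool.Agent.TH613.NB

open Pool.Agent.W711.KC (jj nn jj_ne im_mob jj_mul nn_mul det_eq CG CG_far NN_pos)
open Pool.Agent.H85R3

/-- `sinh² (d(z, w) / 2)` -/
noncomputable def sg (p : C2) : ℝ :=
  ((p.1.re - p.2.re) ^ 2 + (p.1.im - p.2.im) ^ 2) / (4 * p.1.im * p.2.im)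

/-- the product metric -/
noncomputable def NN (p v : C2) : ℝ :=
  (v.1.re ^ 2 + v.1.im ^ 2) / p.1.im ^ 2 + (v.2.re ^ 2 + v.2.im ^ 2) / p.2.im ^ 2

/-- the mixed term -/
noncomputable def EE (p v : C2) : ℝ :=
  -((((p.1.re - p.2.re) ^ 2 - (p.1.im + p.2.im) ^ 2) * (v.1.re * v.2.re + v.1.im * v.2.im) +
    2 * (p.1.re - p.2.re) * (p.1.im + p.2.im) * (v.1.im * v.2.re - v.1.re * v.2.im)) /
      (2 * p.1.im ^ 2 * p.2.im ^ 2))

theorem fderiv_line {F : C2 → ℝ} {p u : C2} {d : ℝ} (hF : DifferentiableAt ℝ F p)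
    (h : HasDerivAt (fun s : ℝ => F (p + s • u)) d 0) : fderiv ℝ F p u = d := by
  have h1 : HasDerivAt (fun s : ℝ => p + s • u) u 0 := by
    simpa using ((hasDerivAt_id (0 : ℝ)).smul_const u).const_add p
  have h2 : HasFDerivAt F (fderiv ℝ F p) (p + (0 : ℝ) • u) := by
    rw [zero_smul, add_zero]
    exact hF.hasFDerivAt
  exact (h2.comp_hasDerivAt (0 : ℝ) h1).unique h

/-- first derivative of `sg` -/
noncomputable def sgA (p u : C2) : ℝ :=
  ((p.1.re - p.2.re) * (u.1.re - u.2.re) + (p.1.im - p.2.im) * (u.1.im - u.2.im)) /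
    (2 * p.1.im * p.2.im) -
  ((p.1.re - p.2.re) ^ 2 + (p.1.im - p.2.im) ^ 2) * (u.1.im * p.2.im + u.2.im * p.1.im) /
    (4 * p.1.im ^ 2 * p.2.im ^ 2)

/-- second derivative of `sg` -/
noncomputable def sgB (p u : C2) : ℝ :=
  ((u.1.re - u.2.re) ^ 2 + (u.1.im - u.2.im) ^ 2) / (2 * p.1.im * p.2.im) -
  2 * ((p.1.re - p.2.re) * (u.1.re - u.2.re) + (p.1.im - p.2.im) * (u.1.im - u.2.im)) *
    (u.1.im * p.2.im + u.2.im * p.1.im) / (2 * p.1.im ^ 2 * p.2.im ^ 2) +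
  ((p.1.re - p.2.re) ^ 2 + (p.1.im - p.2.im) ^ 2) * ((u.1.im * p.2.im + u.2.im * p.1.im) ^ 2 +
    (u.1.im * p.2.im) ^ 2 + (u.2.im * p.1.im) ^ 2) / (4 * p.1.im ^ 3 * p.2.im ^ 3)

theorem hasDerivAt_lin (a b : ℝ) : HasDerivAt (fun s : ℝ => a + s * b) b 0 := by
  simpa using ((hasDerivAt_id (0 : ℝ)).mul_const b).const_add a

theorem contDiffAt_re1 {p : C2} {n : WithTop ℕ∞} : ContDiffAt ℝ n (fun q : C2 => q.1.re) p :=
  Complex.reCLM.contDiff.contDiffAt.comp p contDiffAt_fst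
theorem contDiffAt_re2 {p : C2} {n : WithTop ℕ∞} : ContDiffAt ℝ n (fun q : C2 => q.2.re) p :=
  Complex.reCLM.contDiff.contDiffAt.comp p contDiffAt_snd
theorem contDiffAt_im1 {p : C2} {n : WithTop ℕ∞} : ContDiffAt ℝ n (fun q : C2 => q.1.im) p :=
  Complex.imCLM.contDiff.contDiffAt.comp p contDiffAt_fst
theorem contDiffAt_im2 {p : C2} {n : WithTop ℕ∞} : ContDiffAt ℝ n (fun q : C2 => q.2.im) p :=
  Complex.imCLM.contDiff.contDiffAt.comp p contDiffAt_snd

theorem contDiffAt_sg {p : C2} (hp : p ∈ U2) : ContDiffAt ℝ ∞ sg p := by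
  have h1 := hp.1
  have h2 := hp.2
  unfold sg
  refine ContDiffAt.div ?_ ?_ ?_
  · exact ((contDiffAt_re1.sub contDiffAt_re2).pow 2).add
      ((contDiffAt_im1.sub contDiffAt_im2).pow 2)
  · exact (contDiffAt_const.mul contDiffAt_im1).mul contDiffAt_im2
  · positivity

theorem fderiv_sg {p : C2} (hp : p ∈ U2) (u : C2) : fderiv ℝ sg p u = sgA p u := by
  have h1 := hp.1
  have h2 := hp.2
  apply fderiv_line ((contDiffAt_sg hp).differentiableAt (by simp))
  have hx : HasDerivAt (fun s : ℝ => (p.1.re - p.2.re) + s * (u.1.re - u.2.re)) _ 0 :=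
    hasDerivAt_lin _ _
  have hy : HasDerivAt (fun s : ℝ => (p.1.im - p.2.im) + s * (u.1.im - u.2.im)) _ 0 :=
    hasDerivAt_lin _ _
  have hy1 : HasDerivAt (fun s : ℝ => p.1.im + s * u.1.im) _ 0 := hasDerivAt_lin _ _
  have hy2 : HasDerivAt (fun s : ℝ => p.2.im + s * u.2.im) _ 0 := hasDerivAt_lin _ _
  have hne : 4 * (p.1.im + (0 : ℝ) * u.1.im) * (p.2.im + (0 : ℝ) * u.2.im) ≠ 0 := by
    simp only [zero_mul, add_zero]; positivity
  have h := (((hx.pow 2).add (hy.pow 2)).div ((hy1.const_mul 4).mul hy2) hne)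
  have e1 : (fun s : ℝ => sg (p + s • u)) =
      fun s : ℝ => (((p.1.re - p.2.re) + s * (u.1.re - u.2.re)) ^ 2 +
        ((p.1.im - p.2.im) + s * (u.1.im - u.2.im)) ^ 2) /
        ((4 * (p.1.im + s * u.1.im)) * (p.2.im + s * u.2.im)) := by
    funext s
    unfold sg
    simp only [Prod.fst_add, Prod.snd_add, Prod.smul_fst, Prod.smul_snd, Complex.add_re,
      Complex.add_im, Complex.real_smul, Complex.mul_re, Complex.mul_im, Complex.ofReal_re,
      Complex.ofReal_im]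
    ring_nf
  rw [e1]
  refine h.congr_deriv ?_
  simp only [Pi.add_apply, Pi.pow_apply, Pi.mul_apply, zero_mul, add_zero]
  unfold sgA
  field_simp
  ring

theorem fderiv_sgA {p : C2} (hp : p ∈ U2) (u : C2) :
    fderiv ℝ (fun w => sgA w u) p u = sgB p u := by
  have h1 := hp.1
  have h2 := hp.2
  have hdiff : DifferentiableAt ℝ (fun w => sgA w u) p := by
    have hc : ContDiffAt ℝ ∞ (fun w => sgA w u) p := by
      unfold sgA
      refine ContDiffAt.sub (ContDiffAt.div ?_ ?_ ?_) (ContDiffAt.div ?_ ?_ ?_)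
      · exact ((contDiffAt_re1.sub contDiffAt_re2).mul contDiffAt_const).add
          ((contDiffAt_im1.sub contDiffAt_im2).mul contDiffAt_const)
      · exact (contDiffAt_const.mul contDiffAt_im1).mul contDiffAt_im2
      · positivity
      · exact (((contDiffAt_re1.sub contDiffAt_re2).pow 2).add
          ((contDiffAt_im1.sub contDiffAt_im2).pow 2)).mul
          ((contDiffAt_const.mul contDiffAt_im2).add (contDiffAt_const.mul contDiffAt_im1))
      · exact (contDiffAt_const.mul (contDiffAt_im1.pow 2)).mul (contDiffAt_im2.pow 2)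
      · positivity
    exact hc.differentiableAt (by simp)
  apply fderiv_line hdiff
  have hx : HasDerivAt (fun s : ℝ => (p.1.re - p.2.re) + s * (u.1.re - u.2.re)) _ 0 :=
    hasDerivAt_lin _ _
  have hy : HasDerivAt (fun s : ℝ => (p.1.im - p.2.im) + s * (u.1.im - u.2.im)) _ 0 :=
    hasDerivAt_lin _ _
  have hy1 : HasDerivAt (fun s : ℝ => p.1.im + s * u.1.im) _ 0 := hasDerivAt_lin _ _
  have hy2 : HasDerivAt (fun s : ℝ => p.2.im + s * u.2.im) _ 0 := hasDerivAt_lin _ _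
  have hne : 2 * (p.1.im + (0 : ℝ) * u.1.im) * (p.2.im + (0 : ℝ) * u.2.im) ≠ 0 := by
    simp only [zero_mul, add_zero]; positivity
  have hne' : 4 * (p.1.im + (0 : ℝ) * u.1.im) ^ 2 * (p.2.im + (0 : ℝ) * u.2.im) ^ 2 ≠ 0 := by
    simp only [zero_mul, add_zero]; positivity
  have h := (((hx.mul_const (u.1.re - u.2.re)).add (hy.mul_const (u.1.im - u.2.im))).div
    ((hy1.const_mul 2).mul hy2) hne).sub
    ((((hx.pow 2).add (hy.pow 2)).mul ((hy2.const_mul u.1.im).add (hy1.const_mul u.2.im))).div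
      (((hy1.pow 2).const_mul 4).mul (hy2.pow 2)) hne')
  have e1 : (fun s : ℝ => sgA (p + s • u) u) =
      fun s : ℝ => (((p.1.re - p.2.re) + s * (u.1.re - u.2.re)) * (u.1.re - u.2.re) +
        ((p.1.im - p.2.im) + s * (u.1.im - u.2.im)) * (u.1.im - u.2.im)) /
        ((2 * (p.1.im + s * u.1.im)) * (p.2.im + s * u.2.im)) -
        ((((p.1.re - p.2.re) + s * (u.1.re - u.2.re)) ^ 2 +
          ((p.1.im - p.2.im) + s * (u.1.im - u.2.im)) ^ 2) *
          (u.1.im * (p.2.im + s * u.2.im) + u.2.im * (p.1.im + s * u.1.im))) /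
        ((4 * (p.1.im + s * u.1.im) ^ 2) * (p.2.im + s * u.2.im) ^ 2) := by
    funext s
    unfold sgA
    simp only [Prod.fst_add, Prod.snd_add, Prod.smul_fst, Prod.smul_snd, Complex.add_re,
      Complex.add_im, Complex.real_smul, Complex.mul_re, Complex.mul_im, Complex.ofReal_re,
      Complex.ofReal_im]
    ring_nf
  rw [e1]
  refine h.congr_deriv ?_
  simp only [Pi.add_apply, Pi.pow_apply, Pi.mul_apply, zero_mul, add_zero]
  unfold sgB
  field_simp
  ring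

theorem fderiv2_sg {p : C2} (hp : p ∈ U2) (u : C2) :
    fderiv ℝ (fun w => fderiv ℝ sg w u) p u = sgB p u := by
  have h : (fun w => fderiv ℝ sg w u) =ᶠ[𝓝 p] fun w => sgA w u := by
    filter_upwards [U2.isOpen.mem_nhds hp] with w hw using fderiv_sg hw u
  rw [h.fderiv_eq, fderiv_sgA hp]

theorem leviForm_sg {p : C2} (hp : p ∈ U2) (v : C2) :
    leviForm sg p v = (1 + 2 * sg p) * NN p v - EE p v := by
  have h1 : p.1.im ≠ 0 := hp.1.ne'
  have h2 : p.2.im ≠ 0 := hp.2.ne'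
  unfold leviForm
  rw [fderiv2_sg hp, fderiv2_sg hp]
  unfold sgB sg NN EE
  simp only [Prod.smul_fst, Prod.smul_snd, smul_eq_mul, Complex.mul_re, Complex.mul_im,
    Complex.I_re, Complex.I_im]
  field_simp
  ring

theorem grad_sg {p : C2} (hp : p ∈ U2) (v : C2) :
    fderiv ℝ sg p v ^ 2 + fderiv ℝ sg p (Complex.I • v) ^ 2 =
      sg p * ((1 + sg p) * NN p v - EE p v) := by
  have h1 : p.1.im ≠ 0 := hp.1.ne'
  have h2 : p.2.im ≠ 0 := hp.2.ne'
  rw [fderiv_sg hp, fderiv_sg hp]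
  unfold sgA sg NN EE
  simp only [Prod.smul_fst, Prod.smul_snd, smul_eq_mul, Complex.mul_re, Complex.mul_im,
    Complex.I_re, Complex.I_im]
  field_simp
  ring

/-- the Levi form of a function of `σ` -/
theorem leviForm_comp_sg {S : ℝ → ℝ} {S1 S2 : ℝ} {p : C2} (hp : p ∈ U2)
    (hS : ContDiffAt ℝ ∞ S (sg p)) (h1 : deriv S (sg p) = S1) (h2 : deriv (deriv S) (sg p) = S2)
    (v : C2) :
    leviForm (fun q => S (sg q)) p v =
      ((1 + sg p) * (S1 + sg p * S2) + sg p * S1) * NN p v - (S1 + sg p * S2) * EE p v := by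
  rw [leviForm_real_comp (contDiffAt_sg hp) hS h1 h2, grad_sg hp, leviForm_sg hp]
  ring

theorem sg_nonneg {p : C2} (hp : p ∈ U2) : 0 ≤ sg p := by
  have h1 := hp.1
  have h2 := hp.2
  unfold sg
  positivity

/-- the bound for the mixed term -/
theorem EE_abs_le {p : C2} (hp : p ∈ U2) (v : C2) {a b : ℝ} (ha : 0 ≤ a) (hb : 0 ≤ b)
    (ha2 : a ^ 2 = (v.1.re ^ 2 + v.1.im ^ 2) / p.1.im ^ 2)
    (hb2 : b ^ 2 = (v.2.re ^ 2 + v.2.im ^ 2) / p.2.im ^ 2) :
    |EE p v| ≤ 2 * (1 + sg p) * (a * b) := by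
  have h1 := hp.1
  have h2 := hp.2
  have hs := sg_nonneg hp
  apply abs_le_of_sq_le_sq _ (by positivity)
  rw [mul_pow, mul_pow, mul_pow, ha2, hb2]
  have key : (2 ^ 2 * (1 + sg p) ^ 2 * ((v.1.re ^ 2 + v.1.im ^ 2) / p.1.im ^ 2 *
      ((v.2.re ^ 2 + v.2.im ^ 2) / p.2.im ^ 2))) - EE p v ^ 2 =
      ((((p.1.re - p.2.re) ^ 2 - (p.1.im + p.2.im) ^ 2) * (v.1.im * v.2.re - v.1.re * v.2.im) -
    2 * (p.1.re - p.2.re) * (p.1.im + p.2.im) * (v.1.re * v.2.re + v.1.im * v.2.im)) /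
      (2 * p.1.im ^ 2 * p.2.im ^ 2)) ^ 2 := by
    unfold sg EE
    field_simp
    ring
  have := sq_nonneg ((((p.1.re - p.2.re) ^ 2 - (p.1.im + p.2.im) ^ 2) * (v.1.im * v.2.re - v.1.re * v.2.im) -
    2 * (p.1.re - p.2.re) * (p.1.im + p.2.im) * (v.1.re * v.2.re + v.1.im * v.2.im)) /
      (2 * p.1.im ^ 2 * p.2.im ^ 2))
  linarith

end Pool.Agent.TH613.NB
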