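import Pool.Agent.TH613.NB.Sig

/-!
# `σ` and the hyperbolic distance; the functions `σ(z, γw)`
-/

set_option autoImplicit false

open scoped Manifold ContDiff Topology MatrixGroups UpperHalfPlane ComplexConjugate
open Set Filter TopologicalSpace

namespace Pool.Agent.TH613.NB

open Pool.Agent.W711.KC (jj nn jj_ne im_mob jj_mul nn_mul det_eq CG CG_far NN_pos)
open Pool.Agent.H85R3

theorem leviForm_fst_im (p v : C2) : leviForm (fun q : C2 => q.1.im) p v = 0 := by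
  have h : ∀ w u : C2, fderiv ℝ (fun q : C2 => q.1.im) w u = u.1.im := by
    intro w u
    have : (fun q : C2 => q.1.im) = (Complex.imCLM.comp (ContinuousLinearMap.fst ℝ ℂ ℂ)) := rfl
    rw [this, ContinuousLinearMap.fderiv]
    rfl
  unfold leviForm
  simp only [h]
  simp

theorem leviForm_snd_im (p v : C2) : leviForm (fun q : C2 => q.2.im) p v = 0 := by
  have h : ∀ w u : C2, fderiv ℝ (fun q : C2 => q.2.im) w u = u.2.im := by
    intro w u
    have : (fun q : C2 => q.2.im) = (Complex.imCLM.comp (ContinuousLinearMap.snd ℝ ℂ ℂ)) := rfl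
    rw [this, ContinuousLinearMap.fderiv]
    rfl
  unfold leviForm
  simp only [h]
  simp

theorem leviForm_log1 {p : C2} (hp : p ∈ U2) (v : C2) :
    leviForm (fun q : C2 => Real.log q.1.im) p v =
      -((v.1.re ^ 2 + v.1.im ^ 2) / p.1.im ^ 2) := by
  have h1 : p.1.im ≠ 0 := hp.1.ne'
  have hf : ∀ u : C2, fderiv ℝ (fun q : C2 => q.1.im) p u = u.1.im := by
    intro u
    have : (fun q : C2 => q.1.im) = (Complex.imCLM.comp (ContinuousLinearMap.fst ℝ ℂ ℂ)) := rfl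
    rw [this, ContinuousLinearMap.fderiv]
    rfl
  rw [leviForm_real_comp (S := Real.log) (φ := fun q : C2 => q.1.im) (S1 := p.1.im⁻¹)
    (S2 := -(p.1.im ^ 2)⁻¹) contDiffAt_im1 (Real.contDiffAt_log.2 h1) (Real.deriv_log _)
    (by rw [Real.deriv_log', deriv_inv']), leviForm_fst_im, hf, hf]
  simp only [Prod.smul_fst, smul_eq_mul, Complex.mul_im, Complex.I_re, Complex.I_im]
  field_simp
  ring

theorem leviForm_log2 {p : C2} (hp : p ∈ U2) (v : C2) :
    leviForm (fun q : C2 => Real.log q.2.im) p v =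
      -((v.2.re ^ 2 + v.2.im ^ 2) / p.2.im ^ 2) := by
  have h1 : p.2.im ≠ 0 := hp.2.ne'
  have hf : ∀ u : C2, fderiv ℝ (fun q : C2 => q.2.im) p u = u.2.im := by
    intro u
    have : (fun q : C2 => q.2.im) = (Complex.imCLM.comp (ContinuousLinearMap.snd ℝ ℂ ℂ)) := rfl
    rw [this, ContinuousLinearMap.fderiv]
    rfl
  rw [leviForm_real_comp (S := Real.log) (φ := fun q : C2 => q.2.im) (S1 := p.2.im⁻¹)
    (S2 := -(p.2.im ^ 2)⁻¹) contDiffAt_im2 (Real.contDiffAt_log.2 h1) (Real.deriv_log _)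
    (by rw [Real.deriv_log', deriv_inv']), leviForm_snd_im, hf, hf]
  simp only [Prod.smul_snd, smul_eq_mul, Complex.mul_im, Complex.I_re, Complex.I_im]
  field_simp
  ring

theorem contDiffAt_log1 {p : C2} (hp : p ∈ U2) :
    ContDiffAt ℝ ∞ (fun q : C2 => Real.log q.1.im) p :=
  contDiffAt_im1.log hp.1.ne'

theorem contDiffAt_log2 {p : C2} (hp : p ∈ U2) :
    ContDiffAt ℝ ∞ (fun q : C2 => Real.log q.2.im) p :=
  contDiffAt_im2.log hp.2.ne'

/-- `a log Im z + b log Im w` -/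
noncomputable def lg (a b : ℝ) (p : C2) : ℝ := a * Real.log p.1.im + b * Real.log p.2.im

theorem contDiffAt_lg (a b : ℝ) {p : C2} (hp : p ∈ U2) : ContDiffAt ℝ ∞ (lg a b) p :=
  (contDiffAt_const.mul (contDiffAt_log1 hp)).add (contDiffAt_const.mul (contDiffAt_log2 hp))

theorem leviForm_lg (a b : ℝ) {p : C2} (hp : p ∈ U2) (v : C2) :
    leviForm (lg a b) p v = -(a * ((v.1.re ^ 2 + v.1.im ^ 2) / p.1.im ^ 2)) -
      b * ((v.2.re ^ 2 + v.2.im ^ 2) / p.2.im ^ 2) := by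
  unfold lg
  rw [leviForm_add (contDiffAt_const.mul (contDiffAt_log1 hp))
    (contDiffAt_const.mul (contDiffAt_log2 hp)), leviForm_const_mul (contDiffAt_log1 hp),
    leviForm_const_mul (contDiffAt_log2 hp), leviForm_log1 hp, leviForm_log2 hp]
  ring

/-! ### distances -/

/-- hyperbolic distance of two points of `ℂ` (meaningful in the upper half plane) -/
noncomputable def hd (z w : ℂ) : ℝ := 2 * Real.arsinh (Real.sqrt (sg (z, w)))

theorem sg_eq (z w : ℍ) : sg ((z : ℂ), (w : ℂ)) = Real.sinh (dist z w / 2) ^ 2 := by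
  have h1 := z.im_pos
  have h2 := w.im_pos
  rw [UpperHalfPlane.sinh_half_dist, div_pow, mul_pow, Real.sq_sqrt (by positivity),
    Complex.dist_eq, Complex.sq_norm, Complex.normSq_apply]
  unfold sg
  simp only [Complex.sub_re, Complex.sub_im, UpperHalfPlane.coe_im, UpperHalfPlane.coe_re]
  ring

theorem hd_eq (z w : ℍ) : hd z w = dist z w := by
  unfold hd
  rw [sg_eq, Real.sqrt_sq (Real.sinh_nonneg_iff.2 (by positivity)), Real.arsinh_sinh]
  ring

theorem sg_eq_hd {z w : ℂ} (hz : 0 < z.im) (hw : 0 < w.im) :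
    sg (z, w) = Real.sinh (hd z w / 2) ^ 2 := by
  have h := hd_eq ⟨z, hz⟩ ⟨w, hw⟩
  have h' := sg_eq ⟨z, hz⟩ ⟨w, hw⟩
  rw [← h] at h'
  exact h'

theorem hd_nonneg {z w : ℂ} (hz : 0 < z.im) (hw : 0 < w.im) : 0 ≤ hd z w := by
  have h := hd_eq ⟨z, hz⟩ ⟨w, hw⟩
  change hd z w = _ at h
  rw [h]
  exact dist_nonneg

theorem hd_comm {z w : ℂ} (hz : 0 < z.im) (hw : 0 < w.im) : hd z w = hd w z := by
  have h1 := hd_eq ⟨z, hz⟩ ⟨w, hw⟩
  have h2 := hd_eq ⟨w, hw⟩ ⟨z, hz⟩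
  change hd z w = _ at h1
  change hd w z = _ at h2
  rw [h1, h2, dist_comm]

theorem hd_triangle {z w u : ℂ} (hz : 0 < z.im) (hw : 0 < w.im) (hu : 0 < u.im) :
    hd z u ≤ hd z w + hd w u := by
  have h1 := hd_eq ⟨z, hz⟩ ⟨w, hw⟩
  have h2 := hd_eq ⟨w, hw⟩ ⟨u, hu⟩
  have h3 := hd_eq ⟨z, hz⟩ ⟨u, hu⟩
  change hd z w = _ at h1
  change hd w u = _ at h2
  change hd z u = _ at h3
  rw [h1, h2, h3]
  exact dist_triangle _ _ _

theorem hd_mb (g : SL(2, ℝ)) {z w : ℂ} (hz : 0 < z.im) (hw : 0 < w.im) :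
    hd (mb g z) (mb g w) = hd z w := by
  have h1 := hd_eq ⟨z, hz⟩ ⟨w, hw⟩
  have h2 := hd_eq (g • ⟨z, hz⟩) (g • ⟨w, hw⟩)
  rw [coe_smul, coe_smul, dist_smul, ← h1] at h2
  exact h2

theorem sg_mb (g : SL(2, ℝ)) {z w : ℂ} (hz : 0 < z.im) (hw : 0 < w.im) :
    sg (mb g z, mb g w) = sg (z, w) := by
  rw [sg_eq_hd (mb_im_pos g hz) (mb_im_pos g hw), sg_eq_hd hz hw, hd_mb g hz hw]

/-- a small value of `σ` gives a small distance -/
theorem hd_lt_of_sg_lt {z w : ℂ} (hz : 0 < z.im) (hw : 0 < w.im) {r : ℝ} (hr : 0 ≤ r)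
    (h : sg (z, w) < Real.sinh (r / 2) ^ 2) : hd z w < r := by
  rw [sg_eq_hd hz hw] at h
  have h1 : 0 ≤ Real.sinh (hd z w / 2) := Real.sinh_nonneg_iff.2 (by
    have := hd_nonneg hz hw; positivity)
  have h2 : 0 ≤ Real.sinh (r / 2) := Real.sinh_nonneg_iff.2 (by positivity)
  have h3 := lt_of_pow_lt_pow_left₀ 2 h2 h
  have h4 := Real.sinh_lt_sinh.1 h3
  linarith

theorem hd_lt_half {z w : ℂ} (hz : 0 < z.im) (hw : 0 < w.im) (h : sg (z, w) < 1 / 16) :
    hd z w < 1 / 2 := by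
  apply hd_lt_of_sg_lt hz hw (by norm_num)
  refine lt_of_lt_of_le h ?_
  have h1 : (1 / 4 : ℝ) ≤ Real.sinh (1 / 2 / 2) := by
    have := Real.self_le_sinh_iff.2 (show (0 : ℝ) ≤ 1 / 2 / 2 by norm_num)
    linarith
  nlinarith

/-- if `σ` takes at `(z, w)` a larger value than at nearby points... -/
theorem sg_gt_of_hd {z w : ℂ} (hz : 0 < z.im) (hw : 0 < w.im) {r : ℝ} (hr : 0 ≤ r)
    (h : r < hd z w) : Real.sinh (r / 2) ^ 2 < sg (z, w) := by
  rw [sg_eq_hd hz hw]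
  have h2 : 0 ≤ Real.sinh (r / 2) := Real.sinh_nonneg_iff.2 (by positivity)
  have h3 : Real.sinh (r / 2) < Real.sinh (hd z w / 2) := Real.sinh_lt_sinh.2 (by linarith)
  exact pow_lt_pow_left₀ h3 h2 (by norm_num)

theorem hd_ge_of_sg_ge {z w : ℂ} (hz : 0 < z.im) (hw : 0 < w.im) {r : ℝ}
    (h : Real.sinh (r / 2) ^ 2 ≤ sg (z, w)) : r ≤ hd z w := by
  by_contra hlt
  push Not at hlt
  have h1 : Real.sinh (hd z w / 2) < Real.sinh (r / 2) := Real.sinh_lt_sinh.2 (by linarith)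
  have h2 : 0 ≤ Real.sinh (hd z w / 2) := Real.sinh_nonneg_iff.2 (by
    have := hd_nonneg hz hw; positivity)
  have h3 := pow_lt_pow_left₀ h1 h2 (show (2 : ℕ) ≠ 0 by norm_num)
  rw [← sg_eq_hd hz hw] at h3
  linarith

/-! ### The functions `σ(z, γw)` -/

/-- `σ(z, γw)` -/
noncomputable def sgg (g : SL(2, ℝ)) (p : C2) : ℝ := sg (p.1, mb g p.2)

theorem sgg_eq (g : SL(2, ℝ)) (p : C2) : sgg g p = sg (mm 1 g p) := by
  unfold sgg mm
  rw [mb_one]

theorem sgg_eq' (g : SL(2, ℝ)) : sgg g = fun p => sg (mm 1 g p) := by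
  funext p
  exact sgg_eq g p

theorem contDiffAt_sgg (g : SL(2, ℝ)) {p : C2} (hp : p ∈ U2) : ContDiffAt ℝ ∞ (sgg g) p := by
  rw [sgg_eq']
  exact (contDiffAt_sg (mm_mem 1 g hp)).comp p
    (((contDiffAt_mm 1 g hp).restrict_scalars ℝ).of_le (by simp))

theorem sgg_nonneg (g : SL(2, ℝ)) {p : C2} (hp : p ∈ U2) : 0 ≤ sgg g p := by
  rw [sgg_eq]
  exact sg_nonneg (mm_mem 1 g hp)

/-- equivariance -/
theorem sgg_mm (g a b : SL(2, ℝ)) {p : C2} (hp : p ∈ U2) :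
    sgg g (mm a b p) = sgg (a⁻¹ * g * b) p := by
  unfold sgg mm
  have h1 : 0 < (mb (g * b) p.2).im := mb_im_pos _ hp.2
  rw [← mb_mul g b hp.2, ← sg_mb a⁻¹ (mb_im_pos a hp.1) h1, mb_inv_mb a hp.1,
    ← mb_mul a⁻¹ (g * b) hp.2, mul_assoc]

/-- at most one element of the group is active -/
theorem active_unique {g g' : SL(2, ℝ)} (hg : g ∈ CG) (hg' : g' ∈ CG) {p : C2} (hp : p ∈ U2)
    (h : sgg g p < 1 / 16) (h' : sgg g' p < 1 / 16) : g = g' := by
  have h1 := hd_lt_half hp.1 (mb_im_pos g hp.2) h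
  have h2 := hd_lt_half hp.1 (mb_im_pos g' hp.2) h'
  have h3 := hd_triangle (mb_im_pos g hp.2) hp.1 (mb_im_pos g' hp.2)
  rw [hd_comm (mb_im_pos g hp.2) hp.1] at h3
  refine CG_far.eq_of_dist_lt hg hg' (z := ⟨p.2, hp.2⟩) ?_
  rw [← hd_eq, coe_smul, coe_smul]
  change hd (mb g p.2) (mb g' p.2) < 1
  linarith

theorem tendsto_sg1 {p : C2} (hp : p ∈ U2) :
    Tendsto (fun q : C2 => sg (q.1, p.1)) (𝓝 p) (𝓝 0) := by
  have h1 : ContinuousAt sg (p.1, p.1) := (contDiffAt_sg (p := (p.1, p.1)) (mem_U2.2 ⟨hp.1, hp.1⟩)).continuousAt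
  have h2 : ContinuousAt (fun q : C2 => (q.1, p.1)) p := by fun_prop
  have h3 := ContinuousAt.comp (f := fun q : C2 => (q.1, p.1)) (g := sg) (x := p) h1 h2
  have h4 : sg (p.1, p.1) = 0 := by unfold sg; simp
  have h5 : Tendsto (fun q : C2 => sg (q.1, p.1)) (𝓝 p) (𝓝 (sg (p.1, p.1))) := h3
  rwa [h4] at h5

theorem tendsto_sg2 {p : C2} (hp : p ∈ U2) :
    Tendsto (fun q : C2 => sg (q.2, p.2)) (𝓝 p) (𝓝 0) := by
  have h1 : ContinuousAt sg (p.2, p.2) := (contDiffAt_sg (p := (p.2, p.2)) (mem_U2.2 ⟨hp.2, hp.2⟩)).continuousAt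
  have h2 : ContinuousAt (fun q : C2 => (q.2, p.2)) p := by fun_prop
  have h3 := ContinuousAt.comp (f := fun q : C2 => (q.2, p.2)) (g := sg) (x := p) h1 h2
  have h4 : sg (p.2, p.2) = 0 := by unfold sg; simp
  have h5 : Tendsto (fun q : C2 => sg (q.2, p.2)) (𝓝 p) (𝓝 (sg (p.2, p.2))) := h3
  rwa [h4] at h5

/-- either some element is active near the point, or all the functions are `> 1/64` nearby -/
theorem active_or {p : C2} (hp : p ∈ U2) :
    (∃ g ∈ CG, sgg g p < 1 / 16) ∨ ∀ᶠ q in 𝓝 p, ∀ g ∈ CG, 1 / 64 < sgg g q := by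
  by_cases hact : ∃ g ∈ CG, sgg g p < 1 / 16
  · exact Or.inl hact
  · right
    push Not at hact
    set r1 : ℝ := 2 * Real.arsinh (1 / 4) with hr1
    set r2 : ℝ := 2 * Real.arsinh (1 / 8) with hr2
    have e1 : Real.sinh (r1 / 2) = 1 / 4 := by
      rw [hr1, mul_div_cancel_left₀ _ (by norm_num), Real.sinh_arsinh]
    have e2 : Real.sinh (r2 / 2) = 1 / 8 := by
      rw [hr2, mul_div_cancel_left₀ _ (by norm_num), Real.sinh_arsinh]
    have h12 : r2 < r1 := by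
      have h := Real.sinh_lt_sinh.1 (show Real.sinh (r2 / 2) < Real.sinh (r1 / 2) by
        rw [e1, e2]; norm_num)
      linarith
    have hr20 : 0 ≤ r2 := by
      have : 0 ≤ Real.arsinh (1 / 8) := Real.arsinh_nonneg_iff.2 (by norm_num)
      positivity
    set η : ℝ := (r1 - r2) / 2 with hη
    have hη0 : 0 < η := by rw [hη]; linarith
    have hs : 0 < Real.sinh (η / 2) ^ 2 := by
      have : 0 < Real.sinh (η / 2) := Real.sinh_pos_iff.2 (by positivity)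
      positivity
    have t1 := (tendsto_sg1 hp).eventually (gt_mem_nhds hs)
    have t2 := (tendsto_sg2 hp).eventually (gt_mem_nhds hs)
    filter_upwards [t1, t2, U2.isOpen.mem_nhds hp] with q hq1 hq2 hqU g hg
    have d1 : hd q.1 p.1 < η := hd_lt_of_sg_lt hqU.1 hp.1 hη0.le hq1
    have d2 : hd q.2 p.2 < η := hd_lt_of_sg_lt hqU.2 hp.2 hη0.le hq2
    have d3 : r1 ≤ hd p.1 (mb g p.2) := by
      apply hd_ge_of_sg_ge hp.1 (mb_im_pos g hp.2)
      rw [e1]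
      have := hact g hg
      unfold sgg at this
      linarith
    have d4 := hd_triangle hp.1 hqU.1 (mb_im_pos g hp.2)
    have d5 := hd_triangle hqU.1 (mb_im_pos g hqU.2) (mb_im_pos g hp.2)
    rw [hd_mb g hqU.2 hp.2] at d5
    rw [hd_comm hp.1 hqU.1] at d4
    have d6 : r2 < hd q.1 (mb g q.2) := by
      rw [hη] at d1 d2
      linarith
    have d7 := sg_gt_of_hd hqU.1 (mb_im_pos g hqU.2) hr20 d6
    rw [e2] at d7
    unfold sgg
    linarith

end Pool.Agent.TH613.NB
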