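import Pool.Agent.TH613.NB.Form
import Pool.Agent.TH613.NB.Psh

/-!
# The class is nef and big
-/

set_option autoImplicit false

open scoped Manifold ContDiff Topology MatrixGroups UpperHalfPlane ComplexConjugate
open Set Filter TopologicalSpace MeasureTheory

namespace Pool.Agent.TH613.NB

open Pool.Agent.W711.KC (ex ex_apply ex_mem HolGroup QQ jj nn jj_ne im_mob jj_mul nn_mul det_eq CG
  CG_far NN_pos chart_self_mem)
open Pool.Agent.H85R3

/-- the surface -/
noncomputable def XX : CompactSurface := surf G2 compact_G2 connected_G2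

/-- the Kähler form -/
noncomputable def omX : QQ G2 → C2 → ℝ := downForm NN

/-- the form -/
noncomputable def thX : QQ G2 → C2 → ℝ := downForm (tht (SS (1 / 64)))

theorem reg0 : Reg (SS (1 / 64)) := reg_SS (by norm_num) le_rfl

theorem omX_kahler : XX.IsKahlerForm omX :=
  ⟨downForm_closed _ _ NN_form, fun q _ hv => NN_pos' (chart_self_mem (Γ := G2) q) hv⟩

theorem thX_closed : XX.IsClosedForm thX := downForm_closed _ _ (tht_form reg0)

theorem sub_far {S S' : ℝ → ℝ} (hS : Reg S) (hS' : Reg S') :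
    ∀ s, 1 / 64 ≤ s → (fun s => S' s - S s) s = 0 := by
  intro s hs
  simp only [hS.far s hs, hS'.far s hs, sub_self]

theorem thX_nef : XX.IsNef omX thX := by
  intro ε hε
  set δ : ℝ := min (1 / 64) (8 * ε) with hδ
  have h0 : 0 < δ := lt_min (by norm_num) (by positivity)
  have h1 : δ ≤ 1 / 64 := min_le_left _ _
  have h2 : δ ≤ 8 * ε := min_le_right _ _
  have hr := reg_SS h0 h1
  refine ⟨downForm (tht (SS δ)), ⟨down (ff fun s => SS δ s - SS (1 / 64) s), ?_, ?_⟩, ?_⟩
  · exact down_smooth _ _ ff_inv (ff_smooth (hr.smooth.sub reg0.smooth) (sub_far reg0 hr))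
  · intro q v
    rw [show XX.ddc (down (ff fun s => SS δ s - SS (1 / 64) s)) q v = _ from
      down_ddc _ _ ff_inv q v]
    exact (tht_add reg0 hr (chart_self_mem (Γ := G2) q) v).symm
  · intro q v
    exact tht_lower h0 h1 hε h2 (chart_self_mem (Γ := G2) q) v

/-! ### bigness -/

/-- `log (|w - h(z)|² + c)` as a composition -/
theorem levi_log_c {c : ℝ} (hc : 0 < c) (p v : C2) :
    0 ≤ leviForm (fun q : C2 => Real.log (Complex.normSq q.1 + c)) p v ∧
      ContDiffAt ℝ ∞ (fun q : C2 => Real.log (Complex.normSq q.1 + c)) p := by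
  have hns : ContDiff ℝ ∞ (fun q : C2 => Complex.normSq q.1) := by
    have : (fun q : C2 => Complex.normSq q.1) = fun q : C2 => q.1.re * q.1.re + q.1.im * q.1.im := by
      funext q
      exact Complex.normSq_apply _
    rw [this]
    exact contDiff_iff_contDiffAt.2 fun q =>
      (contDiffAt_re1.mul contDiffAt_re1).add (contDiffAt_im1.mul contDiffAt_im1)
  have hpos : 0 < Complex.normSq p.1 + c := by
    have := Complex.normSq_nonneg p.1
    linarith
  have hlogd : HasDerivAt (fun s : ℝ => Real.log (s + c)) (Complex.normSq p.1 + c)⁻¹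
      (Complex.normSq p.1) := by
    have := (Real.hasDerivAt_log hpos.ne').comp (Complex.normSq p.1)
      ((hasDerivAt_id (Complex.normSq p.1)).add_const c)
    rw [mul_one] at this
    exact this
  have hSc : ContDiffAt ℝ ∞ (fun s : ℝ => Real.log (s + c)) (Complex.normSq p.1) :=
    (contDiffAt_id.add contDiffAt_const).log hpos.ne'
  have h1 : ∀ w u : C2, fderiv ℝ (fun q : C2 => Complex.normSq q.1) w u =
      2 * (w.1.re * u.1.re + w.1.im * u.1.im) := by
    intro w u
    apply fderiv_line (hns.differentiable (by simp) w)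
    have hx : HasDerivAt (fun s : ℝ => w.1.re + s * u.1.re) _ 0 := hasDerivAt_lin _ _
    have hy : HasDerivAt (fun s : ℝ => w.1.im + s * u.1.im) _ 0 := hasDerivAt_lin _ _
    have h := (hx.mul hx).add (hy.mul hy)
    have e1 : (fun s : ℝ => Complex.normSq (w + s • u).1) =
        fun s : ℝ => (w.1.re + s * u.1.re) * (w.1.re + s * u.1.re) +
          (w.1.im + s * u.1.im) * (w.1.im + s * u.1.im) := by
      funext s
      rw [Complex.normSq_apply]
      simp only [Prod.fst_add, Prod.smul_fst, Complex.add_re,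
        Complex.add_im, Complex.real_smul, Complex.mul_re, Complex.mul_im, Complex.ofReal_re,
        Complex.ofReal_im]
      ring
    rw [e1]
    refine h.congr_deriv ?_
    ring
  have h2 : ∀ u : C2, fderiv ℝ (fun w => fderiv ℝ (fun q : C2 => Complex.normSq q.1) w u) p u =
      2 * (u.1.re ^ 2 + u.1.im ^ 2) := by
    intro u
    simp only [h1]
    have hd : Differentiable ℝ (fun w : C2 => 2 * (w.1.re * u.1.re + w.1.im * u.1.im)) := by
      have : ContDiff ℝ ∞ (fun w : C2 => 2 * (w.1.re * u.1.re + w.1.im * u.1.im)) :=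
        contDiff_iff_contDiffAt.2 fun q => contDiffAt_const.mul
          ((contDiffAt_re1.mul contDiffAt_const).add (contDiffAt_im1.mul contDiffAt_const))
      exact this.differentiable (by simp)
    apply fderiv_line (hd p)
    have hx : HasDerivAt (fun s : ℝ => p.1.re + s * u.1.re) _ 0 := hasDerivAt_lin _ _
    have hy : HasDerivAt (fun s : ℝ => p.1.im + s * u.1.im) _ 0 := hasDerivAt_lin _ _
    have h := ((hx.mul_const u.1.re).add (hy.mul_const u.1.im)).const_mul 2
    have e1 : (fun s : ℝ => 2 * ((p + s • u).1.re * u.1.re + (p + s • u).1.im * u.1.im)) =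
        fun s : ℝ => 2 * ((p.1.re + s * u.1.re) * u.1.re +
          (p.1.im + s * u.1.im) * u.1.im) := by
      funext s
      simp only [Prod.fst_add, Prod.smul_fst, Complex.add_re,
        Complex.add_im, Complex.real_smul, Complex.mul_re, Complex.mul_im, Complex.ofReal_re,
        Complex.ofReal_im]
      ring
    rw [e1]
    refine h.congr_deriv ?_
    ring
  have hlevi : leviForm (fun q : C2 => Complex.normSq q.1) p v =
      4 * (v.1.re ^ 2 + v.1.im ^ 2) := by
    unfold leviForm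
    rw [h2, h2]
    simp only [Prod.smul_fst, smul_eq_mul, Complex.mul_re, Complex.mul_im, Complex.I_re,
      Complex.I_im]
    ring
  have hd1 : deriv (fun s : ℝ => Real.log (s + c)) (Complex.normSq p.1) =
      (Complex.normSq p.1 + c)⁻¹ := hlogd.deriv
  have hd2 : deriv (deriv (fun s : ℝ => Real.log (s + c))) (Complex.normSq p.1) =
      -((Complex.normSq p.1 + c) ^ 2)⁻¹ := by
    have he : deriv (fun s : ℝ => Real.log (s + c)) = fun s => (s + c)⁻¹ := by
      funext s
      have : deriv (fun s : ℝ => Real.log (s + c)) s = deriv Real.log (s + c) := by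
        rw [deriv_comp_add_const]
      rw [this, Real.deriv_log]
    rw [he]
    have h3 : HasDerivAt (fun s : ℝ => (s + c)⁻¹) (-1 / (Complex.normSq p.1 + c) ^ 2)
        (Complex.normSq p.1) := ((hasDerivAt_id (Complex.normSq p.1)).add_const c).inv hpos.ne'
    rw [h3.deriv]
    ring
  constructor
  · rw [leviForm_real_comp (S := fun s => Real.log (s + c))
      (φ := fun q : C2 => Complex.normSq q.1) hns.contDiffAt hSc hd1 hd2 v, hlevi, h1, h1]
    simp only [Prod.smul_fst, smul_eq_mul, Complex.mul_re, Complex.mul_im, Complex.I_re,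
      Complex.I_im]
    set t := Complex.normSq p.1 with ht
    have ht' : t = p.1.re ^ 2 + p.1.im ^ 2 := by rw [ht, Complex.normSq_apply]; ring
    have e : -((t + c) ^ 2)⁻¹ * ((2 * (p.1.re * v.1.re + p.1.im * v.1.im)) ^ 2 +
        (2 * (p.1.re * (0 * v.1.re - 1 * v.1.im) + p.1.im * (0 * v.1.im + 1 * v.1.re))) ^ 2) +
        (t + c)⁻¹ * (4 * (v.1.re ^ 2 + v.1.im ^ 2)) =
        4 * c * (v.1.re ^ 2 + v.1.im ^ 2) / (t + c) ^ 2 := by
      have e0 : (2 * (p.1.re * v.1.re + p.1.im * v.1.im)) ^ 2 +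
        (2 * (p.1.re * (0 * v.1.re - 1 * v.1.im) + p.1.im * (0 * v.1.im + 1 * v.1.re))) ^ 2 =
        4 * t * (v.1.re ^ 2 + v.1.im ^ 2) := by rw [ht']; ring
      rw [e0]
      have hne := hpos.ne'
      field_simp
      ring
    rw [e]
    positivity
  · exact hSc.comp p hns.contDiffAt

/-- the holomorphic map `(z, w) ↦ (w - γ⁻¹z, 0)` -/
noncomputable def hm (g : SL(2, ℝ)) (p : C2) : C2 := (p.2 - mb g p.1, 0)

theorem hm_contDiff (g : SL(2, ℝ)) {p : C2} (hp : p ∈ U2) : ContDiffAt ℂ ω (hm g) p :=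
  (contDiffAt_snd.sub ((contDiffAt_mb g hp.1).comp p contDiffAt_fst)).prodMk contDiffAt_const

theorem measurable_mb (g : SL(2, ℝ)) : Measurable (mb g) := by
  unfold mb nn jj
  fun_prop

theorem leviForm_const (c : ℝ) (p v : C2) : leviForm (fun _ => c) p v = 0 := by
  unfold leviForm
  simp

/-- the smooth part of the potential -/
noncomputable def w0 (g : SL(2, ℝ)) (p : C2) : ℝ :=
  lg (-1 / 4) (-1 / 4) p + (-1) * Real.log (mb g p.1).im + (-Real.log 4)

theorem w0_psh (g : SL(2, ℝ)) {p : C2} (hp : p ∈ U2) :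
    ContDiffAt ℝ ∞ (w0 g) p ∧ ∀ v, 0 ≤ leviForm (w0 g) p v := by
  have h1 : ContDiffAt ℝ ∞ (lg (-1 / 4) (-1 / 4)) p := contDiffAt_lg _ _ hp
  have h2 : ContDiffAt ℝ ∞ (fun q : C2 => Real.log (mb g q.1).im) p :=
    (contDiffAt_log1 (mm_mem g 1 hp)).comp p (mm_smoothR g 1 hp)
  have h3 : ContDiffAt ℝ ∞ (fun q : C2 => (-1) * Real.log (mb g q.1).im) p :=
    contDiffAt_const.mul h2
  have h4 : ContDiffAt ℝ ∞ (fun q : C2 => lg (-1 / 4) (-1 / 4) q +
    (-1) * Real.log (mb g q.1).im) p := h1.add h3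
  refine ⟨h4.add contDiffAt_const, fun v => ?_⟩
  unfold w0
  rw [leviForm_add h4 contDiffAt_const, leviForm_add h1 h3, leviForm_const_mul h2,
    leviForm_const, leviForm_lg _ _ hp]
  have h5 : leviForm (fun q : C2 => Real.log (mb g q.1).im) p v = -n1 p v := by
    have e : (fun q : C2 => Real.log (mb g q.1).im) = (fun q : C2 => Real.log q.1.im) ∘ mm g 1 :=
      rfl
    rw [e, leviForm_comp (contDiffAt_mm g 1 hp) (contDiffAt_log1 (mm_mem g 1 hp)),
      leviForm_log1 (mm_mem g 1 hp), ← n1_mm g 1 hp v]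
    rfl
  rw [h5]
  have h6 := n1_nonneg p v
  have h7 := n2_nonneg p v
  unfold n1 at h6
  unfold n2 at h7
  unfold n1
  linarith

/-- `log σ(z, γw)`, rewritten -/
theorem log_sgg (g : SL(2, ℝ)) {p : C2} (hp : p ∈ U2) (hne : p.2 - mb g⁻¹ p.1 ≠ 0) :
    Real.log (sgg g p) = Real.log (Complex.normSq (p.2 - mb g⁻¹ p.1)) -
      Real.log (mb g⁻¹ p.1).im - Real.log p.2.im - Real.log 4 := by
  have h1 : sgg g p = sg (mb g⁻¹ p.1, p.2) := by
    unfold sgg
    rw [← sg_mb g⁻¹ hp.1 (mb_im_pos g hp.2), mb_inv_mb g hp.2]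
  have h2 := mb_im_pos g⁻¹ hp.1
  have h3 := hp.2
  have h4 : 0 < Complex.normSq (p.2 - mb g⁻¹ p.1) := Complex.normSq_pos.2 hne
  have h5 : sg (mb g⁻¹ p.1, p.2) =
      Complex.normSq (p.2 - mb g⁻¹ p.1) / (4 * (mb g⁻¹ p.1).im * p.2.im) := by
    unfold sg
    rw [Complex.normSq_apply, Complex.sub_re, Complex.sub_im]
    ring
  rw [h1, h5, Real.log_div h4.ne' (by positivity), Real.log_mul (by positivity) h3.ne',
    Real.log_mul (by norm_num) h2.ne']
  ring

/-- weak plurisubharmonicity near an active point -/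
theorem psh_active (g : SL(2, ℝ)) {V : Set C2} (hV : IsOpen V) (hVU : V ⊆ U2) :
    IsWeaklyPsh (fun p => lg (-1 / 4) (3 / 4) p + Real.log (sgg g p)) V := by
  set h : ℂ → ℂ := mb g⁻¹ with hh
  have hhm : Measurable h := measurable_mb _
  have hhc : ∀ p ∈ V, ContinuousAt (fun p : C2 => h p.1) p := fun p hp =>
    ((contDiffAt_mb g⁻¹ (hVU hp).1).continuousAt).comp continuous_fst.continuousAt
  set u : ℕ → C2 → ℝ := fun n p =>
    w0 g⁻¹ p + Real.log (Complex.normSq (p.2 - h p.1) + 1 / ((n : ℝ) + 1)) with hu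
  set G : C2 → ℝ := fun p => |w0 g⁻¹ p| + 2 * |Real.log ‖p.2 - h p.1‖| +
    Complex.normSq (p.2 - h p.1) with hG
  have hw : ∀ p ∈ V, ContinuousAt (w0 g⁻¹) p := fun p hp => (w0_psh g⁻¹ (hVU hp)).1.continuousAt
  refine weaklyPsh_lim (u := u) (g := G) hV ?_ ?_ ?_ ?_
  · intro n
    have hc : (0 : ℝ) < 1 / ((n : ℝ) + 1) := by positivity
    apply weaklyPsh_of_smooth hV
    · intro p hp
      refine (w0_psh g⁻¹ (hVU hp)).1.add ?_
      exact (levi_log_c hc _ 0).2.comp p
        (((hm_contDiff g⁻¹ (hVU hp)).restrict_scalars ℝ).of_le (by simp))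
    · intro p hp v
      have h1 : ContDiffAt ℝ ∞ (fun p : C2 => Real.log (Complex.normSq (p.2 - h p.1) +
          1 / ((n : ℝ) + 1))) p :=
        (levi_log_c hc _ 0).2.comp p
          (((hm_contDiff g⁻¹ (hVU hp)).restrict_scalars ℝ).of_le (by simp))
      rw [hu]
      simp only
      rw [leviForm_add (w0_psh g⁻¹ (hVU hp)).1 h1]
      have h2 : 0 ≤ leviForm (fun p : C2 => Real.log (Complex.normSq (p.2 - h p.1) +
          1 / ((n : ℝ) + 1))) p v := by
        have e : (fun p : C2 => Real.log (Complex.normSq (p.2 - h p.1) + 1 / ((n : ℝ) + 1))) =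
            (fun q : C2 => Real.log (Complex.normSq q.1 + 1 / ((n : ℝ) + 1))) ∘ hm g⁻¹ := rfl
        rw [e, leviForm_comp (hm_contDiff g⁻¹ (hVU hp)) (levi_log_c hc _ 0).2]
        exact (levi_log_c hc _ _).1
      exact add_nonneg ((w0_psh g⁻¹ (hVU hp)).2 v) h2
  · refine (LocallyIntegrableOn.add ?_ ?_).add ?_
    · exact locInt_of_cont hV fun p hp => (hw p hp).abs
    · have h1 := locInt_log_graph hhm hV (fun p hp => (hhc p hp).continuousWithinAt)
      intro p hp
      obtain ⟨s, hs, hs2⟩ := h1 p hp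
      exact ⟨s, hs, (hs2.abs.const_mul 2)⟩
    · apply locInt_of_cont hV
      intro p hp
      exact Complex.continuous_normSq.continuousAt.comp
        (continuous_snd.continuousAt.sub (hhc p hp))
  · intro n
    filter_upwards [ae_restrict_of_ae (ae_ne_graph hhm)] with p hp
    set t := Complex.normSq (p.2 - h p.1) with ht
    have ht0 : 0 < t := Complex.normSq_pos.2 hp
    have hc : (0 : ℝ) < 1 / ((n : ℝ) + 1) := by positivity
    have hc1 : 1 / ((n : ℝ) + 1) ≤ 1 := by
      rw [div_le_one (by positivity)]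
      have : (0 : ℝ) ≤ n := Nat.cast_nonneg n
      linarith
    have hlt : Real.log t = 2 * Real.log ‖p.2 - h p.1‖ := by
      rw [ht, Complex.normSq_eq_norm_sq, Real.log_pow]
      norm_num
    have h1 : |Real.log (t + 1 / ((n : ℝ) + 1))| ≤ 2 * |Real.log ‖p.2 - h p.1‖| + t := by
      rw [abs_le]
      constructor
      · have h2 : Real.log t ≤ Real.log (t + 1 / ((n : ℝ) + 1)) :=
          Real.log_le_log ht0 (by linarith)
        have h3 := neg_abs_le (Real.log ‖p.2 - h p.1‖)
        rw [hlt] at h2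
        linarith
      · have h2 := Real.log_le_sub_one_of_pos (show 0 < t + 1 / ((n : ℝ) + 1) by linarith)
        have h3 := abs_nonneg (Real.log ‖p.2 - h p.1‖)
        linarith
    calc |w0 g⁻¹ p + Real.log (t + 1 / ((n : ℝ) + 1))| ≤
          |w0 g⁻¹ p| + |Real.log (t + 1 / ((n : ℝ) + 1))| := abs_add_le _ _
      _ ≤ |w0 g⁻¹ p| + (2 * |Real.log ‖p.2 - h p.1‖| + t) := by linarith
      _ = G p := by rw [hG]; ring
  · filter_upwards [ae_restrict_of_ae (ae_ne_graph hhm), ae_restrict_mem hV.measurableSet]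
      with p hp hpV
    have hpU := hVU hpV
    set t := Complex.normSq (p.2 - h p.1) with ht
    have ht0 : 0 < t := Complex.normSq_pos.2 hp
    have h1 : Tendsto (fun n : ℕ => t + 1 / ((n : ℝ) + 1)) atTop (𝓝 (t + 0)) :=
      tendsto_const_nhds.add tendsto_one_div_add_atTop_nhds_zero_nat
    rw [add_zero] at h1
    have h2 : Tendsto (fun n : ℕ => w0 g⁻¹ p + Real.log (t + 1 / ((n : ℝ) + 1))) atTop
        (𝓝 (w0 g⁻¹ p + Real.log t)) :=
      tendsto_const_nhds.add (((Real.continuousAt_log ht0.ne').tendsto).comp h1)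
    have h3 : w0 g⁻¹ p + Real.log t = lg (-1 / 4) (3 / 4) p + Real.log (sgg g p) := by
      rw [log_sgg g hpU hp]
      unfold w0 lg
      ring
    rw [← h3]
    exact h2

theorem psh_far {V : Set C2} (hV : IsOpen V) (hVU : V ⊆ U2) :
    IsWeaklyPsh (lg (-5 / 4) (-1 / 4)) V := by
  apply weaklyPsh_of_smooth hV
  · intro p hp
    exact contDiffAt_lg _ _ (hVU hp)
  · intro p hp v
    rw [leviForm_lg _ _ (hVU hp)]
    have h6 := n1_nonneg p v
    have h7 := n2_nonneg p v
    unfold n1 at h6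
    unfold n2 at h7
    linarith

theorem weaklyPsh_congr {u u' : C2 → ℝ} {V V' : Set C2} (hV' : IsOpen V') (hVV : V' ⊆ V)
    (h : ∀ p ∈ V', u' p = u p) (hu : IsWeaklyPsh u V) : IsWeaklyPsh u' V' := by
  refine ⟨?_, fun χ hχ hc hs h0 v => ?_⟩
  · intro p hp
    obtain ⟨s, hs, hs2⟩ := (hu.1.mono_set hVV) p hp
    have hV'n : V' ∈ 𝓝[V'] p := self_mem_nhdsWithin
    refine ⟨s ∩ V', inter_mem hs hV'n, ?_⟩
    obtain ⟨t, ht, hts⟩ := mem_nhdsWithin_iff_exists_mem_nhds_inter.1 hs
    have h2 : IntegrableOn u (s ∩ V') := hs2.mono_set inter_subset_left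
    refine Integrable.congr h2 ?_
    have h3 : ∀ᵐ q ∂(volume.restrict (s ∩ V')), q ∈ V' :=
      ae_mono (Measure.restrict_mono inter_subset_right le_rfl) (ae_restrict_mem hV'.measurableSet)
    filter_upwards [h3] with q hq
    exact (h q hq).symm
  · have e : ∫ y, u' y * leviForm χ y v = ∫ y, u y * leviForm χ y v := by
      congr 1
      funext y
      by_cases hy : y ∈ V'
      · rw [h y hy]
      · have : leviForm χ y v = 0 := by
          by_contra hne
          exact hy (hs (leviForm_test_supp χ v (subset_tsupport (fun y => leviForm χ y v) hne)))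
        rw [this, mul_zero, mul_zero]
    rw [e]
    exact hu.2 χ hχ hc (hs.trans hVV) h0 v

/-- the function of the singular current -/
noncomputable def fX : QQ G2 → ℝ := down (ff fun s => Real.log s - SS (1 / 64) s)

theorem fX_chart (q₀ : QQ G2) {y : C2} (hy : y ∈ (chartAt C2 q₀).target) :
    fX ((chartAt C2 q₀).symm y) = ff (fun s => Real.log s - SS (1 / 64) s) y := by
  obtain ⟨γ, hγ, h2, -⟩ := Pool.Agent.W711.KC.deck_symm (chart_mem_atlas C2 q₀)
    (chart_mem_atlas C2 ((chartAt C2 q₀).symm y)) hy (mem_chart_source C2 _)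
  unfold fX down
  rw [← h2]
  exact ff_inv γ hγ y (Pool.Agent.W711.KC.atlas_target (chart_mem_atlas C2 q₀) hy)

theorem isOpen_active (g : SL(2, ℝ)) : IsOpen {p : C2 | p ∈ U2 ∧ sgg g p < 1 / 16} := by
  have h1 : ContinuousOn (sgg g) (U2 : Set C2) := fun p hp =>
    (contDiffAt_sgg g hp).continuousAt.continuousWithinAt
  exact h1.isOpen_inter_preimage U2.isOpen isOpen_Iio

theorem thX_big : XX.IsBig omX thX := by
  refine ⟨1 / 4, by norm_num, fX, fun q₀ => ?_⟩
  change QQ G2 at q₀
  have hp := chart_self_mem (Γ := G2) q₀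
  set e := chartAt C2 q₀ with he
  have himg : ∀ V : Set C2, e '' (e.source ∩ e ⁻¹' V) = e.target ∩ V := by
    intro V
    ext y
    constructor
    · rintro ⟨q, ⟨hq1, hq2⟩, rfl⟩
      exact ⟨e.map_source hq1, hq2⟩
    · rintro ⟨hy1, hy2⟩
      refine ⟨e.symm y, ⟨e.map_target hy1, ?_⟩, e.right_inv hy1⟩
      rw [mem_preimage, e.right_inv hy1]
      exact hy2
  rcases active_or hp with ⟨g, hg, hlt⟩ | h
  · set V : Set C2 := {p | p ∈ U2 ∧ sgg g p < 1 / 16} with hV
    have hVo : IsOpen V := isOpen_active g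
    refine ⟨e.source ∩ e ⁻¹' V, e.isOpen_inter_preimage hVo,
      ⟨mem_chart_source C2 q₀, hp, hlt⟩, inter_subset_left,
      fun q : QQ G2 => potA (SS (1 / 64)) g (chartAt C2 q₀ q),
      fun q : QQ G2 => lg (-1) (-1) (chartAt C2 q₀ q), ?_, ?_, ?_⟩
    · exact isPotential_chart _ _ (tht_inv reg0) q₀ (potA_pot reg0 hg)
    · exact isPotential_chart _ _ NN_inv q₀ (fun p hp => NN_pot p hp.1)
    · have h1 := psh_active g hVo (fun p hp => hp.1)
      change IsWeaklyPsh _ (e '' (e.source ∩ e ⁻¹' V))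
      rw [himg V]
      refine weaklyPsh_congr (e.open_target.inter hVo) inter_subset_right ?_ h1
      rintro y ⟨hy1, hy2⟩
      change potA (SS (1 / 64)) g (e (e.symm y)) - 1 / 4 * lg (-1) (-1) (e (e.symm y)) +
        fX (e.symm y) = _
      rw [e.right_inv hy1, fX_chart q₀ hy1, ff_active _ hg hy2.1 hy2.2]
      unfold potA lg
      ring
  · obtain ⟨V, hV, hVo, hpV⟩ := eventually_nhds_iff.1 (h.and (U2.isOpen.mem_nhds hp))
    refine ⟨e.source ∩ e ⁻¹' V, e.isOpen_inter_preimage hVo,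
      ⟨mem_chart_source C2 q₀, hpV⟩, inter_subset_left,
      fun q : QQ G2 => lg (-3 / 2) (-1 / 2) (chartAt C2 q₀ q),
      fun q : QQ G2 => lg (-1) (-1) (chartAt C2 q₀ q), ?_, ?_, ?_⟩
    · exact isPotential_chart _ _ (tht_inv reg0) q₀
        (fun p hp => potF_pot reg0 p ⟨(hV p hp).2, (hV p hp).1⟩)
    · exact isPotential_chart _ _ NN_inv q₀ (fun p hp => NN_pot p (hV p hp).2)
    · have h1 := psh_far hVo (fun p hp => (hV p hp).2)
      change IsWeaklyPsh _ (e '' (e.source ∩ e ⁻¹' V))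
      rw [himg V]
      refine weaklyPsh_congr (e.open_target.inter hVo) inter_subset_right ?_ h1
      rintro y ⟨hy1, hy2⟩
      change lg (-3 / 2) (-1 / 2) (e (e.symm y)) - 1 / 4 * lg (-1) (-1) (e (e.symm y)) +
        fX (e.symm y) = _
      have hT : ∀ s : ℝ, 1 / 64 ≤ s → (fun s => Real.log s - SS (1 / 64) s) s = 0 := by
        intro s hs
        simp only [reg0.far s hs, sub_self]
      rw [e.right_inv hy1, fX_chart q₀ hy1, ff_far hT (hV y hy2).2 (hV y hy2).1]
      unfold lg
      ring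

end Pool.Agent.TH613.NB
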